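import Pool.Agent.H40.CK.Defs

/-!
# CK / A1: components of a disjoint union of cycles are cycles; poorness for a component

`comp_cycle`: Mathlib has `IsCycles.exists_cycle_toSubgraph_verts_eq_connectedComponentSupp` (a
cycle walk `p : F.Walk v v` whose vertex set is the component) and
`Walk.IsCycle.adj_toSubgraph_iff_of_isCycles` (its edges are all `F`-edges at its vertices).  Map it
to `Gs` with `Walk.mapLe`.  The length is the number of vertices (`Walk.IsCycle` : the tail of
the support has no duplicates, and its elements are exactly the component).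

`poor_comp`: apply `PoorM` to the cycle of `comp_cycle`: an edge of `M` outside `F` with both ends
in the component is not an edge of `C` and has both ends in `C.support`.
-/

namespace Pool.Agent.H40.CK

open SimpleGraph

variable {V : Type*}

theorem comp_cycle [Finite V] {F Gs : SimpleGraph V} (hF : F.IsCycles) (hle : F ≤ Gs) {v : V}
    (hv : v ∈ F.support) :
    ∃ C : Gs.Walk v v, C.IsCycle ∧ C.length = csz F v ∧
      (∀ w, w ∈ C.support ↔ F.Reachable v w) ∧
      (∀ e, e ∈ C.edges ↔ e ∈ F.edgeSet ∧ ∀ z ∈ e, F.Reachable v z) := by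
  classical
  obtain ⟨w₀, hw₀⟩ := hv
  obtain ⟨p, hp, hverts⟩ := hF.exists_cycle_toSubgraph_verts_eq_connectedComponentSupp
    (c := F.connectedComponentMk v) (v := v) rfl ⟨w₀, hw₀⟩
  have hsupp : ∀ w, w ∈ p.support ↔ F.Reachable v w := by
    intro w
    rw [← Walk.mem_verts_toSubgraph, hverts, ConnectedComponent.mem_supp_iff,
      ConnectedComponent.eq]
    exact ⟨fun h => h.symm, fun h => h.symm⟩
  have hedges : ∀ e, e ∈ p.edges ↔ e ∈ F.edgeSet ∧ ∀ z ∈ e, F.Reachable v z := by
    intro e
    constructor
    · intro he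
      refine ⟨Walk.edges_subset_edgeSet p he, fun z hz => (hsupp z).1 ?_⟩
      induction e using Sym2.ind with
      | _ a b =>
        rcases Sym2.mem_iff.1 hz with rfl | rfl
        · exact Walk.fst_mem_support_of_mem_edges _ he
        · exact Walk.snd_mem_support_of_mem_edges _ he
    · rintro ⟨he, hz⟩
      induction e using Sym2.ind with
      | _ a b =>
        have hab : F.Adj a b := he
        have ha : a ∈ p.toSubgraph.verts := by
          rw [Walk.mem_verts_toSubgraph]
          exact (hsupp a).2 (hz a (Sym2.mem_mk_left a b))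
        letI : F.LocallyFinite := fun x => Fintype.ofFinite _
        have h1 := (hp.adj_toSubgraph_iff_of_isCycles hF ha b).2 hab
        rwa [Walk.adj_toSubgraph_iff_mem_edges] at h1
  have hlen : p.length = csz F v := by
    have h1 : {w | F.Reachable v w} = (p.support.tail.toFinset : Set V) := by
      ext w
      rw [Set.mem_ofPred_eq, ← hsupp w, Finset.mem_coe, List.mem_toFinset]
      constructor
      · intro h
        rw [← Walk.cons_tail_support] at h
        rcases List.mem_cons.1 h with rfl | h
        · exact Walk.end_mem_tail_support hp.not_nil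
        · exact h
      · exact List.mem_of_mem_tail
    unfold csz
    rw [h1, Set.ncard_coe_finset, List.toFinset_card_of_nodup hp.support_nodup, List.length_tail,
      Walk.length_support]
    omega
  refine ⟨p.mapLe hle, hp.mapLe hle, ?_, ?_, ?_⟩
  · rw [← hlen]
    exact Walk.length_map _ _
  · intro w
    rw [Walk.support_mapLe_eq_support]
    exact hsupp w
  · intro e
    rw [Walk.edges_mapLe_eq_edges]
    exact hedges e

theorem poor_comp [Finite V] {F Gs M : SimpleGraph V} {δ : ℝ} (hpoor : PoorM Gs M δ)
    (hF : F.IsCycles) (hle : F ≤ Gs) {v : V} (hv : v ∈ F.support) :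
    (({e | e ∈ M.edgeSet ∧ e ∉ F.edgeSet ∧ ∀ z ∈ e, F.Reachable v z} : Set (Sym2 V)).ncard : ℝ)
      < δ * csz F v := by
  obtain ⟨C, hC, hlen, hsupp, hedges⟩ := comp_cycle hF hle hv
  have h1 := hpoor v C hC
  rw [hlen] at h1
  refine lt_of_le_of_lt ?_ h1
  have h2 : ({e | e ∈ M.edgeSet ∧ e ∉ F.edgeSet ∧ ∀ z ∈ e, F.Reachable v z} : Set (Sym2 V)) ⊆
      {e | e ∈ M.edgeSet ∧ e ∉ C.edges ∧ ∀ z ∈ e, z ∈ C.support} := by
    rintro e ⟨heM, heF, hez⟩
    exact ⟨heM, fun h => heF ((hedges e).1 h).1, fun z hz => (hsupp z).2 (hez z hz)⟩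
  exact_mod_cast Set.ncard_le_ncard h2 (Set.toFinite _)

end Pool.Agent.H40.CK
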