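import Pool.Agent.H40.CK.A1

/-!
# CK / A2: cyclic parametrisations

`exists_cycSeq_of_cycle`: for a cycle `C : G.Walk u u` put
`c i = C.getVert (i mod C.length).toNat`.  Consecutive vertices are adjacent (wrap-around: `getVert
C.length = u = getVert 0`), and `C.getVert` is injective on `[0, C.length)` (Mathlib:
`Walk.IsCycle.getVert_injOn'` or similar).

`exists_cycSeq`: apply this to the cycle of `comp_cycle` with `Gs = F`.  The neighbours of `c i`
in `F` are exactly `c (i+1)` and `c (i-1)`: these are two different vertices (`csz F v ≥ 3` is the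
length of a cycle) and `F` has degree two at `c i`.
-/

namespace Pool.Agent.H40.CK

open SimpleGraph

variable {V : Type*}

/-- the cyclic parametrisation -/
private noncomputable def a2seq {G : SimpleGraph V} {u : V} (C : G.Walk u u) (i : ℤ) : V :=
  C.getVert (i % (C.length : ℤ)).toNat

private theorem a2_step {G : SimpleGraph V} {u : V} (C : G.Walk u u) (hL : 0 < C.length) (i : ℤ) :
    ∃ n < C.length, (i % (C.length : ℤ)).toNat = n ∧ a2seq C i = C.getVert n ∧
      a2seq C (i + 1) = C.getVert (n + 1) := by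
  have hL' : (0 : ℤ) < C.length := by exact_mod_cast hL
  have h0 := Int.emod_nonneg i hL'.ne'
  have h1 := Int.emod_lt_of_pos i hL'
  refine ⟨(i % (C.length : ℤ)).toNat, by omega, rfl, rfl, ?_⟩
  unfold a2seq
  have h2 : (i + 1) % (C.length : ℤ) = (i % (C.length : ℤ) + 1) % (C.length : ℤ) := by
    rw [Int.emod_add_emod]
  by_cases h3 : i % (C.length : ℤ) + 1 = C.length
  · rw [h2, h3, Int.emod_self]
    have h4 : (i % (C.length : ℤ)).toNat + 1 = C.length := by omega
    rw [h4]
    simp
  · rw [h2, Int.emod_eq_of_lt (by omega) (by omega)]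
    congr 1
    omega

theorem exists_cycSeq_of_cycle {G : SimpleGraph V} {u : V} (C : G.Walk u u) (hC : C.IsCycle) :
    ∃ c : ℤ → V, CycSeq G c C.length ∧ c 0 = u ∧ (∀ w, w ∈ C.support ↔ ∃ i, c i = w) ∧
      (∀ e, e ∈ C.edges ↔ ∃ i, e = s(c i, c (i + 1))) := by
  have h3 := hC.three_le_length
  have hL : 0 < C.length := by omega
  have hL' : (0 : ℤ) < C.length := by exact_mod_cast hL
  have hnat : ∀ n : ℕ, n < C.length → a2seq C n = C.getVert n := by
    intro n hn
    unfold a2seq
    rw [Int.emod_eq_of_lt (by omega) (by omega)]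
    simp
  refine ⟨a2seq C, ⟨fun i => ?_, fun i j => ?_⟩, ?_, fun w => ?_, fun e => ?_⟩
  · obtain ⟨n, hn, -, h1, h2⟩ := a2_step C hL i
    rw [h1, h2]
    exact C.adj_getVert_succ hn
  · have hi0 := Int.emod_nonneg i hL'.ne'
    have hi1 := Int.emod_lt_of_pos i hL'
    have hj0 := Int.emod_nonneg j hL'.ne'
    have hj1 := Int.emod_lt_of_pos j hL'
    constructor
    · intro h
      have h1 : (i % (C.length : ℤ)).toNat = (j % (C.length : ℤ)).toNat :=
        hC.getVert_injOn' (by simp only [Set.mem_ofPred_eq]; omega)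
          (by simp only [Set.mem_ofPred_eq]; omega) h
      have h2 : i % (C.length : ℤ) = j % (C.length : ℤ) := by omega
      exact Int.ModEq.dvd h2
    · intro h
      have h2 : i % (C.length : ℤ) = j % (C.length : ℤ) := (Int.modEq_iff_dvd.2 h)
      unfold a2seq
      rw [h2]
  · have := hnat 0 hL
    simpa using this
  · rw [Walk.mem_support_iff_exists_getVert]
    constructor
    · rintro ⟨n, h1, h2⟩
      rcases Nat.lt_or_ge n C.length with h4 | h4
      · exact ⟨n, by rw [hnat n h4, h1]⟩
      · have h5 : n = C.length := le_antisymm h2 h4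
        subst h5
        refine ⟨0, ?_⟩
        have := hnat 0 hL
        rw [← h1]
        simpa using this
    · rintro ⟨i, rfl⟩
      obtain ⟨n, hn, -, h1, -⟩ := a2_step C hL i
      exact ⟨n, h1.symm, hn.le⟩
  · constructor
    · intro he
      induction e with
      | h x y =>
        rw [Walk.mk_mem_edges_iff_exists] at he
        obtain ⟨n, hn, h⟩ := he
        obtain ⟨n', hn', h0, h1, h2⟩ := a2_step C hL n
        have h5 : n' = n := by
          rw [← h0, Int.emod_eq_of_lt (by omega) (by omega)]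
          simp
        subst h5
        exact ⟨n', by rw [h1, h2]; exact h.symm⟩
    · rintro ⟨i, rfl⟩
      obtain ⟨n, hn, -, h1, h2⟩ := a2_step C hL i
      rw [h1, h2, Walk.mk_mem_edges_iff_exists]
      exact ⟨n, hn, rfl⟩

theorem exists_cycSeq [Finite V] {F : SimpleGraph V} (hF : F.IsCycles) {v : V}
    (hv : v ∈ F.support) :
    3 ≤ csz F v ∧ ∃ c : ℤ → V, CycSeq F c (csz F v) ∧ c 0 = v ∧
      (∀ w, F.Reachable v w ↔ ∃ i, c i = w) ∧
      (∀ i w, F.Adj (c i) w → w = c (i + 1) ∨ w = c (i - 1)) := by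
  obtain ⟨C, hC, hlen, hsup, hedge⟩ := comp_cycle hF le_rfl hv
  obtain ⟨c, hc, hc0, hcs, hce⟩ := exists_cycSeq_of_cycle C hC
  have h3 := hC.three_le_length
  rw [hlen] at hc h3
  refine ⟨h3, c, hc, hc0, fun w => by rw [← hsup, hcs], fun i w hw => ?_⟩
  have hne : c (i + 1) ≠ c (i - 1) := by
    intro h
    have h1 := (hc.eq_iff _ _).1 h
    have h2 : i - 1 - (i + 1) = -2 := by ring
    rw [h2, dvd_neg] at h1
    have := Int.le_of_dvd (by norm_num) h1
    omega
  have hadj1 : F.Adj (c i) (c (i + 1)) := hc.adj i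
  have hadj2 : F.Adj (c i) (c (i - 1)) := by
    have := hc.adj (i - 1)
    rw [sub_add_cancel] at this
    exact this.symm
  have h2 := hF (v := c i) ⟨_, hadj1⟩
  rw [Set.ncard_eq_two] at h2
  obtain ⟨a, b, hab, hs⟩ := h2
  have m1 : c (i + 1) ∈ ({a, b} : Set V) := by rw [← hs]; exact hadj1
  have m2 : c (i - 1) ∈ ({a, b} : Set V) := by rw [← hs]; exact hadj2
  have m3 : w ∈ ({a, b} : Set V) := by rw [← hs]; exact hw
  simp only [Set.mem_insert_iff, Set.mem_singleton_iff] at m1 m2 m3
  rcases m1 with m1 | m1 <;> rcases m2 with m2 | m2 <;> rcases m3 with m3 | m3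
  · exact Or.inl (m3.trans m1.symm)
  · exact absurd (m1.trans m2.symm) hne
  · exact Or.inl (m3.trans m1.symm)
  · exact Or.inr (m3.trans m2.symm)
  · exact Or.inr (m3.trans m2.symm)
  · exact Or.inl (m3.trans m1.symm)
  · exact absurd (m1.trans m2.symm) hne
  · exact Or.inl (m3.trans m1.symm)

end Pool.Agent.H40.CK
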