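import Pool.Agent.H40.CK.Defs

/-!
# CK / A3a: the switched graph is a disjoint union of cycles

`d : SwitchData B M`.  Write `z_β = seg β (a β)`, `z'_β = seg β (b β)` for `β ∈ U` (the endpoints).
By `Blocks.sep` (both indices in `[0, r)`) all positions `(β, i)`, `0 ≤ i < r`, are different
vertices.  Since `M` is a matching and `S ⊆ M`, every vertex has at most one `S`-neighbour; by
`hends` exactly the endpoints have one.  `S`-edges are not `F`-edges (`hdiff`).
An `F`-edge at `x` is in `D` iff it is `s(seg β i, seg β (i+1))` with `β ∈ U`, `a β ≤ i < b β`.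
* `x = seg β i` with `β ∈ U`, `a β < i < b β` (removed): both `F`-edges (`Blocks.nbr`:
  the neighbours are `seg β (i±1)`) are in `D`, no `S`-edge.  So `x` is isolated in `d.graph`.
* `x = seg β (a β)`: the edge to `seg β (a β + 1)` is deleted, the edge to `seg β (a β - 1)` is not
  (`sep` shows that it is not in `D`), one `S`-edge: two neighbours (they are different, because
  the `S`-neighbour is not `F`-reachable from `x`).  Same for `x = seg β (b β)`.
* all other `x` (in particular `x ∉ F.support`): the neighbour set is the same as in `F`: if an edge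
  at `x` is in `D` then `x = seg β i` with `β ∈ U`, `a β ≤ i ≤ b β`.
`switch_support` follows from the same case distinction.
-/

namespace Pool.Agent.H40.CK

open SimpleGraph

variable {V : Type*}

theorem switch_adj {F M : SimpleGraph V} {s r : ℕ} {ι : Type*} {B : Blocks F s r ι}
    (d : SwitchData B M) (x y : V) :
    d.graph.Adj x y ↔ (F.Adj x y ∧ s(x, y) ∉ d.D) ∨ (s(x, y) ∈ d.S ∧ x ≠ y) := by
  unfold SwitchData.graph
  rw [SimpleGraph.sup_adj, SimpleGraph.deleteEdges_adj, SimpleGraph.fromEdgeSet_adj]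

/-- A vertex which is neither an endpoint nor removed keeps its neighbours. -/
theorem switch_nbr_other {F M : SimpleGraph V} {s r : ℕ} {ι : Type*} {B : Blocks F s r ι}
    (d : SwitchData B M) (hrs : 4 * r ≤ s) {x : V}
    (hx : ∀ β ∈ d.U, ∀ i, d.a β ≤ i → i ≤ d.b β → x ≠ B.seg β i) (y : V) :
    d.graph.Adj x y ↔ F.Adj x y := by
  rw [switch_adj]
  constructor
  · rintro (h | h)
    · exact h.1
    · exfalso
      obtain ⟨β, hβ, h1⟩ := (d.hends x).1 ⟨y, h.1⟩
      have h2 := d.hab β hβ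
      rcases h1 with h1 | h1
      · exact hx β hβ (d.a β) le_rfl h2.2.1.le h1
      · exact hx β hβ (d.b β) h2.2.1.le le_rfl h1
  · intro h
    refine Or.inl ⟨h, ?_⟩
    rintro ⟨β, hβ, i, h1, h2, h3⟩
    rcases Sym2.eq_iff.1 h3 with ⟨h4, -⟩ | ⟨h4, -⟩
    · exact hx β hβ i h1 h2.le h4
    · exact hx β hβ (i + 1) (by omega) (by omega) h4

/-- The positions of the vertices touched by the switching. -/
theorem switch_cases {F M : SimpleGraph V} {s r : ℕ} {ι : Type*} {B : Blocks F s r ι}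
    (d : SwitchData B M) (x : V) :
    (∀ β ∈ d.U, ∀ i, d.a β ≤ i → i ≤ d.b β → x ≠ B.seg β i) ∨
    (∃ β ∈ d.U, ∃ i, d.a β < i ∧ i < d.b β ∧ x = B.seg β i) ∨
    (∃ β ∈ d.U, x = B.seg β (d.a β)) ∨ (∃ β ∈ d.U, x = B.seg β (d.b β)) := by
  by_cases h : ∀ β ∈ d.U, ∀ i, d.a β ≤ i → i ≤ d.b β → x ≠ B.seg β i
  · exact Or.inl h
  · right
    push Not at h
    obtain ⟨β, hβ, i, h1, h2, h3⟩ := h
    rcases eq_or_lt_of_le h1 with h4 | h4
    · exact Or.inr (Or.inl ⟨β, hβ, by rw [h4]; exact h3⟩)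
    · rcases eq_or_lt_of_le h2 with h5 | h5
      · exact Or.inr (Or.inr ⟨β, hβ, by rw [← h5]; exact h3⟩)
      · exact Or.inl ⟨β, hβ, i, h4, h5, h3⟩

theorem switch_sep' {F : SimpleGraph V} {s r : ℕ} {ι : Type*} {B : Blocks F s r ι}
    {β β' : ι} {i j : ℤ} (h1 : -((s : ℤ) - r) ≤ i) (h2 : i < s) (h3 : 0 ≤ j) (h4 : j < r)
    (h : B.seg β i = B.seg β' j) : β = β' ∧ i = j := by
  have h5 : ((j.toNat : ℕ) : ℤ) = j := Int.toNat_of_nonneg h3
  have h6 := B.sep β β' i j.toNat h1 h2 (Nat.zero_le _) (by omega) (by rw [h5]; exact h)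
  rw [h5] at h6
  exact h6

/-- Positions in blocks are different. -/
theorem switch_sep {F M : SimpleGraph V} {s r : ℕ} {ι : Type*} {B : Blocks F s r ι}
    (d : SwitchData B M) (hrs : 4 * r ≤ s) {β β' : ι} (hβ : β ∈ d.U) (hβ' : β' ∈ d.U) {i j : ℤ}
    (h1 : d.a β ≤ i) (h2 : i ≤ d.b β) (h3 : d.a β' ≤ j) (h4 : j ≤ d.b β')
    (h : B.seg β i = B.seg β' j) : β = β' ∧ i = j := by
  have h5 := d.hab β hβ
  have h6 := d.hab β' hβ'
  exact switch_sep' (by omega) (by omega) (by omega) (by omega) h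

/-- A removed vertex is isolated. -/
theorem switch_removed {F M : SimpleGraph V} {s r : ℕ} {ι : Type*} {B : Blocks F s r ι}
    (d : SwitchData B M) (hrs : 4 * r ≤ s) {β : ι} (hβ : β ∈ d.U) {i : ℤ}
    (h1 : d.a β < i) (h2 : i < d.b β) (y : V) : ¬ d.graph.Adj (B.seg β i) y := by
  rw [switch_adj]
  rintro (h | h)
  · rcases B.nbr β i y h.1 with h3 | h3
    · exact h.2 ⟨β, hβ, i, h1.le, h2, by rw [h3]⟩
    · refine h.2 ⟨β, hβ, i - 1, by omega, by omega, ?_⟩
      rw [h3, sub_add_cancel, Sym2.eq_swap]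
  · obtain ⟨β', hβ', h3⟩ := (d.hends _).1 ⟨y, h.1⟩
    have h4 := d.hab β' hβ'
    rcases h3 with h3 | h3
    · obtain ⟨h5, h6⟩ := switch_sep d hrs hβ hβ' h1.le h2.le le_rfl h4.2.1.le h3
      subst h5
      omega
    · obtain ⟨h5, h6⟩ := switch_sep d hrs hβ hβ' h1.le h2.le h4.2.1.le le_rfl h3
      subst h5
      omega

/-- The neighbours of an endpoint: one edge of `F` is kept, one edge of `S` is added. -/
theorem switch_endpoint {F M : SimpleGraph V} {s r : ℕ} {ι : Type*} {B : Blocks F s r ι}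
    (d : SwitchData B M) (hM : IsMatch M) {x w w' : V}
    (hx : ∃ β ∈ d.U, x = B.seg β (d.a β) ∨ x = B.seg β (d.b β))
    (hw : ∀ y, F.Adj x y → y = w ∨ y = w') (hxw : F.Adj x w) (hkeep : s(x, w) ∉ d.D)
    (hdel : s(x, w') ∈ d.D) :
    ∃ y₀, y₀ ≠ w ∧ ∀ y, d.graph.Adj x y ↔ y = w ∨ y = y₀ := by
  obtain ⟨y₀, hy₀⟩ := (d.hends x).2 hx
  have hMy₀ : M.Adj x y₀ := d.hSM hy₀
  refine ⟨y₀, ?_, fun y => ?_⟩
  · rintro rfl
    exact d.hdiff x _ hy₀ hxw.reachable
  · rw [switch_adj]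
    constructor
    · rintro (h | h)
      · rcases hw y h.1 with h3 | h3
        · exact Or.inl h3
        · exfalso
          rw [h3] at h
          exact h.2 hdel
      · exact Or.inr (hM x y y₀ (d.hSM h.1) hMy₀)
    · rintro (h | h)
      · rw [h]
        exact Or.inl ⟨hxw, hkeep⟩
      · rw [h]
        exact Or.inr ⟨hy₀, hMy₀.ne⟩

theorem switch_endpoint_a {F M : SimpleGraph V} {s r : ℕ} {ι : Type*} {B : Blocks F s r ι}
    (d : SwitchData B M) (hM : IsMatch M) (hrs : 4 * r ≤ s) {β : ι} (hβ : β ∈ d.U) :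
    ∃ y₀, y₀ ≠ B.seg β (d.a β - 1) ∧
      ∀ y, d.graph.Adj (B.seg β (d.a β)) y ↔ y = B.seg β (d.a β - 1) ∨ y = y₀ := by
  have h0 := d.hab β hβ
  refine switch_endpoint d hM (w' := B.seg β (d.a β + 1)) ⟨β, hβ, Or.inl rfl⟩
    (fun y hy => (B.nbr β _ y hy).symm) ?_ ?_ ?_
  · have := B.adj β (d.a β - 1)
    rw [sub_add_cancel] at this
    exact this.symm
  · rintro ⟨β', hβ', i, h1, h2, h3⟩
    have h4 := d.hab β' hβ'
    rcases Sym2.eq_iff.1 h3 with ⟨h5, h6⟩ | ⟨h5, h6⟩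
    · obtain ⟨h7, h8⟩ := switch_sep d hrs hβ hβ' le_rfl h0.2.1.le h1 h2.le h5
      subst h7
      rw [← h8] at h6
      have := switch_sep' (B := B) (i := d.a β - 1) (j := d.a β + 1) (by omega) (by omega)
        (by omega) (by omega) h6
      omega
    · obtain ⟨h7, h8⟩ := switch_sep d hrs hβ hβ' le_rfl h0.2.1.le (by omega) (by omega) h5
      subst h7
      omega
  · exact ⟨β, hβ, d.a β, le_rfl, h0.2.1, rfl⟩

theorem switch_endpoint_b {F M : SimpleGraph V} {s r : ℕ} {ι : Type*} {B : Blocks F s r ι}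
    (d : SwitchData B M) (hM : IsMatch M) (hrs : 4 * r ≤ s) {β : ι} (hβ : β ∈ d.U) :
    ∃ y₀, y₀ ≠ B.seg β (d.b β + 1) ∧
      ∀ y, d.graph.Adj (B.seg β (d.b β)) y ↔ y = B.seg β (d.b β + 1) ∨ y = y₀ := by
  have h0 := d.hab β hβ
  refine switch_endpoint d hM (w' := B.seg β (d.b β - 1)) ⟨β, hβ, Or.inr rfl⟩
    (fun y hy => B.nbr β _ y hy) (B.adj β _) ?_ ?_
  · rintro ⟨β', hβ', i, h1, h2, h3⟩
    have h4 := d.hab β' hβ'
    rcases Sym2.eq_iff.1 h3 with ⟨h5, h6⟩ | ⟨h5, h6⟩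
    · obtain ⟨h7, h8⟩ := switch_sep d hrs hβ hβ' h0.2.1.le le_rfl h1 h2.le h5
      subst h7
      omega
    · obtain ⟨h7, h8⟩ := switch_sep d hrs hβ hβ' h0.2.1.le le_rfl (by omega) (by omega) h5
      subst h7
      have h9 : i = d.b β - 1 := by omega
      rw [h9] at h6
      have := switch_sep' (B := B) (i := d.b β + 1) (j := d.b β - 1) (by omega) (by omega)
        (by omega) (by omega) h6
      omega
  · refine ⟨β, hβ, d.b β - 1, by omega, by omega, ?_⟩
    rw [sub_add_cancel, Sym2.eq_swap]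

theorem switch_isCycles {F M : SimpleGraph V} {s r : ℕ} {ι : Type*} {B : Blocks F s r ι}
    (d : SwitchData B M) (hF : F.IsCycles) (hM : IsMatch M) (hrs : 4 * r ≤ s) :
    d.graph.IsCycles := by
  intro x hx
  rcases switch_cases d x with h | ⟨β, hβ, i, h1, h2, rfl⟩ | ⟨β, hβ, rfl⟩ | ⟨β, hβ, rfl⟩
  · have h1 : d.graph.neighborSet x = F.neighborSet x := by
      ext y
      exact switch_nbr_other d hrs h y
    rw [h1] at hx ⊢
    exact hF hx
  · obtain ⟨y, hy⟩ := hx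
    exact absurd hy (switch_removed d hrs hβ h1 h2 y)
  · obtain ⟨y₀, h1, h2⟩ := switch_endpoint_a d hM hrs hβ
    have h3 : d.graph.neighborSet (B.seg β (d.a β)) = {B.seg β (d.a β - 1), y₀} := by
      ext y
      exact h2 y
    rw [h3, Set.ncard_pair h1.symm]
  · obtain ⟨y₀, h1, h2⟩ := switch_endpoint_b d hM hrs hβ
    have h3 : d.graph.neighborSet (B.seg β (d.b β)) = {B.seg β (d.b β + 1), y₀} := by
      ext y
      exact h2 y
    rw [h3, Set.ncard_pair h1.symm]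

theorem switch_support {F M : SimpleGraph V} {s r : ℕ} {ι : Type*} {B : Blocks F s r ι}
    (d : SwitchData B M) (hF : F.IsCycles) (hM : IsMatch M) (hrs : 4 * r ≤ s) :
    d.graph.support = F.support \ d.removed := by
  ext x
  rw [Set.mem_sdiff, SimpleGraph.mem_support, SimpleGraph.mem_support]
  rcases switch_cases d x with h | ⟨β, hβ, i, h1, h2, rfl⟩ | ⟨β, hβ, rfl⟩ | ⟨β, hβ, rfl⟩
  · have h1 : x ∉ d.removed := by
      rintro ⟨β, hβ, i, h2, h3, h4⟩
      exact h β hβ i h2.le h3.le h4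
    constructor
    · rintro ⟨y, hy⟩
      exact ⟨⟨y, (switch_nbr_other d hrs h y).1 hy⟩, h1⟩
    · rintro ⟨⟨y, hy⟩, -⟩
      exact ⟨y, (switch_nbr_other d hrs h y).2 hy⟩
  · constructor
    · rintro ⟨y, hy⟩
      exact absurd hy (switch_removed d hrs hβ h1 h2 y)
    · rintro ⟨-, h3⟩
      exact absurd ⟨β, hβ, i, h1, h2, rfl⟩ h3
  · have h0 := d.hab β hβ
    obtain ⟨y₀, h1, h2⟩ := switch_endpoint_a d hM hrs hβ
    constructor
    · intro _
      refine ⟨⟨_, B.adj β _⟩, ?_⟩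
      rintro ⟨β', hβ', i, h3, h4, h5⟩
      obtain ⟨h6, h7⟩ := switch_sep d hrs hβ hβ' le_rfl h0.2.1.le h3.le h4.le h5
      subst h6
      omega
    · intro _
      exact ⟨_, (h2 _).2 (Or.inl rfl)⟩
  · have h0 := d.hab β hβ
    obtain ⟨y₀, h1, h2⟩ := switch_endpoint_b d hM hrs hβ
    constructor
    · intro _
      refine ⟨⟨_, B.adj β _⟩, ?_⟩
      rintro ⟨β', hβ', i, h3, h4, h5⟩
      obtain ⟨h6, h7⟩ := switch_sep d hrs hβ hβ' h0.2.1.le le_rfl h3.le h4.le h5
      subst h6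
      omega
    · intro _
      exact ⟨_, (h2 _).2 (Or.inl rfl)⟩

end Pool.Agent.H40.CK
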