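import Pool.Agent.H40.CK.A3a

/-!
# CK / A3b: components of the switched graph

Let `x ∈ d.graph.support`.

Case 1: no endpoint (`seg β (a β)`, `seg β (b β)`, `β ∈ U`) is `d.graph`-reachable from `x`.  Every
vertex `y` which is `d.graph`-reachable from `x` is then neither an endpoint nor removed (a removed
vertex is not in `d.graph.support`), so it has the same neighbours in `d.graph` and in `F`
(`switch_nbr_other`).  Hence `F.Reachable x y ↔ d.graph.Reachable x y` for all `y`, so the `csz` are
equal, and no `seg β 0` with `β ∈ U` is `F`-reachable from `x` (otherwise the endpoint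
`seg β (a β)` would be).

Case 2: some endpoint `z` is reachable from `x`.  If `z = seg β (b β)`, the `s - r + 1` vertices
`seg β i`, `b β ≤ i ≤ b β + (s - r)`, are distinct (`inj`) and consecutive ones are
adjacent in `d.graph`: the edge `s(seg β i, seg β (i+1))` is not in `D` by `sep`
(`0 ≤ i ≤ s - 1`).  If `z = seg β (a β)`, take `seg β i`, `a β - (s - r) ≤ i ≤ a β` (here
`-(s-r) ≤ i`).  The `S`-partner `z'` of `z` is again an endpoint (`hends`), in another
`F`-component (`hdiff`), and has its own arc of `s - r + 1` vertices.  The two arcs lie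
in different `F`-components, hence are disjoint, and both are in the `d.graph`-component of `x`.
So `csz d.graph x ≥ 2 (s - r + 1)` and `2 * csz ≥ 4 s - 4 r ≥ 3 s`.
-/

namespace Pool.Agent.H40.CK

open SimpleGraph

variable {V : Type*}

/-- `Blocks.sep` with integer indices. -/
theorem A3b_sep {F : SimpleGraph V} {s r : ℕ} {ι : Type*} (B : Blocks F s r ι) (β β' : ι)
    (i j : ℤ) (h1 : -((s : ℤ) - r) ≤ i) (h2 : i < s) (h3 : 0 ≤ j) (h4 : j < r)
    (h : B.seg β i = B.seg β' j) : β = β' ∧ i = j := by
  have h5 := B.sep β β' i j.toNat h1 h2 (Nat.zero_le _) (by omega)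
    (by rw [Int.toNat_of_nonneg h3]; exact h)
  rw [Int.toNat_of_nonneg h3] at h5
  exact h5

/-- The two neighbours on a cycle are different. -/
theorem A3b_two {F : SimpleGraph V} {s r : ℕ} {ι : Type*} (B : Blocks F s r ι)
    (hF : F.IsCycles) (β : ι) (i : ℤ) : B.seg β (i + 1) ≠ B.seg β (i - 1) := by
  intro he
  have h1 : (F.neighborSet (B.seg β i)).Nonempty := ⟨_, B.adj β i⟩
  have h2 := hF h1
  have h3 : F.neighborSet (B.seg β i) ⊆ {B.seg β (i + 1)} := by
    intro w hw
    rcases B.nbr β i w hw with h | h
    · exact h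
    · rw [← he] at h
      exact h
  have h4 := Set.ncard_le_ncard h3 (Set.finite_singleton _)
  rw [h2, Set.ncard_singleton] at h4
  omega

theorem A3b_rev {F : SimpleGraph V} {s r : ℕ} {ι : Type*} (B : Blocks F s r ι)
    (hF : F.IsCycles) (β : ι) (i j : ℤ) (h : B.seg β i = B.seg β j) :
    (B.seg β (i + 1) = B.seg β (j + 1) ∧ B.seg β (i - 1) = B.seg β (j - 1)) ∨
      (B.seg β (i + 1) = B.seg β (j - 1) ∧ B.seg β (i - 1) = B.seg β (j + 1)) := by
  have h1 : F.Adj (B.seg β j) (B.seg β (i + 1)) := by
    rw [← h]
    exact B.adj β i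
  have h2 : F.Adj (B.seg β j) (B.seg β (i - 1)) := by
    rw [← h]
    have := B.adj β (i - 1)
    rw [sub_add_cancel] at this
    exact this.symm
  have h3 := A3b_two B hF β i
  rcases B.nbr β j _ h1 with h4 | h4 <;> rcases B.nbr β j _ h2 with h5 | h5
  · exact absurd (h4.trans h5.symm) h3
  · exact Or.inl ⟨h4, h5⟩
  · exact Or.inr ⟨h4, h5⟩
  · exact absurd (h4.trans h5.symm) h3

theorem A3b_no_rev {F : SimpleGraph V} {s r : ℕ} {ι : Type*} (B : Blocks F s r ι)
    (hF : F.IsCycles) (β : ι) (n : ℕ) (hn : 1 ≤ n) : ∀ i : ℤ, B.seg β i = B.seg β (i + n) →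
      B.seg β (i + 1) = B.seg β (i + n - 1) → False := by
  induction n using Nat.strong_induction_on with
  | _ n ih =>
    intro i h1 h2
    rcases Nat.lt_or_ge n 3 with h | h
    · have h3 : n = 1 ∨ n = 2 := by omega
      rcases h3 with rfl | rfl
      · have h4 := (B.adj β i).ne
        push_cast at h1
        exact h4 h1
      · have h4 := A3b_two B hF β (i + 1)
        push_cast at h1
        rw [show i + 1 + 1 = i + 2 by ring, show i + 1 - 1 = i by ring] at h4
        exact h4 h1.symm
    · rcases A3b_rev B hF β _ _ h2 with ⟨h3, h4⟩ | ⟨h3, h4⟩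
      · have h5 := A3b_two B hF β (i + n - 1)
        apply h5
        rw [show i + (n : ℤ) - 1 + 1 = i + n by ring, ← h1, ← h4]
        congr 1
        ring
      · refine ih (n - 2) (by omega) (by omega) (i + 1) ?_ ?_
        · rw [h2]
          congr 1
          omega
        · rw [h3]
          congr 1
          omega

/-- `Blocks.inj` with integer indices. -/
theorem A3b_inj {F : SimpleGraph V} {s r : ℕ} {ι : Type*} (B : Blocks F s r ι)
    (hF : F.IsCycles) (β : ι) (i j : ℤ) (hij : i ≤ j) (hjs : j < i + s)
    (h : B.seg β i = B.seg β j) : i = j := by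
  by_contra hne
  obtain ⟨n, hn⟩ : ∃ n : ℕ, j = i + n := ⟨(j - i).toNat, by omega⟩
  have hn1 : 1 ≤ n := by omega
  rw [hn] at h
  have up : ∀ k : ℕ, B.seg β (i + k) = B.seg β (i + k + n) := by
    intro k
    induction k with
    | zero => simpa using h
    | succ k ih =>
      rcases A3b_rev B hF β _ _ ih with ⟨h3, -⟩ | ⟨h3, -⟩
      · push_cast
        rw [← add_assoc, h3]
        congr 1
        ring
      · exact (A3b_no_rev B hF β n hn1 _ ih h3).elim
  have down : ∀ k : ℕ, B.seg β (i - k) = B.seg β (i - k + n) := by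
    intro k
    induction k with
    | zero => simpa using h
    | succ k ih =>
      rcases A3b_rev B hF β _ _ ih with ⟨-, h3⟩ | ⟨h3, -⟩
      · push_cast
        rw [show i - ((k : ℤ) + 1) = i - k - 1 by ring, h3]
        congr 1
        ring
      · exact (A3b_no_rev B hF β n hn1 _ ih h3).elim
  have hz : B.seg β 0 = B.seg β n := by
    rcases le_total 0 i with hi | hi
    · have := down i.toNat
      rw [Int.toNat_of_nonneg hi, sub_self, zero_add] at this
      exact this
    · have := up (-i).toNat
      rw [Int.toNat_of_nonneg (by omega), add_neg_cancel, zero_add] at this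
      exact this
  have h4 := B.inj β 0 n (Nat.zero_le _) (by omega) (by simpa using hz)
  omega

/-- Edges of the cycle away from the cut-out paths are kept. -/
theorem switch_adj_seg {F M : SimpleGraph V} {s r : ℕ} {ι : Type*} {B : Blocks F s r ι}
    (d : SwitchData B M) {β : ι} {i : ℤ} (h1 : -((s : ℤ) - r) ≤ i) (h2 : i + 1 < s)
    (h3 : i < d.a β ∨ d.b β ≤ i) : d.graph.Adj (B.seg β i) (B.seg β (i + 1)) := by
  unfold SwitchData.graph
  rw [sup_adj]
  left
  rw [deleteEdges_adj]
  refine ⟨B.adj β i, ?_⟩
  rintro ⟨β', hβ', j, hj1, hj2, he⟩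
  obtain ⟨hU1, hU2, hU3⟩ := d.hab β' hβ'
  rw [Sym2.eq_iff] at he
  rcases he with ⟨he1, he2⟩ | ⟨he1, he2⟩
  · obtain ⟨hb, hi⟩ := A3b_sep B β β' i j h1 (by omega) (by omega) (by omega) he1
    subst hb
    subst hi
    omega
  · obtain ⟨hb, hi⟩ := A3b_sep B β β' i (j + 1) h1 (by omega) (by omega) (by omega) he1
    obtain ⟨-, hi'⟩ := A3b_sep B β β' (i + 1) j (by omega) (by omega) (by omega) (by omega) he2
    omega

/-- The arc of `s - r + 1` vertices at an endpoint. -/
theorem switch_arc {F M : SimpleGraph V} {s r : ℕ} {ι : Type*} {B : Blocks F s r ι}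
    (d : SwitchData B M) (hF : F.IsCycles) (hrs : 4 * r ≤ s) {z : V}
    (hz : ∃ β ∈ d.U, z = B.seg β (d.a β) ∨ z = B.seg β (d.b β)) :
    ∃ T : Finset V, T.card = s - r + 1 ∧ ∀ w ∈ T, d.graph.Reachable z w ∧ F.Reachable z w := by
  classical
  obtain ⟨β, hβ, hz⟩ := hz
  obtain ⟨hU1, hU2, hU3⟩ := d.hab β hβ
  obtain ⟨n, hn⟩ : ∃ n : ℕ, n = s - r := ⟨_, rfl⟩
  have hn' : (n : ℤ) = (s : ℤ) - r := by omega
  rcases hz with rfl | rfl
  · have hreach : ∀ k : ℕ, k ≤ n → d.graph.Reachable (B.seg β (d.a β)) (B.seg β (d.a β - k)) ∧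
        F.Reachable (B.seg β (d.a β)) (B.seg β (d.a β - k)) := by
      intro k
      induction k with
      | zero =>
        intro _
        rw [Nat.cast_zero, sub_zero]
        exact ⟨Reachable.refl _, Reachable.refl _⟩
      | succ k ih =>
        intro hk
        obtain ⟨ih1, ih2⟩ := ih (by omega)
        have h1 : d.a β - (k : ℤ) = d.a β - ((k + 1 : ℕ) : ℤ) + 1 := by push_cast; ring
        have h2 : d.graph.Adj (B.seg β (d.a β - ((k + 1 : ℕ) : ℤ)))
            (B.seg β (d.a β - ((k + 1 : ℕ) : ℤ) + 1)) :=
          switch_adj_seg d (by push_cast; omega) (by push_cast; omega)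
            (Or.inl (by push_cast; omega))
        have h3 := B.adj β (d.a β - ((k + 1 : ℕ) : ℤ))
        rw [← h1] at h2 h3
        exact ⟨ih1.trans h2.symm.reachable, ih2.trans h3.symm.reachable⟩
    refine ⟨(Finset.range (n + 1)).image fun k : ℕ => B.seg β (d.a β - k), ?_, ?_⟩
    · rw [Finset.card_image_of_injOn, Finset.card_range, hn]
      intro k hk k' hk' he
      have hk1 := Finset.mem_range.1 (Finset.mem_coe.1 hk)
      have hk2 := Finset.mem_range.1 (Finset.mem_coe.1 hk')
      rcases le_total k k' with h | h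
      · have := A3b_inj B hF β (d.a β - k') (d.a β - k) (by omega) (by omega) he.symm
        omega
      · have := A3b_inj B hF β (d.a β - k) (d.a β - k') (by omega) (by omega) he
        omega
    · intro w hw
      obtain ⟨k, hk, rfl⟩ := Finset.mem_image.1 hw
      exact hreach k (by have := Finset.mem_range.1 hk; omega)
  · have hreach : ∀ k : ℕ, k ≤ n → d.graph.Reachable (B.seg β (d.b β)) (B.seg β (d.b β + k)) ∧
        F.Reachable (B.seg β (d.b β)) (B.seg β (d.b β + k)) := by
      intro k
      induction k with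
      | zero =>
        intro _
        rw [Nat.cast_zero, add_zero]
        exact ⟨Reachable.refl _, Reachable.refl _⟩
      | succ k ih =>
        intro hk
        obtain ⟨ih1, ih2⟩ := ih (by omega)
        have h1 : d.b β + ((k + 1 : ℕ) : ℤ) = d.b β + (k : ℤ) + 1 := by push_cast; ring
        have h2 : d.graph.Adj (B.seg β (d.b β + (k : ℤ))) (B.seg β (d.b β + (k : ℤ) + 1)) :=
          switch_adj_seg d (by omega) (by omega) (Or.inr (by omega))
        have h3 := B.adj β (d.b β + (k : ℤ))
        rw [h1]
        exact ⟨ih1.trans h2.reachable, ih2.trans h3.reachable⟩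
    refine ⟨(Finset.range (n + 1)).image fun k : ℕ => B.seg β (d.b β + k), ?_, ?_⟩
    · rw [Finset.card_image_of_injOn, Finset.card_range, hn]
      intro k hk k' hk' he
      have hk1 := Finset.mem_range.1 (Finset.mem_coe.1 hk)
      have hk2 := Finset.mem_range.1 (Finset.mem_coe.1 hk')
      rcases le_total k k' with h | h
      · have := A3b_inj B hF β (d.b β + k) (d.b β + k') (by omega) (by omega) he
        omega
      · have := A3b_inj B hF β (d.b β + k') (d.b β + k) (by omega) (by omega) he.symm
        omega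
    · intro w hw
      obtain ⟨k, hk, rfl⟩ := Finset.mem_image.1 hw
      exact hreach k (by have := Finset.mem_range.1 hk; omega)

theorem switch_csz [Finite V] {F M : SimpleGraph V} {s r : ℕ} {ι : Type*} {B : Blocks F s r ι}
    (d : SwitchData B M) (hF : F.IsCycles) (hM : IsMatch M) (hrs : 4 * r ≤ s) {x : V}
    (hx : x ∈ d.graph.support) :
    (csz d.graph x = csz F x ∧ ∀ β ∈ d.U, ¬ F.Reachable x (B.seg β 0)) ∨
      3 * s ≤ 2 * csz d.graph x := by
  classical
  by_cases hcase : ∃ z, (∃ β ∈ d.U, z = B.seg β (d.a β) ∨ z = B.seg β (d.b β)) ∧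
      d.graph.Reachable x z
  · right
    obtain ⟨z, hz, hxz⟩ := hcase
    obtain ⟨y, hy⟩ := (d.hends z).2 hz
    have hyz : ∃ β ∈ d.U, y = B.seg β (d.a β) ∨ y = B.seg β (d.b β) := by
      refine (d.hends y).1 ⟨z, ?_⟩
      rw [Sym2.eq_swap]
      exact hy
    have hFzy : ¬ F.Reachable z y := d.hdiff z y hy
    have hadj : d.graph.Adj z y := by
      unfold SwitchData.graph
      rw [sup_adj]
      right
      rw [fromEdgeSet_adj]
      refine ⟨hy, ?_⟩
      rintro rfl
      exact hFzy (Reachable.refl _)
    obtain ⟨T, hT, hTr⟩ := switch_arc d hF hrs hz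
    obtain ⟨T', hT', hTr'⟩ := switch_arc d hF hrs hyz
    have hdisj : Disjoint T T' := by
      rw [Finset.disjoint_left]
      intro w hw hw'
      exact hFzy ((hTr w hw).2.trans (hTr' w hw').2.symm)
    have hsub : ((T ∪ T' : Finset V) : Set V) ⊆ {w | d.graph.Reachable x w} := by
      intro w hw
      rw [Finset.mem_coe, Finset.mem_union] at hw
      rcases hw with hw | hw
      · exact hxz.trans (hTr w hw).1
      · exact (hxz.trans hadj.reachable).trans (hTr' w hw).1
    have hcard := Set.ncard_le_ncard hsub (Set.toFinite _)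
    rw [Set.ncard_coe_finset, Finset.card_union_of_disjoint hdisj, hT, hT'] at hcard
    unfold csz
    omega
  · left
    have hok : ∀ y, d.graph.Reachable x y →
        ∀ β ∈ d.U, ∀ i, d.a β ≤ i → i ≤ d.b β → y ≠ B.seg β i := by
      intro y hy β hβ i hi1 hi2 he
      have hsupp : y ∈ d.graph.support := by
        obtain ⟨w⟩ := hy
        rcases Nat.eq_zero_or_pos w.length with h | h
        · have := Walk.eq_of_length_eq_zero h
          rw [← this]
          exact hx
        · have h1 : ¬ w.reverse.Nil := by
            rw [← Walk.length_eq_zero_iff, Walk.length_reverse]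
            omega
          exact ⟨_, Walk.adj_snd h1⟩
      rw [switch_support d hF hM hrs] at hsupp
      rcases eq_or_lt_of_le hi1 with h | h
      · exact hcase ⟨y, ⟨β, hβ, Or.inl (by rw [h]; exact he)⟩, hy⟩
      · rcases eq_or_lt_of_le hi2 with h' | h'
        · exact hcase ⟨y, ⟨β, hβ, Or.inr (by rw [← h']; exact he)⟩, hy⟩
        · exact hsupp.2 ⟨β, hβ, i, h, h', he⟩
    have hiff : ∀ y, F.Reachable x y ↔ d.graph.Reachable x y := by
      intro y
      rw [reachable_iff_reflTransGen, reachable_iff_reflTransGen]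
      constructor
      · intro h
        induction h with
        | refl => exact Relation.ReflTransGen.refl
        | tail _ hab ih =>
          refine ih.tail ?_
          rw [switch_nbr_other d hrs (hok _ ?_)]
          · exact hab
          · rw [reachable_iff_reflTransGen]
            exact ih
      · intro h
        induction h with
        | refl => exact Relation.ReflTransGen.refl
        | tail hbb hab ih =>
          refine ih.tail ?_
          rw [← switch_nbr_other d hrs (hok _ ?_)]
          · exact hab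
          · rw [reachable_iff_reflTransGen]
            exact hbb
    refine ⟨?_, ?_⟩
    · unfold csz
      congr 1
      ext w
      exact (hiff w).symm
    · intro β hβ hr
      obtain ⟨hU1, hU2, hU3⟩ := d.hab β hβ
      have h1 : ∀ k : ℕ, F.Reachable x (B.seg β k) := by
        intro k
        induction k with
        | zero => exact hr
        | succ k ih =>
          have h2 := B.adj β k
          have h3 : ((k + 1 : ℕ) : ℤ) = (k : ℤ) + 1 := by push_cast; ring
          rw [h3]
          exact ih.trans h2.reachable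
      have h2 := h1 (d.a β).toNat
      rw [Int.toNat_of_nonneg hU1] at h2
      exact hcase ⟨_, ⟨β, hβ, Or.inl rfl⟩, (hiff _).1 h2⟩

end Pool.Agent.H40.CK
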