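import Mathlib

/-!
# CK / A4: a nonempty set of edges meeting every block in 0 or exactly 2 edges

`T e` is the pair of blocks met by the edge `e`.  For `S ⊆ E` let `t(S) = ⋃_{e ∈ S} T e`.
Choose a nonempty `S ⊆ E` with `#t(S) ≤ #S`, of minimal cardinality (`E` is a candidate).
* If some `β ∈ t(S)` lies in `T e` for exactly one `e ∈ S`, then `S \ {e}` has
  `#t(S \ {e}) ≤ #t(S) - 1 ≤ #S - 1`; it is nonempty, as `#S = 1` would give `#t(S) = 2 > 1`.
  This contradicts minimality.  So every `β ∈ t(S)` lies in at least two `T e`.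
* If `#t(S) < #S`, remove any `e`: `#t(S \ {e}) ≤ #t(S) ≤ #S - 1`, and `S \ {e}` is nonempty because
  `#S > #t(S) ≥ 2`.  Contradiction.  So `#t(S) = #S`.
* Double counting: `∑_{β ∈ t(S)} #{e ∈ S | β ∈ T e} = 2 #S = 2 #t(S)`, all terms are `≥ 2`, hence
  all are `= 2`.
-/

namespace Pool.Agent.H40.CK

theorem two_regular {ε ι : Type*} [DecidableEq ε] [DecidableEq ι] (T : ε → Finset ι)
    (E : Finset ε) (B : Finset ι) (hT : ∀ e ∈ E, (T e).card = 2 ∧ T e ⊆ B)
    (hcard : B.card ≤ E.card) (hne : E.Nonempty) :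
    ∃ S ⊆ E, S.Nonempty ∧ ∀ β, (S.filter (fun e => β ∈ T e)).card = 0 ∨
      (S.filter (fun e => β ∈ T e)).card = 2 := by
  classical
  let t : Finset ε → Finset ι := fun S => S.biUnion T
  let cand : Finset (Finset ε) := E.powerset.filter (fun S => S.Nonempty ∧ (t S).card ≤ S.card)
  have hcand : ∀ S : Finset ε, S ∈ cand ↔ S ⊆ E ∧ S.Nonempty ∧ (t S).card ≤ S.card := by
    intro S
    simp only [cand, Finset.mem_filter, Finset.mem_powerset]
  have hE : E ∈ cand := by
    rw [hcand]
    refine ⟨subset_rfl, hne, le_trans (Finset.card_le_card ?_) hcard⟩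
    intro β hβ
    simp only [t, Finset.mem_biUnion] at hβ
    obtain ⟨e, he, hb⟩ := hβ
    exact (hT e he).2 hb
  obtain ⟨S, hS, hmin⟩ := Finset.exists_min_image cand Finset.card ⟨E, hE⟩
  obtain ⟨hSE, hSne, hSt⟩ := (hcand S).mp hS
  have hsub : ∀ e ∈ S, T e ⊆ t S := fun e he β hβ => Finset.mem_biUnion.mpr ⟨e, he, hβ⟩
  have htwo : 2 ≤ (t S).card := by
    obtain ⟨e, he⟩ := hSne
    rw [← (hT e (hSE he)).1]
    exact Finset.card_le_card (hsub e he)
  have hmono : ∀ e : ε, t (S.erase e) ⊆ t S := fun e =>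
    Finset.biUnion_subset_biUnion_of_subset_left T (Finset.erase_subset e S)
  have key : ∀ e ∈ S, (S.erase e).card < (t (S.erase e)).card ∨ ¬ (S.erase e).Nonempty := by
    intro e he
    by_contra hcon
    rw [not_or, not_lt, not_not] at hcon
    have h1 : S.erase e ∈ cand :=
      (hcand _).mpr ⟨(Finset.erase_subset e S).trans hSE, hcon.2, hcon.1⟩
    exact absurd (hmin _ h1) (not_le.mpr (Finset.card_erase_lt_of_mem he))
  have hScard : 2 ≤ S.card := le_trans htwo hSt
  have hnonempty : ∀ e ∈ S, (S.erase e).Nonempty := by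
    intro e he
    rw [← Finset.card_pos, Finset.card_erase_of_mem he]
    omega
  have key' : ∀ e ∈ S, S.card ≤ (t (S.erase e)).card := by
    intro e he
    rcases key e he with h | h
    · rw [Finset.card_erase_of_mem he] at h
      omega
    · exact absurd (hnonempty e he) h
  have h1 : ∀ β ∈ t S, 2 ≤ (S.filter (fun e => β ∈ T e)).card := by
    intro β hβ
    by_contra hlt
    have hpos : 0 < (S.filter (fun e => β ∈ T e)).card := by
      rw [Finset.card_pos]
      obtain ⟨e, he, hb⟩ := Finset.mem_biUnion.mp hβ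
      exact ⟨e, Finset.mem_filter.mpr ⟨he, hb⟩⟩
    have hone : (S.filter (fun e => β ∈ T e)).card = 1 := by omega
    obtain ⟨e, he⟩ := Finset.card_eq_one.mp hone
    have heS : e ∈ S := by
      have : e ∈ S.filter (fun e => β ∈ T e) := by
        rw [he]
        exact Finset.mem_singleton_self e
      exact (Finset.mem_filter.mp this).1
    have hnot : β ∉ t (S.erase e) := by
      intro hmem
      obtain ⟨e', he', hb'⟩ := Finset.mem_biUnion.mp hmem
      have h2 : e' ∈ S.filter (fun e => β ∈ T e) :=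
        Finset.mem_filter.mpr ⟨Finset.mem_of_mem_erase he', hb'⟩
      rw [he, Finset.mem_singleton] at h2
      exact (Finset.ne_of_mem_erase he') h2
    have hlt2 : (t (S.erase e)).card < (t S).card :=
      Finset.card_lt_card ⟨hmono e, fun hcon => hnot (hcon hβ)⟩
    have := key' e heS
    omega
  have h2 : (t S).card = S.card := by
    obtain ⟨e, he⟩ := hSne
    have h3 := key' e he
    have h4 := Finset.card_le_card (hmono e)
    omega
  have hsum : ∑ β ∈ t S, (S.filter (fun e => β ∈ T e)).card = ∑ _β ∈ t S, 2 := by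
    calc ∑ β ∈ t S, (S.filter (fun e => β ∈ T e)).card
        = ∑ β ∈ t S, ∑ e ∈ S, if β ∈ T e then 1 else 0 := by
          refine Finset.sum_congr rfl fun β _ => ?_
          rw [Finset.card_filter]
      _ = ∑ e ∈ S, ∑ β ∈ t S, if β ∈ T e then 1 else 0 := Finset.sum_comm
      _ = ∑ e ∈ S, 2 := by
          refine Finset.sum_congr rfl fun e he => ?_
          rw [← Finset.card_filter, ← (hT e (hSE he)).1]
          congr 1
          ext β
          rw [Finset.mem_filter]
          exact ⟨fun h => h.2, fun h => ⟨hsub e he h, h⟩⟩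
      _ = ∑ _β ∈ t S, 2 := by
          rw [Finset.sum_const, Finset.sum_const, h2]
  refine ⟨S, hSE, hSne, fun β => ?_⟩
  by_cases hβ : β ∈ t S
  · right
    exact ((Finset.sum_eq_sum_iff_of_le (fun β hβ => h1 β hβ)).mp hsum.symm β hβ).symm
  · left
    rw [Finset.card_eq_zero, Finset.filter_eq_empty_iff]
    intro e he hb
    exact hβ (hsub e he hb)

end Pool.Agent.H40.CK
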