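import Mathlib

/-!
# CK / A5: averaging over a product

Sum over all `ρ : ∀ k, Ω k`.  For `e ∈ U` the set of `ρ` with `ρ (k₁ e) ∈ A₁ e` and
`ρ (k₂ e) ∈ A₂ e` is a product set (`Fintype.piFinset` with the full factor at all other
coordinates; `k₁ e ≠ k₂ e`), so its cardinality is
`|A₁| |A₂| ∏_{k ≠ k₁, k₂} |Ω k| ≥ c² ∏ |Ω k|`.  Exchange the sums and pick the best `ρ`.
-/

namespace Pool.Agent.H40.CK

theorem avg_prod {K : Type*} [Fintype K] [DecidableEq K] {Ω : K → Type*} [∀ k, Fintype (Ω k)]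
    [∀ k, Nonempty (Ω k)] {E : Type*} (U : Finset E) (k₁ k₂ : E → K)
    (hne : ∀ e ∈ U, k₁ e ≠ k₂ e) (A₁ : ∀ e, Set (Ω (k₁ e))) (A₂ : ∀ e, Set (Ω (k₂ e)))
    (c : ℝ) (hc : 0 ≤ c)
    (h₁ : ∀ e ∈ U, c * (Fintype.card (Ω (k₁ e)) : ℝ) ≤ ((A₁ e).ncard : ℝ))
    (h₂ : ∀ e ∈ U, c * (Fintype.card (Ω (k₂ e)) : ℝ) ≤ ((A₂ e).ncard : ℝ)) :
    ∃ ρ : ∀ k, Ω k, c ^ 2 * (U.card : ℝ) ≤
      (({e | e ∈ U ∧ ρ (k₁ e) ∈ A₁ e ∧ ρ (k₂ e) ∈ A₂ e} : Set E).ncard : ℝ) := by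
  classical
  have key : ∀ e ∈ U, c ^ 2 * (Fintype.card (∀ k, Ω k) : ℝ) ≤
      ((Finset.univ.filter fun ρ : ∀ k, Ω k => ρ (k₁ e) ∈ A₁ e ∧ ρ (k₂ e) ∈ A₂ e).card : ℝ) := by
    intro e he
    have hk := hne e he
    set B : ∀ k, Finset (Ω k) := Function.update
      (Function.update (fun _ => Finset.univ) (k₁ e) (A₁ e).toFinset) (k₂ e) (A₂ e).toFinset
      with hB
    have hB1 : B (k₁ e) = (A₁ e).toFinset := by
      rw [hB, Function.update_of_ne hk, Function.update_self]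
    have hB2 : B (k₂ e) = (A₂ e).toFinset := by
      rw [hB, Function.update_self]
    have hB3 : ∀ k, k ≠ k₁ e → k ≠ k₂ e → B k = Finset.univ := by
      intro k h1 h2
      rw [hB, Function.update_of_ne h2, Function.update_of_ne h1]
    have hsub : Fintype.piFinset B ⊆
        Finset.univ.filter fun ρ : ∀ k, Ω k => ρ (k₁ e) ∈ A₁ e ∧ ρ (k₂ e) ∈ A₂ e := by
      intro ρ hρ
      rw [Fintype.mem_piFinset] at hρ
      have h1 := hρ (k₁ e)
      have h2 := hρ (k₂ e)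
      rw [hB1] at h1
      rw [hB2] at h2
      simpa using And.intro h1 h2
    refine le_trans ?_ (Nat.cast_le.2 (Finset.card_le_card hsub))
    rw [Fintype.card_piFinset, Fintype.card_pi, Nat.cast_prod, Nat.cast_prod]
    have hf : ∏ k, (if k ∈ ({k₁ e, k₂ e} : Finset K) then c else 1) = c ^ 2 := by
      rw [Finset.prod_ite_mem, Finset.univ_inter, Finset.prod_const, Finset.card_pair hk]
    rw [← hf, ← Finset.prod_mul_distrib]
    refine Finset.prod_le_prod (fun k _ => ?_) fun k _ => ?_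
    · split_ifs <;> positivity
    · by_cases h1 : k = k₁ e
      · subst h1
        rw [hB1, if_pos (by simp), ← Set.ncard_eq_toFinset_card']
        exact h₁ e he
      · by_cases h2 : k = k₂ e
        · subst h2
          rw [hB2, if_pos (by simp), ← Set.ncard_eq_toFinset_card']
          exact h₂ e he
        · rw [hB3 k h1 h2, if_neg (by simp [h1, h2]), one_mul, Finset.card_univ]
  have hsum : ∑ _ρ : (∀ k, Ω k), c ^ 2 * (U.card : ℝ) ≤
      ∑ ρ : (∀ k, Ω k), ((U.filter fun e => ρ (k₁ e) ∈ A₁ e ∧ ρ (k₂ e) ∈ A₂ e).card : ℝ) := by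
    have hex : ∑ ρ : (∀ k, Ω k), (U.filter fun e => ρ (k₁ e) ∈ A₁ e ∧ ρ (k₂ e) ∈ A₂ e).card =
        ∑ e ∈ U, (Finset.univ.filter fun ρ : ∀ k, Ω k =>
          ρ (k₁ e) ∈ A₁ e ∧ ρ (k₂ e) ∈ A₂ e).card := by
      simp only [Finset.card_filter]
      rw [Finset.sum_comm]
    rw [← Nat.cast_sum, hex, Nat.cast_sum]
    calc ∑ _ρ : (∀ k, Ω k), c ^ 2 * (U.card : ℝ)
        = ∑ _e ∈ U, c ^ 2 * (Fintype.card (∀ k, Ω k) : ℝ) := by
          simp only [Finset.sum_const, nsmul_eq_mul, Finset.card_univ]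
          ring
      _ ≤ _ := Finset.sum_le_sum key
  obtain ⟨ρ, _, hρ⟩ := Finset.exists_le_of_sum_le Finset.univ_nonempty hsum
  refine ⟨ρ, hρ.trans_eq ?_⟩
  rw [← Set.ncard_coe_finset]
  congr 2
  ext e
  simp

end Pool.Agent.H40.CK
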