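import Mathlib

/-!
# CK / A6a: blocks on one cycle (arithmetic)

A cycle with `L ≥ s` vertices (positions are integers mod `L`) carries `q = max 1 (L / (2 s))`
blocks; block `j < q` occupies the positions `ρ + 2 s j + i`, `0 ≤ i < r`.

* `nblk_mul_le`: `q s ≤ L`.
* `blk_sep`: if `q = 1` then `j = j' = 0` and `|i - i'| < s ≤ L`, so `L ∣ i - i'` forces `i = i'`.
  Otherwise `2 s q ≤ L`; if `j ≠ j'` then `0 < 2s - (s-1) ≤ |2s(j-j') + (i-i')| ≤ 2s(q-1) + s - 1 < L`,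
  so `L` cannot divide; if `j = j'` argue as before.  (Here `|i - i'| ≤ s - 1` because
  `i ∈ [-(s-r), s)` and `i' ∈ [0, r)`.)
* `blk_count`: for a fixed position `m` the `q r` rotations `ρ = m - 2 s j - i` (mod `L`),
  `j < q`, `0 ≤ i < r`, are distinct by `blk_sep` and all count; and `q r ≥ r L / (4 s)`
  (`L < 2s`: `q = 1` and `L ≤ 4 s`;  `L ≥ 2 s`: `L / (2s)` rounded down is `≥ L / (4s)`).
* `nblk_short`: if `2 L < 3 s` then `q = 1`.
-/

namespace Pool.Agent.H40.CK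

/-- Number of blocks on a cycle with `L` vertices. -/
def nblk (L s : ℕ) : ℕ := max 1 (L / (2 * s))

theorem nblk_short {L s : ℕ} (h : 2 * L < 3 * s) : nblk L s = 1 := by
  unfold nblk
  have h1 : L / (2 * s) = 0 := Nat.div_eq_of_lt (by omega)
  rw [h1]
  rfl

theorem nblk_one_le (L s : ℕ) : 1 ≤ nblk L s := le_max_left _ _

theorem nblk_cases (L s : ℕ) : nblk L s = 1 ∨ 2 * s * nblk L s ≤ L := by
  unfold nblk
  rcases le_total (L / (2 * s)) 1 with h | h
  · left; exact max_eq_left h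
  · right
    rw [max_eq_right h]
    exact Nat.mul_div_le L (2 * s)

theorem nblk_mul_le {L s : ℕ} (hL : s ≤ L) : nblk L s * s ≤ L := by
  rcases nblk_cases L s with h | h
  · rw [h]; omega
  · nlinarith

theorem blk_sep {L s r : ℕ} (hr : 1 ≤ r) (hrs : 4 * r ≤ s) (hL : s ≤ L) {j j' : ℕ}
    (hj : j < nblk L s) (hj' : j' < nblk L s) {i i' : ℤ} (hi : -((s : ℤ) - r) ≤ i) (hi2 : i < s)
    (hi' : 0 ≤ i') (hi2' : i' < r)
    (hdvd : (L : ℤ) ∣ (2 * s * j' + i') - (2 * s * j + i)) : j = j' ∧ i = i' := by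
  have hsL : (s : ℤ) ≤ L := by exact_mod_cast hL
  rcases nblk_cases L s with h | h
  · rw [h] at hj hj'
    have h1 : j = 0 := by omega
    have h2 : j' = 0 := by omega
    subst h1 h2
    refine ⟨rfl, ?_⟩
    have h3 : (L : ℤ) ∣ i' - i := by simpa using hdvd
    have h4 := Int.eq_zero_of_abs_lt_dvd h3 (by rw [abs_lt]; constructor <;> linarith)
    linarith
  · have hq : 2 * (s : ℤ) * (nblk L s : ℤ) ≤ L := by exact_mod_cast h
    have hs0 : 0 < (s : ℤ) := by have : 0 < s := by omega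
                                 exact_mod_cast this
    have hjq : (j : ℤ) ≤ (nblk L s : ℤ) - 1 := by
      have : (j : ℤ) < nblk L s := by exact_mod_cast hj
      linarith
    have hjq' : (j' : ℤ) ≤ (nblk L s : ℤ) - 1 := by
      have : (j' : ℤ) < nblk L s := by exact_mod_cast hj'
      linarith
    have hj0 : (0 : ℤ) ≤ j := by positivity
    have hj0' : (0 : ℤ) ≤ j' := by positivity
    have e1 : 2 * (s : ℤ) * j ≤ 2 * s * ((nblk L s : ℤ) - 1) :=
      mul_le_mul_of_nonneg_left hjq (by positivity)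
    have e2 : 2 * (s : ℤ) * j' ≤ 2 * s * ((nblk L s : ℤ) - 1) :=
      mul_le_mul_of_nonneg_left hjq' (by positivity)
    have e3 : 0 ≤ 2 * (s : ℤ) * j := by positivity
    have e4 : 0 ≤ 2 * (s : ℤ) * j' := by positivity
    have e5 : 2 * (s : ℤ) * ((nblk L s : ℤ) - 1) = 2 * s * (nblk L s : ℤ) - 2 * s := by ring
    have h4 := Int.eq_zero_of_abs_lt_dvd hdvd (by rw [abs_lt]; constructor <;> linarith)
    have h5 : 2 * (s : ℤ) * (j' - j) = i - i' := by linarith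
    have h6 : (j' : ℤ) - j = 0 := by
      by_contra hne
      rcases lt_or_gt_of_ne hne with h7 | h7
      · have h8 : (j' : ℤ) - j ≤ -1 := by omega
        have h9 : 2 * (s : ℤ) * (j' - j) ≤ 2 * s * (-1) :=
          mul_le_mul_of_nonneg_left h8 (by positivity)
        linarith
      · have h8 : 1 ≤ (j' : ℤ) - j := by omega
        have h9 : 2 * (s : ℤ) * 1 ≤ 2 * s * (j' - j) :=
          mul_le_mul_of_nonneg_left h8 (by positivity)
        linarith
    refine ⟨by omega, ?_⟩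
    rw [h6] at h5
    linarith

theorem blk_count {L s r : ℕ} (hr : 1 ≤ r) (hrs : 4 * r ≤ s) (hL : s ≤ L) (m : ℤ) :
    (r : ℝ) / (4 * s) * (L : ℝ) ≤ (({ρ : Fin L | ∃ j < nblk L s, ∃ i : ℤ, 0 ≤ i ∧ i < r ∧
      (L : ℤ) ∣ m - ((ρ : ℕ) + 2 * s * j + i)} : Set (Fin L)).ncard : ℝ) := by
  classical
  have hs0 : 0 < s := by omega
  have hL0 : 0 < L := by omega
  have hL0' : (0 : ℤ) < L := by exact_mod_cast hL0
  set A : Set (Fin L) := {ρ : Fin L | ∃ j < nblk L s, ∃ i : ℤ, 0 ≤ i ∧ i < r ∧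
      (L : ℤ) ∣ m - ((ρ : ℕ) + 2 * s * j + i)} with hA
  let f : Fin (nblk L s) × Fin r → Fin L := fun p =>
    ⟨((m - (2 * s * (p.1 : ℕ) + (p.2 : ℕ))) % L).toNat, by
      have h1 := Int.emod_lt_of_pos (m - (2 * s * (p.1 : ℕ) + (p.2 : ℕ))) hL0'
      have h2 := Int.emod_nonneg (m - (2 * s * (p.1 : ℕ) + (p.2 : ℕ))) hL0'.ne'
      omega⟩
  have hfval : ∀ p, (((f p : ℕ)) : ℤ) = (m - (2 * s * (p.1 : ℕ) + (p.2 : ℕ))) % L := by
    intro p
    have h2 := Int.emod_nonneg (m - (2 * s * (p.1 : ℕ) + (p.2 : ℕ))) hL0'.ne'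
    exact Int.toNat_of_nonneg h2
  have hfdvd : ∀ p, (L : ℤ) ∣ m - ((f p : ℕ) + 2 * s * (p.1 : ℕ) + (p.2 : ℕ)) := by
    intro p
    have h3 := Int.dvd_self_sub_emod (m := (L : ℤ)) (x := m - (2 * s * (p.1 : ℕ) + (p.2 : ℕ)))
    rw [← hfval p] at h3
    have : m - ((f p : ℕ) + 2 * s * (p.1 : ℕ) + (p.2 : ℕ)) =
      m - (2 * s * (p.1 : ℕ) + (p.2 : ℕ)) - ((f p : ℕ) : ℤ) := by ring
    rw [this]
    exact h3
  have hfA : ∀ p, f p ∈ A := by
    intro p
    refine ⟨p.1, p.1.2, (p.2 : ℕ), by positivity, by exact_mod_cast p.2.2, hfdvd p⟩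
  have hinj : Function.Injective f := by
    intro p p' hpp
    have h1 := hfdvd p
    have h2 := hfdvd p'
    rw [← hpp] at h2
    have h3 := dvd_sub h1 h2
    have h4 : (L : ℤ) ∣ (2 * s * (p'.1 : ℕ) + ((p'.2 : ℕ) : ℤ)) -
        (2 * s * (p.1 : ℕ) + ((p.2 : ℕ) : ℤ)) := by
      have : (2 * s * (p'.1 : ℕ) + ((p'.2 : ℕ) : ℤ)) - (2 * s * (p.1 : ℕ) + ((p.2 : ℕ) : ℤ)) =
        m - ((f p : ℕ) + 2 * s * (p.1 : ℕ) + (p.2 : ℕ)) -
        (m - ((f p : ℕ) + 2 * s * (p'.1 : ℕ) + (p'.2 : ℕ))) := by ring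
      rw [this]
      exact h3
    have hp2 : ((p.2 : ℕ) : ℤ) < r := by exact_mod_cast p.2.2
    have hp2' : ((p'.2 : ℕ) : ℤ) < r := by exact_mod_cast p'.2.2
    have hrs' : (4 : ℤ) * r ≤ s := by exact_mod_cast hrs
    have hr' : (1 : ℤ) ≤ r := by exact_mod_cast hr
    have hp20 : (0 : ℤ) ≤ ((p.2 : ℕ) : ℤ) := by positivity
    obtain ⟨h5, h6⟩ := blk_sep hr hrs hL p.1.2 p'.1.2 (i := ((p.2 : ℕ) : ℤ))
      (i' := ((p'.2 : ℕ) : ℤ)) (by linarith) (by linarith) (by positivity) hp2' h4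
    have h7 : (p.2 : ℕ) = p'.2 := by exact_mod_cast h6
    exact Prod.ext (Fin.ext h5) (Fin.ext h7)
  have hcard : nblk L s * r ≤ A.ncard := by
    have h1 : (Set.range f).ncard = nblk L s * r := by
      rw [← Set.image_univ, Set.ncard_image_of_injective _ hinj, Set.ncard_univ,
        Nat.card_prod, Nat.card_fin, Nat.card_fin]
    rw [← h1]
    exact Set.ncard_le_ncard (by rintro _ ⟨p, rfl⟩; exact hfA p) (Set.toFinite _)
  have hLq : L ≤ nblk L s * (4 * s) := by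
    by_cases h : L < 2 * s
    · have := nblk_one_le L s
      nlinarith
    · have h1 : L / (2 * s) ≤ nblk L s := le_max_right _ _
      have h2 : L < 2 * s * (L / (2 * s) + 1) := Nat.lt_mul_div_succ L (by omega)
      have h3 : 1 ≤ L / (2 * s) := (Nat.one_le_div_iff (by omega)).2 (by omega)
      nlinarith
  have h1 : (L : ℝ) ≤ nblk L s * (4 * s) := by exact_mod_cast hLq
  have h2 : (nblk L s : ℝ) * r ≤ A.ncard := by exact_mod_cast hcard
  have hs0' : (0 : ℝ) < s := by exact_mod_cast hs0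
  refine le_trans ?_ h2
  rw [div_mul_eq_mul_div, div_le_iff₀ (by positivity)]
  have hr0 : (0 : ℝ) ≤ r := by positivity
  calc (r : ℝ) * L ≤ r * (nblk L s * (4 * s)) := mul_le_mul_of_nonneg_left h1 hr0
    _ = (nblk L s : ℝ) * r * (4 * s) := by ring

end Pool.Agent.H40.CK
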