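import Pool.Agent.H40.CK.A2
import Pool.Agent.H40.CK.A5
import Pool.Agent.H40.CK.A6a

/-!
# CK / A6b: a good block system
-/

namespace Pool.Agent.H40.CK

open SimpleGraph

variable {V : Type*}

/-- The components of `F` which contain a vertex of the support. -/
def SComp (F : SimpleGraph V) : Type _ :=
  {κ : F.ConnectedComponent // ∃ v ∈ F.support, F.connectedComponentMk v = κ}

noncomputable instance instFintypeSComp [Finite V] (F : SimpleGraph V) : Fintype (SComp F) := by
  have : Finite (SComp F) := by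
    unfold SComp
    have : Finite F.ConnectedComponent := Quot.finite _
    infer_instance
  exact Fintype.ofFinite _

/-- A representative vertex of a component. -/
noncomputable def SComp.rep {F : SimpleGraph V} (κ : SComp F) : V := κ.2.choose

theorem SComp.rep_mem {F : SimpleGraph V} (κ : SComp F) : κ.rep ∈ F.support := κ.2.choose_spec.1

theorem SComp.rep_comp {F : SimpleGraph V} (κ : SComp F) :
    F.connectedComponentMk κ.rep = κ.1 := κ.2.choose_spec.2

/-- The component of a vertex of the support. -/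
def SComp.mk {F : SimpleGraph V} (x : V) (hx : x ∈ F.support) : SComp F :=
  ⟨F.connectedComponentMk x, x, hx, rfl⟩

theorem SComp.rep_reachable {F : SimpleGraph V} (x : V) (hx : x ∈ F.support) :
    F.Reachable (SComp.mk x hx).rep x := by
  have h := (SComp.mk x hx).rep_comp
  exact SimpleGraph.ConnectedComponent.exact h

theorem SComp.eq_of_reachable {F : SimpleGraph V} {κ κ' : SComp F} {x : V}
    (h : F.Reachable κ.rep x) (h' : F.Reachable κ'.rep x) : κ = κ' := by
  apply Subtype.ext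
  rw [← κ.rep_comp, ← κ'.rep_comp]
  exact SimpleGraph.ConnectedComponent.sound (h.trans h'.symm)

theorem mem_support_of_reachable {F : SimpleGraph V} {v w : V} (hv : v ∈ F.support)
    (h : F.Reachable v w) : w ∈ F.support := by
  by_cases hvw : v = w
  · exact hvw ▸ hv
  · obtain ⟨p⟩ := h
    have hp : ¬ p.Nil := fun hn => hvw hn.eq
    exact ⟨_, (p.adj_penultimate hp).symm⟩

theorem csz_eq_of_reachable {F : SimpleGraph V} {v w : V} (h : F.Reachable v w) :
    csz F v = csz F w := by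
  unfold csz
  congr 1
  ext x
  exact ⟨fun hx => h.symm.trans hx, fun hx => h.trans hx⟩

theorem sum_csz_le [Finite V] (F : SimpleGraph V) :
    ∑ κ : SComp F, csz F κ.rep ≤ F.support.ncard := by
  classical
  have := Fintype.ofFinite V
  have h1 : ∀ κ : SComp F, csz F κ.rep = Fintype.card {w // F.Reachable κ.rep w} := by
    intro κ
    unfold csz
    rw [← Nat.card_coe_set_eq, Nat.card_eq_fintype_card]
    rfl
  have h2 : F.support.ncard = Fintype.card {w // w ∈ F.support} := by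
    rw [← Nat.card_coe_set_eq, Nat.card_eq_fintype_card]
  rw [h2, Finset.sum_congr rfl (fun κ _ => h1 κ), ← Fintype.card_sigma]
  refine Fintype.card_le_of_injective
    (fun p : (Σ κ : SComp F, {w // F.Reachable κ.rep w}) =>
      (⟨p.2.1, mem_support_of_reachable p.1.rep_mem p.2.2⟩ : {w // w ∈ F.support})) ?_
  rintro ⟨κ, w, hw⟩ ⟨κ', w', hw'⟩ h
  simp only [Subtype.mk.injEq] at h
  subst h
  have hκ : κ = κ' := SComp.eq_of_reachable hw hw'
  subst hκ
  rfl

theorem exists_blocks [Finite V] {F : SimpleGraph V} (hF : F.IsCycles) {s r : ℕ} (hr : 1 ≤ r)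
    (hrs : 4 * r ≤ s) (hlong : Long F s) (U : Set V) (mate : V → V)
    (hU : ∀ x ∈ U, x ∈ F.support ∧ mate x ∈ F.support ∧ ¬ F.Reachable x (mate x)) :
    ∃ (n : ℕ) (B : Blocks F s r (Fin n)), n * s ≤ F.support.ncard ∧
      ((r : ℝ) / (4 * s)) ^ 2 * (U.ncard : ℝ) ≤
        (({x | x ∈ U ∧ (∃ β, ∃ i : ℤ, 0 ≤ i ∧ i < r ∧ B.seg β i = x) ∧
          (∃ β, ∃ i : ℤ, 0 ≤ i ∧ i < r ∧ B.seg β i = mate x)} : Set V).ncard : ℝ) := by
  classical
  have := Fintype.ofFinite V
  -- the lengths
  have hLs : ∀ κ : SComp F, s ≤ csz F κ.rep := fun κ => hlong _ κ.rep_mem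
  have hs : 1 ≤ s := by omega
  -- the cyclic parametrisations
  choose c hc hc0 hcr hcn using fun κ : SComp F => (exists_cycSeq hF κ.rep_mem).2
  have hne : ∀ κ : SComp F, Nonempty (Fin (csz F κ.rep)) := fun κ =>
    ⟨⟨0, by have := hLs κ; omega⟩⟩
  -- positions
  have hpos : ∀ x (hx : x ∈ F.support), ∃ m : ℤ, c (SComp.mk x hx) m = x := fun x hx =>
    (hcr _ x).1 (SComp.rep_reachable x hx)
  choose pos hpos using hpos
  -- the bad sets
  let A : ∀ x (hx : x ∈ F.support), Set (Fin (csz F (SComp.mk x hx).rep)) := fun x hx =>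
    {ρ | ∃ j < nblk (csz F (SComp.mk x hx).rep) s, ∃ i : ℤ, 0 ≤ i ∧ i < r ∧
      ((csz F (SComp.mk x hx).rep : ℕ) : ℤ) ∣ pos x hx - ((ρ : ℕ) + 2 * s * j + i)}
  have hA : ∀ x (hx : x ∈ F.support),
      (r : ℝ) / (4 * s) * (Fintype.card (Fin (csz F (SComp.mk x hx).rep)) : ℝ) ≤
        ((A x hx).ncard : ℝ) := by
    intro x hx
    rw [Fintype.card_fin]
    exact blk_count hr hrs (hLs _) (pos x hx)
  obtain ⟨ρ, hρ⟩ := avg_prod (K := SComp F) (Ω := fun κ => Fin (csz F κ.rep))
    (E := {x // x ∈ U}) Finset.univ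
    (fun e => SComp.mk e.1 (hU e.1 e.2).1) (fun e => SComp.mk (mate e.1) (hU e.1 e.2).2.1)
    (by
      intro e _ heq
      apply (hU e.1 e.2).2.2
      have h := congrArg Subtype.val heq
      exact SimpleGraph.ConnectedComponent.exact h)
    (fun e => A e.1 (hU e.1 e.2).1) (fun e => A (mate e.1) (hU e.1 e.2).2.1)
    ((r : ℝ) / (4 * s)) (by positivity)
    (fun e _ => hA e.1 (hU e.1 e.2).1) (fun e _ => hA (mate e.1) (hU e.1 e.2).2.1)
  -- the index type
  let I := Σ κ : SComp F, Fin (nblk (csz F κ.rep) s)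
  let e : I ≃ Fin (Fintype.card I) := Fintype.equivFin I
  let sg : I → ℤ → V := fun β i => c β.1 ((ρ β.1 : ℕ) + 2 * s * (β.2 : ℕ) + i)
  have hreach : ∀ (β : I) (i : ℤ), F.Reachable β.1.rep (sg β i) := fun β i =>
    (hcr β.1 _).2 ⟨_, rfl⟩
  have hsep : ∀ (β β' : I) (i j : ℤ), -((s : ℤ) - r) ≤ i → i < s → 0 ≤ j → j < r →
      sg β i = sg β' j → β = β' ∧ i = j := by
    rintro ⟨κ, a⟩ ⟨κ', a'⟩ i j hi1 hi2 hj1 hj2 h
    have hκ : κ = κ' := by
      refine SComp.eq_of_reachable (hreach ⟨κ, a⟩ i) ?_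
      rw [h]
      exact hreach ⟨κ', a'⟩ j
    subst hκ
    have h1 := ((hc κ).eq_iff _ _).1 h
    have h2 : (((csz F κ.rep : ℕ)) : ℤ) ∣ (2 * s * (a' : ℕ) + j) - (2 * s * (a : ℕ) + i) := by
      have : (((ρ κ : ℕ) : ℤ) + 2 * s * (a' : ℕ) + j) -
          (((ρ κ : ℕ) : ℤ) + 2 * s * (a : ℕ) + i) =
          (2 * s * (a' : ℕ) + j) - (2 * s * (a : ℕ) + i) := by ring
      rw [← this]
      exact h1
    obtain ⟨h3, h4⟩ := blk_sep hr hrs (hLs κ) a.2 a'.2 hi1 hi2 hj1 hj2 h2
    have h5 : a = a' := Fin.ext h3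
    subst h5
    exact ⟨rfl, h4⟩
  have hinj : ∀ (β : I) (i j : ℤ), i ≤ j → j < i + s → sg β i = sg β j → i = j := by
    rintro ⟨κ, a⟩ i j hij hjs h
    have h' := ((hc κ).eq_iff _ _).1 h
    have h1 : (((csz F κ.rep : ℕ)) : ℤ) ∣ j - i := by
      have : (((ρ κ : ℕ) : ℤ) + 2 * s * (a : ℕ) + j) -
          (((ρ κ : ℕ) : ℤ) + 2 * s * (a : ℕ) + i) = j - i := by ring
      rw [← this]
      exact h'
    have h2 := hLs κ
    by_contra hne'
    have h3 : 0 < j - i := by omega
    have h4 := Int.le_of_dvd h3 h1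
    omega
  have hshort : ∀ (β β' : I), F.Reachable (sg β 0) (sg β' 0) → 2 * csz F (sg β 0) < 3 * s →
      β = β' := by
    rintro ⟨κ, a⟩ ⟨κ', a'⟩ h1 h2
    have hκ : κ = κ' :=
      SComp.eq_of_reachable ((hreach ⟨κ, a⟩ 0).trans h1) (hreach ⟨κ', a'⟩ 0)
    subst hκ
    rw [← csz_eq_of_reachable (hreach ⟨κ, a⟩ 0)] at h2
    have h4 := nblk_short h2
    have h5 : a = a' := by
      apply Fin.ext
      have h6 := a.2
      have h7 := a'.2
      simp only at h4 h6 h7
      omega
    subst h5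
    rfl
  let B : Blocks F s r (Fin (Fintype.card I)) :=
    { seg := fun β => sg (e.symm β)
      adj := by
        intro β i
        have h := (hc (e.symm β).1).adj (((ρ (e.symm β).1 : ℕ) : ℤ) + 2 * s *
          ((e.symm β).2 : ℕ) + i)
        show F.Adj (c _ _) (c _ _)
        rw [← add_assoc]
        exact h
      nbr := by
        intro β i w h
        have h' := hcn (e.symm β).1 _ w h
        show w = c _ _ ∨ w = c _ _
        rw [← add_assoc, ← add_sub_assoc]
        exact h'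
      inj := by
        intro β i j h1 h2 h3
        have h4 := hinj (e.symm β) (i : ℤ) (j : ℤ) (by exact_mod_cast h1) (by exact_mod_cast h2) h3
        exact_mod_cast h4
      sep := by
        intro β β' i j hi1 hi2 hj1 hj2 h
        obtain ⟨h1, h2⟩ := hsep (e.symm β) (e.symm β') i (j : ℤ) hi1 hi2
          (by exact_mod_cast hj1) (by exact_mod_cast hj2) h
        exact ⟨e.symm.injective h1, h2⟩
      short := by
        intro β β' h1 h2
        exact e.symm.injective (hshort (e.symm β) (e.symm β') h1 h2) }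
  refine ⟨Fintype.card I, B, ?_, ?_⟩
  · have h1 : Fintype.card I = ∑ κ : SComp F, nblk (csz F κ.rep) s := by
      rw [Fintype.card_sigma]
      exact Finset.sum_congr rfl (fun κ _ => Fintype.card_fin _)
    rw [h1, Finset.sum_mul]
    exact (Finset.sum_le_sum (fun κ _ => nblk_mul_le (hLs κ))).trans (sum_csz_le F)
  · have hcount : U.ncard = (Finset.univ : Finset {x // x ∈ U}).card := by
      rw [Finset.card_univ, ← Nat.card_eq_fintype_card, Nat.card_coe_set_eq]
    rw [hcount]
    refine hρ.trans ?_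
    rw [← Set.ncard_image_of_injective _ (Subtype.val_injective (p := fun x => x ∈ U))]
    norm_cast
    apply Set.ncard_le_ncard _ (Set.toFinite _)
    rintro x ⟨⟨y, hy⟩, ⟨-, h1, h2⟩, rfl⟩
    have key : ∀ z (hz : z ∈ F.support), ρ (SComp.mk z hz) ∈ A z hz →
        ∃ β, ∃ i : ℤ, 0 ≤ i ∧ i < r ∧ B.seg β i = z := by
      rintro z hz ⟨j, hj, i, hi1, hi2, hd⟩
      refine ⟨e ⟨SComp.mk z hz, ⟨j, hj⟩⟩, i, hi1, hi2, ?_⟩
      show sg (e.symm (e _)) i = z
      rw [Equiv.symm_apply_apply]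
      show c _ _ = z
      conv_rhs => rw [← hpos z hz]
      exact ((hc _).eq_iff _ _).2 hd
    exact ⟨hy, key y _ h1, key (mate y) _ h2⟩

end Pool.Agent.H40.CK
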