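import Pool.Agent.H40.CK.Defs

/-!
# CK / A7a: dropping components

`P` is closed under `F`-adjacency, so it is a union of components of `F`.  All statements are
routine.  `csz_drop`: for `x ∉ P` the walks of `F` from `x` stay outside `P`, so reachability from
`x` is the same in `F` and in `drop F P`.
-/

namespace Pool.Agent.H40.CK

open SimpleGraph

variable {V : Type*}

theorem drop_le (F : SimpleGraph V) (P : Set V) : drop F P ≤ F := fun _ _ h => h.1

theorem drop_support {F : SimpleGraph V} {P : Set V} (hP : ∀ x y, F.Adj x y → x ∈ P → y ∈ P) :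
    (drop F P).support = F.support \ P := by
  ext x
  rw [Set.mem_sdiff, mem_support, mem_support]
  constructor
  · rintro ⟨y, hy⟩
    exact ⟨⟨y, hy.1⟩, hy.2.1⟩
  · rintro ⟨⟨y, hy⟩, hx⟩
    exact ⟨y, hy, hx, fun hyP => hx (hP y x hy.symm hyP)⟩

theorem drop_neighborSet {F : SimpleGraph V} {P : Set V} (hP : ∀ x y, F.Adj x y → x ∈ P → y ∈ P)
    {x : V} (hx : x ∉ P) : (drop F P).neighborSet x = F.neighborSet x := by
  ext y
  rw [mem_neighborSet, mem_neighborSet]
  exact ⟨fun h => h.1, fun h => ⟨h, hx, fun hyP => hx (hP y x h.symm hyP)⟩⟩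

theorem drop_isCycles {F : SimpleGraph V} (hF : F.IsCycles) {P : Set V}
    (hP : ∀ x y, F.Adj x y → x ∈ P → y ∈ P) : (drop F P).IsCycles := by
  intro v hv
  obtain ⟨w, hw⟩ := hv
  have hw' : (drop F P).Adj v w := hw
  rw [drop_neighborSet hP hw'.2.1]
  exact hF ⟨w, hw'.1⟩

theorem drop_reachable {F : SimpleGraph V} {P : Set V} (hP : ∀ x y, F.Adj x y → x ∈ P → y ∈ P)
    {x : V} (hx : x ∉ P) (w : V) : (drop F P).Reachable x w ↔ F.Reachable x w := by
  constructor
  · intro h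
    exact h.mono (drop_le F P)
  · rintro ⟨p⟩
    induction p with
    | nil => exact Reachable.refl _
    | @cons a b c hab p ih =>
      have hb : b ∉ P := fun hb => hx (hP b a hab.symm hb)
      have h1 : (drop F P).Adj a b := ⟨hab, hx, hb⟩
      exact h1.reachable.trans (ih hb)

theorem csz_drop {F : SimpleGraph V} {P : Set V} (hP : ∀ x y, F.Adj x y → x ∈ P → y ∈ P) {x : V}
    (hx : x ∉ P) : csz (drop F P) x = csz F x := by
  unfold csz
  congr 1
  ext w
  exact drop_reachable hP hx w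

theorem free_drop {F M : SimpleGraph V} {P : Set V} (hP : ∀ x y, F.Adj x y → x ∈ P → y ∈ P) :
    free M (drop F P) = {e | e ∈ free M F ∧ ∀ z ∈ e, z ∉ P} := by
  ext e
  unfold free
  rw [Set.mem_ofPred_eq, Set.mem_ofPred_eq, Set.mem_ofPred_eq, drop_support hP]
  constructor
  · rintro ⟨h1, h2, h3⟩
    refine ⟨⟨h1, fun he => h2 ?_, fun z hz => (h3 z hz).1⟩, fun z hz => (h3 z hz).2⟩
    induction e using Sym2.ind with
    | _ a b =>
      exact ⟨he, (h3 a (Sym2.mem_mk_left a b)).2, (h3 b (Sym2.mem_mk_right a b)).2⟩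
  · rintro ⟨⟨h1, h2, h3⟩, h4⟩
    refine ⟨h1, fun he => h2 ?_, fun z hz => ⟨h3 z hz, h4 z hz⟩⟩
    exact edgeSet_subset_edgeSet.2 (drop_le F P) he

theorem shortV_drop {F : SimpleGraph V} {P : Set V} (hP : ∀ x y, F.Adj x y → x ∈ P → y ∈ P)
    (s : ℕ) : shortV (drop F P) s = shortV F s \ P := by
  ext x
  unfold shortV
  rw [Set.mem_sdiff, Set.mem_ofPred_eq, Set.mem_ofPred_eq, drop_support hP, Set.mem_sdiff]
  constructor
  · rintro ⟨⟨h1, h2⟩, h3⟩
    rw [csz_drop hP h2] at h3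
    exact ⟨⟨h1, h3⟩, h2⟩
  · rintro ⟨⟨h1, h3⟩, h2⟩
    refine ⟨⟨h1, h2⟩, ?_⟩
    rw [csz_drop hP h2]
    exact h3

theorem drop_adm {Gs F : SimpleGraph V} {s : ℕ} (h : Adm Gs F s) {P : Set V}
    (hP : ∀ x y, F.Adj x y → x ∈ P → y ∈ P) : Adm Gs (drop F P) s where
  le := (drop_le F P).trans h.le
  cyc := drop_isCycles h.cyc hP
  long := by
    intro v hv
    rw [drop_support hP] at hv
    rw [csz_drop hP hv.2]
    exact h.long v hv.1

end Pool.Agent.H40.CK
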