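import Pool.Agent.H40.CK.A1
import Pool.Agent.H40.CK.A7a

/-!
# CK / A7b: short components of an optimal `F` have many edges to other components

Let `κ` be the vertex set of a component of `F` contained in `shortV F s`.
Optimality against `drop F κ`: `free` loses at most `t_κ = #{e ∈ free M F | e touches κ}`, the
support loses `|κ|`, `shortV` loses `|κ|`; so `t_κ ≥ (θ/2) |κ| + lam |κ| ≥ (θ/2)|κ|`.
Edges of `free M F` with both ends in `κ`: fewer than `(θ/8)|κ|` (`poor_comp`).  All other edges of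
`free M F` touching `κ` have exactly one end `x` in `κ`; `x ↦ e` is injective since `M` is a
matching, and `x` belongs to the set `U` below.  So `|U ∩ κ| ≥ (3θ/8)|κ|`.
Sum over the components contained in `shortV F s` (they partition `shortV F s`).
-/

namespace Pool.Agent.H40.CK

open SimpleGraph

variable {V : Type*}

/-- Vertices on short cycles having an `M`-edge to another component. -/
def extU (M F : SimpleGraph V) (s : ℕ) : Set V :=
  {x | x ∈ shortV F s ∧ ∃ y, M.Adj x y ∧ y ∈ F.support ∧ ¬ F.Reachable x y}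

/-- Summation over the fibres of a map. -/
lemma fib_sum [Finite V] {Q : Type*} (q : V → Q) (A B : Set V) (c : ℝ)
    (h : ∀ v ∈ A, c * (({w | w ∈ A ∧ q w = q v} : Set V).ncard : ℝ) ≤
      (({w | w ∈ B ∧ q w = q v} : Set V).ncard : ℝ)) :
    c * (A.ncard : ℝ) ≤ (B.ncard : ℝ) := by
  classical
  have := Fintype.ofFinite V
  have hA : A.ncard = A.toFinset.card := Set.ncard_eq_toFinset_card' A
  have hB : B.ncard = B.toFinset.card := Set.ncard_eq_toFinset_card' B
  have hfA : ∀ v, ({w | w ∈ A ∧ q w = q v} : Set V).ncard =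
      (A.toFinset.filter (fun w => q w = q v)).card := by
    intro v
    rw [← Set.ncard_coe_finset]
    congr 1
    ext w
    simp
  have hfB : ∀ v, ({w | w ∈ B ∧ q w = q v} : Set V).ncard =
      (B.toFinset.filter (fun w => q w = q v)).card := by
    intro v
    rw [← Set.ncard_coe_finset]
    congr 1
    ext w
    simp
  set T := A.toFinset.image q with hT
  have h1 : A.toFinset.card = ∑ b ∈ T, (A.toFinset.filter (fun w => q w = b)).card :=
    Finset.card_eq_sum_card_fiberwise (fun x hx => Finset.mem_image_of_mem q hx)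
  have h2 : ∑ b ∈ T, (B.toFinset.filter (fun w => q w = b)).card ≤ B.toFinset.card := by
    have : (B.toFinset.filter (fun w => q w ∈ T)).card =
        ∑ b ∈ T, ((B.toFinset.filter (fun w => q w ∈ T)).filter (fun w => q w = b)).card :=
      Finset.card_eq_sum_card_fiberwise (fun x hx => (Finset.mem_filter.mp hx).2)
    calc ∑ b ∈ T, (B.toFinset.filter (fun w => q w = b)).card
        = ∑ b ∈ T, ((B.toFinset.filter (fun w => q w ∈ T)).filter (fun w => q w = b)).card := by
          apply Finset.sum_congr rfl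
          intro b hb
          congr 1
          ext w
          simp only [Finset.mem_filter]
          constructor
          · rintro ⟨h1, h2⟩
            exact ⟨⟨h1, h2 ▸ hb⟩, h2⟩
          · rintro ⟨⟨h1, -⟩, h2⟩
            exact ⟨h1, h2⟩
      _ = (B.toFinset.filter (fun w => q w ∈ T)).card := this.symm
      _ ≤ B.toFinset.card := Finset.card_le_card (Finset.filter_subset _ _)
  rw [hA, hB, h1]
  push_cast
  rw [Finset.mul_sum]
  calc ∑ b ∈ T, c * ((A.toFinset.filter (fun w => q w = b)).card : ℝ)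
      ≤ ∑ b ∈ T, ((B.toFinset.filter (fun w => q w = b)).card : ℝ) := by
        apply Finset.sum_le_sum
        intro b hb
        rw [hT, Finset.mem_image] at hb
        obtain ⟨v, hv, rfl⟩ := hb
        have := h v (by simpa using hv)
        rw [hfA, hfB] at this
        exact this
    _ ≤ (B.toFinset.card : ℝ) := by exact_mod_cast h2

theorem extU_card [Finite V] {Gs M F : SimpleGraph V} {θ lam : ℝ} {s : ℕ} (hθ : 0 ≤ θ)
    (hlam : 0 ≤ lam) (hM : IsMatch M) (hpoor : PoorM Gs M (θ / 8)) (hF : Adm Gs F s)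
    (hmax : ∀ F', Adm Gs F' s → pot M F' θ lam s ≤ pot M F θ lam s) :
    3 * θ / 8 * ((shortV F s).ncard : ℝ) ≤ ((extU M F s).ncard : ℝ) := by
  classical
  apply fib_sum F.connectedComponentMk
  intro v hv
  obtain ⟨hvs, hvc⟩ := hv
  -- the component
  set P : Set V := {w | F.Reachable v w} with hP
  have hPcl : ∀ x y, F.Adj x y → x ∈ P → y ∈ P := fun x y hxy hx => hx.trans hxy.reachable
  have hPsupp : P ⊆ F.support := by
    intro w hw
    rcases eq_or_ne v w with rfl | hne
    · exact hvs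
    · have hw' : F.Reachable w v := hw.symm
      obtain ⟨p⟩ := hw'
      cases p with
      | nil => exact absurd rfl hne
      | cons h _ => exact ⟨_, h⟩
  have hcsz : ∀ w ∈ P, csz F w = csz F v := by
    intro w hw
    unfold csz
    congr 1
    ext z
    exact ⟨fun h => hw.trans h, fun h => hw.symm.trans h⟩
  have hPshort : P ⊆ shortV F s := by
    intro w hw
    exact ⟨hPsupp hw, by rw [hcsz w hw]; exact hvc⟩
  have hPA : ({w | w ∈ shortV F s ∧ F.connectedComponentMk w = F.connectedComponentMk v} : Set V)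
      = P := by
    ext w
    constructor
    · rintro ⟨-, h⟩
      exact (ConnectedComponent.exact h).symm
    · intro hw
      exact ⟨hPshort hw, ConnectedComponent.sound hw.symm⟩
  have hPB : ({w | w ∈ extU M F s ∧ F.connectedComponentMk w = F.connectedComponentMk v} : Set V)
      = extU M F s ∩ P := by
    ext w
    constructor
    · rintro ⟨h1, h⟩
      exact ⟨h1, (ConnectedComponent.exact h).symm⟩
    · rintro ⟨h1, hw⟩
      exact ⟨h1, ConnectedComponent.sound hw.symm⟩
  rw [hPA, hPB]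
  -- optimality
  have hopt := hmax (drop F P) (drop_adm hF hPcl)
  unfold pot val at hopt
  rw [drop_support hPcl, shortV_drop hPcl, free_drop hPcl] at hopt
  have hs1 : ((F.support \ P).ncard : ℝ) + (P.ncard : ℝ) = (F.support.ncard : ℝ) := by
    exact_mod_cast Set.ncard_sdiff_add_ncard_of_subset hPsupp
  have hs2 : ((shortV F s \ P).ncard : ℝ) ≤ ((shortV F s).ncard : ℝ) := by
    exact_mod_cast Set.ncard_le_ncard Set.sdiff_subset
  -- the touching edges
  have hs3 : ((free M F).ncard : ℝ) ≤ (({e | e ∈ free M F ∧ ∀ z ∈ e, z ∉ P} : Set _).ncard : ℝ) +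
      (({e | e ∈ free M F ∧ ∀ z ∈ e, z ∈ P} : Set (Sym2 V)).ncard : ℝ) +
      (({e | e ∈ free M F ∧ (∃ z ∈ e, z ∈ P) ∧ ∃ z ∈ e, z ∉ P} : Set (Sym2 V)).ncard : ℝ) := by
    have hcov : free M F ⊆ ({e | e ∈ free M F ∧ ∀ z ∈ e, z ∉ P} ∪
        {e | e ∈ free M F ∧ ∀ z ∈ e, z ∈ P}) ∪
        {e | e ∈ free M F ∧ (∃ z ∈ e, z ∈ P) ∧ ∃ z ∈ e, z ∉ P} := by
      intro e he
      by_cases h1 : ∀ z ∈ e, z ∉ P
      · exact Or.inl (Or.inl ⟨he, h1⟩)
      by_cases h2 : ∀ z ∈ e, z ∈ P
      · exact Or.inl (Or.inr ⟨he, h2⟩)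
      push Not at h1 h2
      exact Or.inr ⟨he, h1, h2⟩
    have := (Set.ncard_le_ncard hcov).trans ((Set.ncard_union_le _ _).trans
      (Nat.add_le_add_right (Set.ncard_union_le _ _) _))
    exact_mod_cast this
  -- inner edges
  have hin : (({e | e ∈ free M F ∧ ∀ z ∈ e, z ∈ P} : Set (Sym2 V)).ncard : ℝ) ≤
      θ / 8 * (P.ncard : ℝ) := by
    have h1 := (poor_comp hpoor hF.cyc hF.le hvs).le
    refine le_trans ?_ h1
    have : ({e | e ∈ free M F ∧ ∀ z ∈ e, z ∈ P} : Set (Sym2 V)) ⊆
        {e | e ∈ M.edgeSet ∧ e ∉ F.edgeSet ∧ ∀ z ∈ e, F.Reachable v z} := by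
      rintro e ⟨he, hz⟩
      exact ⟨he.1, he.2.1, hz⟩
    exact_mod_cast Set.ncard_le_ncard this
  -- outgoing edges
  have hout : (({e | e ∈ free M F ∧ (∃ z ∈ e, z ∈ P) ∧ ∃ z ∈ e, z ∉ P} : Set (Sym2 V)).ncard : ℝ)
      ≤ ((extU M F s ∩ P).ncard : ℝ) := by
    let f : V → Sym2 V := fun x => if h : ∃ y, M.Adj x y then s(x, h.choose) else s(x, x)
    have hsub : ({e | e ∈ free M F ∧ (∃ z ∈ e, z ∈ P) ∧ ∃ z ∈ e, z ∉ P} : Set (Sym2 V)) ⊆
        f '' (extU M F s ∩ P) := by
      rintro e ⟨he, ⟨x, hx, hxP⟩, ⟨y, hy, hyP⟩⟩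
      have hxy : x ≠ y := fun h => hyP (h ▸ hxP)
      have hee : e = s(x, y) := (Sym2.mem_and_mem_iff hxy).mp ⟨hx, hy⟩
      subst hee
      have hadj : M.Adj x y := he.1
      have hys : y ∈ F.support := he.2.2 y (Sym2.mem_mk_right x y)
      refine ⟨x, ⟨⟨hPshort hxP, y, hadj, hys, fun h => hyP (hxP.trans h)⟩, hxP⟩, ?_⟩
      have hex : ∃ y, M.Adj x y := ⟨y, hadj⟩
      simp only [f, dif_pos hex]
      rw [hM x _ _ hex.choose_spec hadj]
    have := (Set.ncard_le_ncard hsub).trans (Set.ncard_image_le (Set.toFinite _))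
    exact_mod_cast this
  have hPP : (0 : ℝ) ≤ (P.ncard : ℝ) := Nat.cast_nonneg _
  have h4 : lam * ((shortV F s \ P).ncard : ℝ) ≤ lam * ((shortV F s).ncard : ℝ) :=
    mul_le_mul_of_nonneg_left hs2 hlam
  have h5 : θ / 2 * (F.support.ncard : ℝ) = θ / 2 * ((F.support \ P).ncard : ℝ) +
      θ / 2 * (P.ncard : ℝ) := by rw [← hs1]; ring
  have h6 : 3 * θ / 8 * (P.ncard : ℝ) = θ / 2 * (P.ncard : ℝ) - θ / 8 * (P.ncard : ℝ) := by ring
  rw [h6]
  linarith

end Pool.Agent.H40.CK
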