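import Mathlib

/-!
# Project CK: cycles with linearly many chords in cubic graphs (MP_9cdbe4_co)

Definitions shared by all modules.  All graphs are `SimpleGraph V` with `V` finite.

Part A: if `F₀` is a disjoint union of long cycles and `M` is a matching with
`|M| ≥ θ |F₀|`, then `F₀ ⊔ M` has a cycle with at least `(θ/8)|C|` chords.

Part B: a cubic graph has either a short cycle with a chord or a disjoint union `F` of long cycles
for which linearly many other edges have both ends on `F`.
-/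

namespace Pool.Agent.H40.CK

open SimpleGraph

variable {V : Type*}

/-- The chords of a closed walk `C` in `G`: the edges of `G` which are not edges of `C` but both
of whose ends lie on `C`. -/
def chords (G : SimpleGraph V) {u : V} (C : G.Walk u u) : Set (Sym2 V) :=
  {e | e ∈ G.edgeSet ∧ e ∉ C.edges ∧ ∀ z ∈ e, z ∈ C.support}

/-- `G` has a cycle of length at most `n` with at least one chord. -/
def ShortChorded (G : SimpleGraph V) (n : ℕ) : Prop :=
  ∃ (u : V) (C : G.Walk u u), C.IsCycle ∧ C.length ≤ n ∧ (chords G C).Nonempty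

/-- `M` is a matching: every vertex has at most one `M`-neighbour. -/
def IsMatch (M : SimpleGraph V) : Prop := ∀ x y z, M.Adj x y → M.Adj x z → y = z

/-- Number of vertices of the component of `v` in `F`. -/
noncomputable def csz (F : SimpleGraph V) (v : V) : ℕ := {w | F.Reachable v w}.ncard

/-- All nontrivial components of `F` have at least `s` vertices. -/
def Long (F : SimpleGraph V) (s : ℕ) : Prop := ∀ v ∈ F.support, s ≤ csz F v

/-- The edges of `M` outside `F` with both ends covered by `F`. -/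
def free (M F : SimpleGraph V) : Set (Sym2 V) :=
  {e | e ∈ M.edgeSet ∧ e ∉ F.edgeSet ∧ ∀ z ∈ e, z ∈ F.support}

/-- Every cycle `C` of `Gs` has fewer than `δ * |C|` chords from `M`. -/
def PoorM (Gs M : SimpleGraph V) (δ : ℝ) : Prop :=
  ∀ (u : V) (C : Gs.Walk u u), C.IsCycle →
    (({e | e ∈ M.edgeSet ∧ e ∉ C.edges ∧ ∀ z ∈ e, z ∈ C.support} : Set (Sym2 V)).ncard : ℝ)
      < δ * C.length

/-- `c : ℤ → V` runs cyclically around a cycle of `F` with `L` vertices. -/
structure CycSeq (F : SimpleGraph V) (c : ℤ → V) (L : ℕ) : Prop where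
  adj : ∀ i, F.Adj (c i) (c (i + 1))
  eq_iff : ∀ i j, c i = c j ↔ (L : ℤ) ∣ j - i

/-- A system of blocks for a disjoint union of cycles `F`.  The block `β` consists of the `r`
consecutive vertices `seg β 0, ..., seg β (r - 1)`; `seg β` runs around the whole cycle; the
`s - r` vertices on either side of a block meet no block. -/
structure Blocks (F : SimpleGraph V) (s r : ℕ) (ι : Type*) where
  seg : ι → ℤ → V
  adj : ∀ β i, F.Adj (seg β i) (seg β (i + 1))
  nbr : ∀ β i w, F.Adj (seg β i) w → w = seg β (i + 1) ∨ w = seg β (i - 1)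
  inj : ∀ β i j, i ≤ j → j < i + s → seg β i = seg β j → i = j
  sep : ∀ β β' i j, -((s : ℤ) - r) ≤ i → i < s → 0 ≤ j → j < r →
    seg β i = seg β' j → β = β' ∧ i = j
  short : ∀ β β', F.Reachable (seg β 0) (seg β' 0) → 2 * csz F (seg β 0) < 3 * s → β = β'

/-- The data of a switching: in every block `β ∈ U` the path from `seg β (a β)` to `seg β (b β)`
is cut out, and the loose ends are joined by the edges of `S`. -/
structure SwitchData {F : SimpleGraph V} {s r : ℕ} {ι : Type*} (B : Blocks F s r ι)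
    (M : SimpleGraph V) where
  U : Set ι
  a : ι → ℤ
  b : ι → ℤ
  hab : ∀ β ∈ U, 0 ≤ a β ∧ a β < b β ∧ b β < r
  S : Set (Sym2 V)
  hSM : S ⊆ M.edgeSet
  hdiff : ∀ x y, s(x, y) ∈ S → ¬ F.Reachable x y
  hends : ∀ x, (∃ y, s(x, y) ∈ S) ↔ ∃ β ∈ U, x = B.seg β (a β) ∨ x = B.seg β (b β)

namespace SwitchData

variable {F M : SimpleGraph V} {s r : ℕ} {ι : Type*} {B : Blocks F s r ι}

/-- The deleted edges. -/
def D (d : SwitchData B M) : Set (Sym2 V) :=
  {e | ∃ β ∈ d.U, ∃ i, d.a β ≤ i ∧ i < d.b β ∧ e = s(B.seg β i, B.seg β (i + 1))}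

/-- The graph after the switching. -/
def graph (d : SwitchData B M) : SimpleGraph V := F.deleteEdges d.D ⊔ fromEdgeSet d.S

/-- The vertices lost by the switching. -/
def removed (d : SwitchData B M) : Set V :=
  {x | ∃ β ∈ d.U, ∃ i, d.a β < i ∧ i < d.b β ∧ x = B.seg β i}

end SwitchData

/-- `F` with the vertices of `P` isolated. -/
def drop (F : SimpleGraph V) (P : Set V) : SimpleGraph V where
  Adj x y := F.Adj x y ∧ x ∉ P ∧ y ∉ P
  symm := ⟨fun _ _ h => ⟨h.1.symm, h.2.2, h.2.1⟩⟩
  loopless := ⟨fun _ h => h.1.ne rfl⟩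

/-- The vertices lying on cycles of `F` with fewer than `3 s / 2` vertices. -/
def shortV (F : SimpleGraph V) (s : ℕ) : Set V := {x | x ∈ F.support ∧ 2 * csz F x < 3 * s}

/-- The value of `F`. -/
noncomputable def val (M F : SimpleGraph V) (θ : ℝ) : ℝ :=
  ((free M F).ncard : ℝ) - θ / 2 * (F.support.ncard : ℝ)

/-- The potential of `F`. -/
noncomputable def pot (M F : SimpleGraph V) (θ lam : ℝ) (s : ℕ) : ℝ :=
  val M F θ - lam * ((shortV F s).ncard : ℝ)

/-- Admissible subgraphs at scale `s`. -/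
structure Adm (Gs F : SimpleGraph V) (s : ℕ) : Prop where
  le : F ≤ Gs
  cyc : F.IsCycles
  long : Long F s

/-! ### Part B -/

/-- A set `E` of edges of `G` hitting all cycles of length at most `s`, each edge of `E` having a
private cycle of length at most `s`. -/
structure HitData (G E : SimpleGraph V) (s : ℕ) : Prop where
  le : E ≤ G
  mat : IsMatch E
  hit : ∀ (u : V) (C : G.Walk u u), C.IsCycle → C.length ≤ s → ∃ e ∈ C.edges, e ∈ E.edgeSet
  priv : ∀ e ∈ E.edgeSet, ∃ (u : V) (C : G.Walk u u), C.IsCycle ∧ C.length ≤ s ∧ e ∈ C.edges ∧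
    ∀ e' ∈ C.edges, e' ∈ E.edgeSet → e' = e

/-- The subgraph formed by the edges which lie on cycles (i.e. `G` minus its bridges). -/
def cyc (G : SimpleGraph V) : SimpleGraph V where
  Adj u v := ∃ (w : V) (C : G.Walk w w), C.IsCycle ∧ s(u, v) ∈ C.edges
  symm := ⟨fun u v h => by
    obtain ⟨w, C, hC, he⟩ := h
    exact ⟨w, C, hC, by rwa [Sym2.eq_swap]⟩⟩
  loopless := ⟨fun u h => by
    obtain ⟨w, C, hC, he⟩ := h
    exact (C.adj_of_mem_edges he).ne rfl⟩

/-- Number of bridge-darts of `G` leaving the component `κ` of `cyc G`. -/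
noncomputable def bdeg (G : SimpleGraph V) (κ : (cyc G).ConnectedComponent) : ℕ :=
  {d : V × V | d.1 ∈ κ.supp ∧ G.Adj d.1 d.2 ∧ ¬ (cyc G).Adj d.1 d.2}.ncard

/-- Vertices of degree two all of whose edges are bridges. -/
def T2 (G : SimpleGraph V) : Set V := {v | v ∉ (cyc G).support ∧ (G.neighborSet v).ncard = 2}

/-- Darts entering `T2`. -/
def ent (G : SimpleGraph V) : Set (V × V) := {d | G.Adj d.1 d.2 ∧ d.1 ∉ T2 G ∧ d.2 ∈ T2 G}

/-- The good edges of `G` with respect to the subgraph `H`. -/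
def goodE (G H : SimpleGraph V) : Set (Sym2 V) :=
  {e | e ∈ G.edgeSet ∧ (∀ z ∈ e, z ∈ H.support) ∧
    (e ∉ H.edgeSet ∨ ∀ z ∈ e, (H.neighborSet z).ncard = 3)}

end Pool.Agent.H40.CK
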