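import Pool.Agent.H40.CK.A4
import Pool.Agent.H40.CK.Defs

/-!
# CK / A7c: from many edges between blocks to a switching

`E` is a set of `M`-edges, each joining block vertices of two different components of `F`.
For `e ∈ E` with ends `x = seg β i`, `y = seg β' i'` put `T e = {β, β'}`; `β ≠ β'` since the
components are different (all `seg β i` are `F`-reachable from each other), so `#(T e) = 2`.  Apply
`two_regular` with `B = univ : Finset (Fin n)` (`n ≤ #E`) to get `S`.  Let
`U = {β | exactly two e ∈ S have β ∈ T e}`.  For `β ∈ U` the two edges `e ≠ e'` have ends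
`x = seg β i`, `x' = seg β i'` in block `β` (each edge has exactly one end in block `β`, by `sep`), and
`x ≠ x'` since `M` is a matching; let `a β < b β` be `i`, `i'` in increasing order.
Then `hends`: a vertex `x` on an `S`-edge lies in some block `β` (unique by `sep`), `β ∈ T e`, so the
count for `β` is not `0`, hence `2`, and `x` is one of the two ends.
Conversely the ends are on `S`-edges.
`#U = #S`: double counting of pairs `(e, β)`, `e ∈ S`, `β ∈ T e`: `2 #S = 2 #U`.
-/

namespace Pool.Agent.H40.CK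

open SimpleGraph

variable {V : Type*}

namespace A7c

/-- `z` is a vertex of the block `β`. -/
def InB {F : SimpleGraph V} {s r : ℕ} {ι : Type*} (B : Blocks F s r ι) (β : ι) (z : V) : Prop :=
  ∃ i : ℤ, 0 ≤ i ∧ i < r ∧ B.seg β i = z

theorem reach {F : SimpleGraph V} {s r : ℕ} {ι : Type*} (B : Blocks F s r ι) (β : ι) (i j : ℤ) :
    F.Reachable (B.seg β i) (B.seg β j) := by
  have h : ∀ i : ℤ, F.Reachable (B.seg β 0) (B.seg β i) := by
    intro i
    induction i using Int.induction_on with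
    | zero => exact Reachable.refl _
    | succ k ih => exact ih.trans (B.adj β k).reachable
    | pred k ih =>
      have h1 := B.adj β (-(k : ℤ) - 1)
      rw [sub_add_cancel] at h1
      exact ih.trans h1.symm.reachable
  exact (h i).symm.trans (h j)

theorem InB.unique {F : SimpleGraph V} {s r : ℕ} {ι : Type*} {B : Blocks F s r ι}
    (hrs : 4 * r ≤ s) {β β' : ι} {z : V} (h : InB B β z) (h' : InB B β' z) : β = β' := by
  obtain ⟨i, h0, h1, h2⟩ := h
  obtain ⟨j, h3, h4, h5⟩ := h'
  obtain ⟨j', rfl⟩ := Int.eq_ofNat_of_zero_le h3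
  exact (B.sep β β' i j' (by omega) (by omega) (Nat.zero_le _) (by exact_mod_cast h4)
    (h2.trans h5.symm)).1

theorem InB.reachable {F : SimpleGraph V} {s r : ℕ} {ι : Type*} {B : Blocks F s r ι}
    {β : ι} {z w : V} (h : InB B β z) (h' : InB B β w) : F.Reachable z w := by
  obtain ⟨i, -, -, rfl⟩ := h
  obtain ⟨j, -, -, rfl⟩ := h'
  exact reach B β i j

end A7c

open A7c in
theorem exists_switchData [Finite V] {F M : SimpleGraph V} {s r n : ℕ} (hM : IsMatch M)
    (hrs : 4 * r ≤ s) (B : Blocks F s r (Fin n)) (E : Set (Sym2 V)) (hE : E.Nonempty)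
    (hEM : E ⊆ M.edgeSet)
    (hblk : ∀ e ∈ E, ∀ z ∈ e, ∃ β, ∃ i : ℤ, 0 ≤ i ∧ i < r ∧ B.seg β i = z)
    (hdiff : ∀ x y, s(x, y) ∈ E → ¬ F.Reachable x y) (hcard : n ≤ E.ncard) :
    ∃ d : SwitchData B M, d.S ⊆ E ∧ d.S.Nonempty ∧ d.U.ncard = d.S.ncard ∧
      (∀ β ∈ d.U, ({e | e ∈ d.S ∧ ∃ z ∈ e, ∃ i : ℤ, 0 ≤ i ∧ i < r ∧ B.seg β i = z} :
        Set (Sym2 V)).ncard = 2) := by
  classical
  have hEfin : E.Finite := E.toFinite
  set Ef : Finset (Sym2 V) := hEfin.toFinset with hEf
  have hmem : ∀ e, e ∈ Ef ↔ e ∈ E := fun e => hEfin.mem_toFinset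
  -- two vertices of an edge in the same block are equal
  have hone : ∀ e ∈ E, ∀ z ∈ e, ∀ w ∈ e, ∀ β, InB B β z → InB B β w → z = w := by
    intro e he z hz w hw β h1 h2
    by_contra hne
    have h3 : e = s(z, w) := ((Sym2.mem_and_mem_iff hne).1 ⟨hz, hw⟩)
    exact hdiff z w (h3 ▸ he) (h1.reachable h2)
  set T : Sym2 V → Finset (Fin n) := fun e => Finset.univ.filter fun β => ∃ z ∈ e, InB B β z
    with hT
  have hTmem : ∀ e β, β ∈ T e ↔ ∃ z ∈ e, InB B β z := fun e β => by
    simp [hT]
  have hTcard : ∀ e ∈ E, (T e).card = 2 := by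
    intro e
    induction e using Sym2.ind with
    | _ x y =>
      intro he
      obtain ⟨β, hβ⟩ := hblk _ he x (Sym2.mem_mk_left x y)
      obtain ⟨β', hβ'⟩ := hblk _ he y (Sym2.mem_mk_right x y)
      rw [Finset.card_eq_two]
      refine ⟨β, β', ?_, ?_⟩
      · rintro rfl
        exact hdiff x y he (InB.reachable (B := B) hβ hβ')
      · ext γ
        rw [hTmem, Finset.mem_insert, Finset.mem_singleton]
        constructor
        · rintro ⟨z, hz, hγ⟩
          rcases Sym2.mem_iff.1 hz with rfl | rfl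
          · exact Or.inl (hγ.unique hrs hβ)
          · exact Or.inr (hγ.unique hrs hβ')
        · rintro (rfl | rfl)
          · exact ⟨x, Sym2.mem_mk_left x y, hβ⟩
          · exact ⟨y, Sym2.mem_mk_right x y, hβ'⟩
  obtain ⟨S, hSE, hSne, hS⟩ := two_regular T Ef Finset.univ
    (fun e he => ⟨hTcard e ((hmem e).1 he), Finset.subset_univ _⟩)
    (by
      rw [Finset.card_univ, Fintype.card_fin, hEf, ← Set.ncard_eq_toFinset_card E hEfin]
      exact hcard)
    (by
      obtain ⟨e, he⟩ := hE
      exact ⟨e, (hmem e).2 he⟩)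
  have hSE' : ∀ e ∈ S, e ∈ E := fun e he => (hmem e).1 (hSE he)
  set U : Set (Fin n) := {β | (S.filter (fun e => β ∈ T e)).card = 2} with hU
  -- the two ends in a block
  have hkey : ∀ β, ∃ a b : ℤ, β ∈ U → (0 ≤ a ∧ a < b ∧ b < r) ∧
      ∀ z, InB B β z → ((∃ e ∈ S, z ∈ e) ↔ z = B.seg β a ∨ z = B.seg β b) := by
    intro β
    by_cases hβ : β ∈ U
    · obtain ⟨e, e', hee, hfil⟩ := Finset.card_eq_two.1 hβ
      have he : e ∈ S.filter (fun e => β ∈ T e) := by rw [hfil]; simp
      have he' : e' ∈ S.filter (fun e => β ∈ T e) := by rw [hfil]; simp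
      rw [Finset.mem_filter, hTmem] at he he'
      obtain ⟨heS, x, hx, hxB⟩ := he
      obtain ⟨heS', x', hx', hxB'⟩ := he'
      have hxx : x ≠ x' := by
        rintro rfl
        apply hee
        have h1 : e = s(x, Sym2.Mem.other hx) := (Sym2.other_spec hx).symm
        have h2 : e' = s(x, Sym2.Mem.other hx') := (Sym2.other_spec hx').symm
        have h3 : M.Adj x (Sym2.Mem.other hx) := by
          have := hEM (hSE' e heS)
          rw [h1] at this
          exact this
        have h4 : M.Adj x (Sym2.Mem.other hx') := by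
          have := hEM (hSE' e' heS')
          rw [h2] at this
          exact this
        rw [h1, h2, hM _ _ _ h3 h4]
      have hcl : ∀ z, InB B β z → ((∃ e ∈ S, z ∈ e) ↔ z = x ∨ z = x') := by
        intro z hz
        constructor
        · rintro ⟨f, hf, hzf⟩
          have h1 : f ∈ S.filter (fun e => β ∈ T e) := by
            rw [Finset.mem_filter, hTmem]
            exact ⟨hf, z, hzf, hz⟩
          rw [hfil, Finset.mem_insert, Finset.mem_singleton] at h1
          rcases h1 with rfl | rfl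
          · exact Or.inl (hone _ (hSE' _ hf) z hzf x hx β hz hxB)
          · exact Or.inr (hone _ (hSE' _ hf) z hzf x' hx' β hz hxB')
        · rintro (rfl | rfl)
          · exact ⟨e, heS, hx⟩
          · exact ⟨e', heS', hx'⟩
      obtain ⟨i, hi0, hir, hix⟩ := hxB
      obtain ⟨j, hj0, hjr, hjx⟩ := hxB'
      rcases lt_trichotomy i j with hij | hij | hij
      · exact ⟨i, j, fun _ => ⟨⟨hi0, hij, hjr⟩, fun z hz => by rw [hcl z hz, hix, hjx]⟩⟩
      · exact absurd (by rw [← hix, ← hjx, hij]) hxx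
      · refine ⟨j, i, fun _ => ⟨⟨hj0, hij, hir⟩, fun z hz => ?_⟩⟩
        rw [hcl z hz, hix, hjx]
        exact or_comm
    · exact ⟨0, 0, fun h => absurd h hβ⟩
  choose a b hab using hkey
  refine ⟨{ U := U, a := a, b := b, hab := fun β hβ => (hab β hβ).1, S := ↑S,
            hSM := fun e he => hEM (hSE' e he), hdiff := fun x y h => hdiff x y (hSE' _ h),
            hends := ?_ }, fun e he => hSE' e he, ?_, ?_, ?_⟩
  · intro x
    constructor
    · rintro ⟨y, hxy⟩
      obtain ⟨β, hβ⟩ := hblk _ (hSE' _ hxy) x (Sym2.mem_mk_left x y)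
      have hne : (S.filter (fun e => β ∈ T e)).card ≠ 0 := by
        rw [Finset.card_ne_zero]
        refine ⟨s(x, y), Finset.mem_filter.2 ⟨hxy, ?_⟩⟩
        rw [hTmem]
        exact ⟨x, Sym2.mem_mk_left x y, hβ⟩
      have hβU : β ∈ U := (hS β).resolve_left hne
      exact ⟨β, hβU, ((hab β hβU).2 x hβ).1 ⟨s(x, y), hxy, Sym2.mem_mk_left x y⟩⟩
    · rintro ⟨β, hβU, hx⟩
      obtain ⟨⟨h0, h1, h2⟩, h3⟩ := hab β hβU
      have hxB : InB B β x := by
        rcases hx with rfl | rfl
        · exact ⟨a β, h0, by omega, rfl⟩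
        · exact ⟨b β, by omega, h2, rfl⟩
      obtain ⟨e, heS, hxe⟩ := (h3 x hxB).2 hx
      exact ⟨Sym2.Mem.other hxe, by rw [Sym2.other_spec hxe]; exact heS⟩
  · obtain ⟨e, he⟩ := hSne
    exact ⟨e, he⟩
  · show U.ncard = (↑S : Set (Sym2 V)).ncard
    rw [Set.ncard_coe_finset]
    have hUf : U = ↑(Finset.univ.filter fun β : Fin n => (S.filter (fun e => β ∈ T e)).card = 2) := by
      ext β
      simp [hU]
    rw [hUf, Set.ncard_coe_finset]
    have h1 : ∑ e ∈ S, (T e).card = 2 * S.card := by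
      rw [Finset.sum_congr rfl fun e he => hTcard e (hSE' e he), Finset.sum_const, smul_eq_mul,
        mul_comm]
    have h2 : ∑ e ∈ S, (T e).card = ∑ β : Fin n, (S.filter (fun e => β ∈ T e)).card := by
      simp only [Finset.card_eq_sum_ones, Finset.sum_filter]
      rw [Finset.sum_comm]
      refine Finset.sum_congr rfl fun e _ => ?_
      rw [← Finset.sum_filter]
      congr 1
      ext β
      simp
    have h3 : ∑ β : Fin n, (S.filter (fun e => β ∈ T e)).card =
        2 * (Finset.univ.filter fun β : Fin n => (S.filter (fun e => β ∈ T e)).card = 2).card := by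
      rw [← Finset.sum_filter_add_sum_filter_not Finset.univ
        (fun β : Fin n => (S.filter (fun e => β ∈ T e)).card = 2)]
      have h4 : ∑ β ∈ Finset.univ.filter (fun β : Fin n => ¬ (S.filter (fun e => β ∈ T e)).card = 2),
          (S.filter (fun e => β ∈ T e)).card = 0 :=
        Finset.sum_eq_zero fun β hβ => (hS β).resolve_right (Finset.mem_filter.1 hβ).2
      rw [h4, add_zero, Finset.sum_congr rfl fun β hβ => (Finset.mem_filter.1 hβ).2,
        Finset.sum_const, smul_eq_mul, mul_comm]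
    omega
  · intro β hβ
    have h1 : ({e | e ∈ (↑S : Set (Sym2 V)) ∧ ∃ z ∈ e, ∃ i : ℤ, 0 ≤ i ∧ i < r ∧ B.seg β i = z} :
        Set (Sym2 V)) = ↑(S.filter (fun e => β ∈ T e)) := by
      ext e
      simp only [Set.mem_ofPred_eq, Finset.coe_filter, Finset.mem_coe, hTmem]
      rfl
    show ({e | e ∈ (↑S : Set (Sym2 V)) ∧ ∃ z ∈ e, ∃ i : ℤ, 0 ≤ i ∧ i < r ∧ B.seg β i = z} :
        Set (Sym2 V)).ncard = 2
    rw [h1, Set.ncard_coe_finset]
    exact hβ

end Pool.Agent.H40.CK
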