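import Pool.Agent.H40.CK.A3b

/-!
# CK / A7d: a switching increases the potential
-/

namespace Pool.Agent.H40.CK

open SimpleGraph

variable {V : Type*}

namespace A7d

theorem mem_support_of_reachable {F : SimpleGraph V} {v w : V} (hv : v ∈ F.support)
    (h : F.Reachable v w) : w ∈ F.support := by
  by_cases hvw : v = w
  · exact hvw ▸ hv
  · obtain ⟨p⟩ := h
    have hp : ¬ p.Nil := fun hn => hvw hn.eq
    exact ⟨_, (p.adj_penultimate hp).symm⟩

theorem csz_eq_of_reachable {F : SimpleGraph V} {v w : V} (h : F.Reachable v w) :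
    csz F v = csz F w := by
  unfold csz
  congr 1
  ext x
  exact ⟨fun hx => h.symm.trans hx, fun hx => h.trans hx⟩

theorem seg_reachable_nat {F : SimpleGraph V} {s r : ℕ} {ι : Type*} (B : Blocks F s r ι) (β : ι)
    (n : ℕ) : F.Reachable (B.seg β 0) (B.seg β n) := by
  induction n with
  | zero => exact Reachable.refl _
  | succ n ih =>
    push_cast
    exact ih.trans (B.adj β n).reachable

theorem seg_reachable {F : SimpleGraph V} {s r : ℕ} {ι : Type*} (B : Blocks F s r ι) (β : ι)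
    {i : ℤ} (hi : 0 ≤ i) : F.Reachable (B.seg β 0) (B.seg β i) := by
  obtain ⟨n, rfl⟩ := Int.eq_ofNat_of_zero_le hi
  exact seg_reachable_nat B β n

theorem seg_mem_support {F : SimpleGraph V} {s r : ℕ} {ι : Type*} (B : Blocks F s r ι) (β : ι)
    (i : ℤ) : B.seg β i ∈ F.support := ⟨_, B.adj β i⟩

/-- Edges of a matching touching a set. -/
theorem ncard_touch_le [Finite V] {M : SimpleGraph V} (hM : IsMatch M) (R : Set V) :
    ({e | e ∈ M.edgeSet ∧ ∃ z ∈ e, z ∈ R} : Set (Sym2 V)).ncard ≤ R.ncard := by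
  classical
  let g : V → Sym2 V := fun z => if h : ∃ w, M.Adj z w then s(z, h.choose) else s(z, z)
  have hsub : ({e | e ∈ M.edgeSet ∧ ∃ z ∈ e, z ∈ R} : Set (Sym2 V)) ⊆ g '' R := by
    rintro e ⟨he, z, hz, hzR⟩
    obtain ⟨w, rfl⟩ := Sym2.mem_iff_exists.1 hz
    have hzw : M.Adj z w := he
    refine ⟨z, hzR, ?_⟩
    have h : ∃ w, M.Adj z w := ⟨w, hzw⟩
    have h1 : h.choose = w := hM z _ _ h.choose_spec hzw
    simp only [g, dif_pos h, h1]
  exact (Set.ncard_le_ncard hsub (Set.toFinite _)).trans (Set.ncard_image_le (Set.toFinite _))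

theorem ncard_removed_le {F M : SimpleGraph V} {s r : ℕ} {ι : Type*} [Finite ι]
    {B : Blocks F s r ι} (d : SwitchData B M) : d.removed.ncard ≤ d.U.ncard * (r - 2) := by
  classical
  have hsub : d.removed ⊆ (fun p : ι × ℕ => B.seg p.1 (d.a p.1 + 1 + (p.2 : ℤ))) ''
      (d.U ×ˢ ((Finset.range (r - 2) : Finset ℕ) : Set ℕ)) := by
    rintro x ⟨β, hβ, i, hi1, hi2, rfl⟩
    obtain ⟨h1, h2, h3⟩ := d.hab β hβ
    refine ⟨(β, (i - d.a β - 1).toNat), ⟨hβ, ?_⟩, ?_⟩
    · simp only [Finset.coe_range, Set.mem_Iio]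
      omega
    · simp only
      congr 1
      omega
  have hfin : (d.U ×ˢ ((Finset.range (r - 2) : Finset ℕ) : Set ℕ)).Finite :=
    (Set.toFinite d.U).prod (Finset.finite_toSet _)
  refine (Set.ncard_le_ncard hsub (hfin.image _)).trans ((Set.ncard_image_le hfin).trans ?_)
  rw [Set.ncard_prod, Set.ncard_coe_finset, Finset.card_range]

theorem free_subset [Finite V] {F M : SimpleGraph V} {s r : ℕ} {ι : Type*}
    {B : Blocks F s r ι} (d : SwitchData B M) (hF : F.IsCycles) (hM : IsMatch M)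
    (hrs : 4 * r ≤ s) :
    free M F ⊆ free M d.graph ∪ (d.S ∪ {e | e ∈ M.edgeSet ∧ ∃ z ∈ e, z ∈ d.removed}) := by
  rintro e ⟨heM, heF, hes⟩
  by_cases heS : e ∈ d.S
  · exact Or.inr (Or.inl heS)
  by_cases heT : ∃ z ∈ e, z ∈ d.removed
  · exact Or.inr (Or.inr ⟨heM, heT⟩)
  refine Or.inl ⟨heM, ?_, ?_⟩
  · intro h
    induction e using Sym2.ind with
    | _ x y =>
      rcases h with h | h
      · exact heF (deleteEdges_adj.1 h).1
      · exact heS ((fromEdgeSet_adj _).1 h).1
  · intro z hz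
    rw [switch_support d hF hM hrs]
    exact ⟨hes z hz, fun hr => heT ⟨z, hz, hr⟩⟩

end A7d

open A7d in
theorem switch_gain [Finite V] {Gs F M : SimpleGraph V} {s r : ℕ} {ι : Type*} [Finite ι]
    {B : Blocks F s r ι} (d : SwitchData B M) {θ : ℝ} (hθ : 0 ≤ θ) (hM : IsMatch M)
    (hMG : M ≤ Gs) (hrs : 4 * r ≤ s) (hs : 1 ≤ s) (hF : Adm Gs F s) (hSne : d.S.Nonempty)
    (hcard : d.U.ncard = d.S.ncard)
    (htwo : ∀ β ∈ d.U, ({e | e ∈ d.S ∧ ∃ z ∈ e, ∃ i : ℤ, 0 ≤ i ∧ i < r ∧ B.seg β i = z} :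
        Set (Sym2 V)).ncard = 2)
    (hshort : ∀ e ∈ d.S, ∃ z ∈ e, z ∈ shortV F s) :
    Adm Gs d.graph s ∧ pot M F θ (2 * r / s) s < pot M d.graph θ (2 * r / s) s := by
  classical
  have := Fintype.ofFinite V
  have := Fintype.ofFinite ι
  have hsupp := switch_support d hF.cyc hM hrs
  refine ⟨⟨?_, switch_isCycles d hF.cyc hM hrs, ?_⟩, ?_⟩
  · refine sup_le ((deleteEdges_le _).trans hF.le) (le_trans ?_ hMG)
    intro x y h
    exact d.hSM ((fromEdgeSet_adj _).1 h).1
  · intro v hv
    rcases switch_csz d hF.cyc hM hrs hv with h | h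
    · rw [h.1]
      rw [hsupp] at hv
      exact hF.long v hv.1
    · omega
  -- (a)
  have ha : (free M F).ncard ≤ (free M d.graph).ncard + (d.S.ncard + d.removed.ncard) := by
    refine (Set.ncard_le_ncard (free_subset d hF.cyc hM hrs) (Set.toFinite _)).trans ?_
    refine (Set.ncard_union_le _ _).trans (Nat.add_le_add_left ?_ _)
    exact (Set.ncard_union_le _ _).trans (Nat.add_le_add_left (ncard_touch_le hM _) _)
  have hrem := ncard_removed_le d
  -- (b)
  have hb : d.graph.support.ncard ≤ F.support.ncard := by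
    apply Set.ncard_le_ncard _ (Set.toFinite _)
    rw [hsupp]
    exact Set.sdiff_subset
  -- (c)
  let W : Set V := {x | x ∈ shortV F s ∧ ∃ β ∈ d.U, F.Reachable x (B.seg β 0)}
  have hc1 : (shortV d.graph s).ncard + W.ncard ≤ (shortV F s).ncard := by
    have hdisj : Disjoint (shortV d.graph s) W := by
      rw [Set.disjoint_left]
      rintro x ⟨hx1, hx2⟩ ⟨-, β, hβ, hr⟩
      rcases switch_csz d hF.cyc hM hrs hx1 with h | h
      · exact h.2 β hβ hr
      · omega
    rw [← Set.ncard_union_eq hdisj (Set.toFinite _) (Set.toFinite _)]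
    apply Set.ncard_le_ncard _ (Set.toFinite _)
    rintro x (⟨hx1, hx2⟩ | hx)
    · have hx1' := hx1
      rw [hsupp] at hx1'
      rcases switch_csz d hF.cyc hM hrs hx1 with h | h
      · exact ⟨hx1'.1, by rw [← h.1]; exact hx2⟩
      · omega
    · exact hx.1
  let Us : Finset ι := Finset.univ.filter (fun β => β ∈ d.U ∧ B.seg β 0 ∈ shortV F s)
  have hc2 : d.S.ncard ≤ 2 * Us.card := by
    let T : ι → Finset (Sym2 V) := fun β => Finset.univ.filter
      (fun e => e ∈ d.S ∧ ∃ z ∈ e, ∃ i : ℤ, 0 ≤ i ∧ i < r ∧ B.seg β i = z)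
    have hT : ∀ β ∈ Us, (T β).card ≤ 2 := by
      intro β hβ
      have h := htwo β (Finset.mem_filter.1 hβ).2.1
      rw [Set.ncard_eq_toFinset_card'] at h
      rw [← h]
      apply le_of_eq
      congr 1
      ext e
      simp [T]
    have hsub : d.S ⊆ ((Us.biUnion T : Finset (Sym2 V)) : Set (Sym2 V)) := by
      intro e he
      obtain ⟨z, hz, hzs⟩ := hshort e he
      obtain ⟨w, rfl⟩ := Sym2.mem_iff_exists.1 hz
      obtain ⟨β, hβ, hzβ⟩ := (d.hends z).1 ⟨w, he⟩
      obtain ⟨h1, h2, h3⟩ := d.hab β hβ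
      have hpos : ∃ i : ℤ, 0 ≤ i ∧ i < r ∧ B.seg β i = z := by
        rcases hzβ with h | h
        · exact ⟨_, h1, by omega, h.symm⟩
        · exact ⟨_, by omega, h3, h.symm⟩
      obtain ⟨i, hi1, hi2, hi3⟩ := hpos
      have hreach : F.Reachable (B.seg β 0) z := hi3 ▸ seg_reachable B β hi1
      rw [Finset.mem_coe, Finset.mem_biUnion]
      refine ⟨β, ?_, ?_⟩
      · refine Finset.mem_filter.2 ⟨Finset.mem_univ _, hβ, seg_mem_support B β 0, ?_⟩
        rw [csz_eq_of_reachable hreach]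
        exact hzs.2
      · exact Finset.mem_filter.2 ⟨Finset.mem_univ _, he, z, hz, i, hi1, hi2, hi3⟩
    have h1 := Set.ncard_le_ncard hsub (Set.toFinite _)
    rw [Set.ncard_coe_finset] at h1
    refine h1.trans (Finset.card_biUnion_le.trans ?_)
    calc ∑ β ∈ Us, (T β).card ≤ ∑ _β ∈ Us, 2 := Finset.sum_le_sum hT
      _ = 2 * Us.card := by rw [Finset.sum_const, smul_eq_mul, mul_comm]
  have hc3 : s * Us.card ≤ W.ncard := by
    let C : ι → Finset V := fun β => Finset.univ.filter (fun x => F.Reachable (B.seg β 0) x)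
    have hC : ∀ β ∈ Us, s ≤ (C β).card := by
      intro β hβ
      have h := hF.long _ (seg_mem_support B β 0)
      have h2 : csz F (B.seg β 0) = (C β).card := by
        unfold csz
        rw [Set.ncard_eq_toFinset_card']
        congr 1
        ext x
        simp [C]
      omega
    have hdisj : (Us : Set ι).PairwiseDisjoint C := by
      intro β hβ β' hβ' hne
      rw [Function.onFun, Finset.disjoint_left]
      intro x hx hx'
      apply hne
      have h1 := (Finset.mem_filter.1 hx).2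
      have h2 := (Finset.mem_filter.1 hx').2
      exact B.short β β' (h1.trans h2.symm) ((Finset.mem_filter.1 (Finset.mem_coe.1 hβ)).2.2.2)
    have hsub : ((Us.biUnion C : Finset V) : Set V) ⊆ W := by
      intro x hx
      rw [Finset.mem_coe, Finset.mem_biUnion] at hx
      obtain ⟨β, hβ, hx⟩ := hx
      have h1 := (Finset.mem_filter.1 hβ).2
      have h2 := (Finset.mem_filter.1 hx).2
      refine ⟨⟨mem_support_of_reachable h1.2.1 h2, ?_⟩, β, h1.1, h2.symm⟩
      rw [← csz_eq_of_reachable h2]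
      exact h1.2.2
    have h1 := Set.ncard_le_ncard hsub (Set.toFinite _)
    rw [Set.ncard_coe_finset, Finset.card_biUnion hdisj] at h1
    refine le_trans ?_ h1
    calc s * Us.card = ∑ _β ∈ Us, s := by rw [Finset.sum_const, smul_eq_mul, mul_comm]
      _ ≤ ∑ β ∈ Us, (C β).card := Finset.sum_le_sum hC
  -- `r ≥ 2`
  have hSpos : 0 < d.S.ncard := (Set.ncard_pos (Set.toFinite _)).2 hSne
  have hr2 : 2 ≤ r := by
    have hU : d.U.Nonempty := by
      rw [← Set.ncard_pos (Set.toFinite _), hcard]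
      exact hSpos
    obtain ⟨β, hβ⟩ := hU
    obtain ⟨h1, h2, h3⟩ := d.hab β hβ
    omega
  -- the final computation
  unfold pot val
  have hsR : (0 : ℝ) < s := by exact_mod_cast hs
  have e1 : ((free M F).ncard : ℝ) ≤ (free M d.graph).ncard + d.S.ncard * ((r : ℝ) - 1) := by
    have h1 : (free M F).ncard ≤ (free M d.graph).ncard + d.S.ncard * (r - 1) := by
      rw [hcard] at hrem
      have h2 : d.S.ncard * (r - 1) = d.S.ncard + d.S.ncard * (r - 2) := by
        obtain ⟨k, rfl⟩ := Nat.exists_eq_add_of_le hr2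
        have h3 : 2 + k - 1 = k + 1 := by omega
        have h4 : 2 + k - 2 = k := by omega
        rw [h3, h4]
        ring
      rw [h2]
      omega
    have h2 : ((r - 1 : ℕ) : ℝ) = (r : ℝ) - 1 := by
      rw [Nat.cast_sub (by omega)]
      simp
    rw [← h2]
    exact_mod_cast h1
  have e2 : θ / 2 * (d.graph.support.ncard : ℝ) ≤ θ / 2 * (F.support.ncard : ℝ) := by
    have : (d.graph.support.ncard : ℝ) ≤ F.support.ncard := by exact_mod_cast hb
    gcongr
  have e3 : (r : ℝ) * d.S.ncard ≤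
      2 * r / s * ((shortV F s).ncard : ℝ) - 2 * r / s * ((shortV d.graph s).ncard : ℝ) := by
    have h1 : (s : ℝ) * d.S.ncard ≤ 2 * W.ncard := by
      have : s * d.S.ncard ≤ 2 * W.ncard := by
        calc s * d.S.ncard ≤ s * (2 * Us.card) := Nat.mul_le_mul_left _ hc2
          _ = 2 * (s * Us.card) := by ring
          _ ≤ 2 * W.ncard := Nat.mul_le_mul_left _ hc3
      exact_mod_cast this
    have h2 : (W.ncard : ℝ) ≤ (shortV F s).ncard - (shortV d.graph s).ncard := by
      have : ((shortV d.graph s).ncard : ℝ) + W.ncard ≤ (shortV F s).ncard := by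
        exact_mod_cast hc1
      linarith
    rw [← mul_sub]
    calc (r : ℝ) * d.S.ncard = (r : ℝ) / s * (s * d.S.ncard) := by
          field_simp
      _ ≤ (r : ℝ) / s * (2 * W.ncard) := by gcongr
      _ = 2 * r / s * W.ncard := by ring
      _ ≤ 2 * r / s * ((shortV F s).ncard - (shortV d.graph s).ncard) := by gcongr
  have e4 : (0 : ℝ) < d.S.ncard := by exact_mod_cast hSpos
  nlinarith [e1, e2, e3, e4]

end Pool.Agent.H40.CK
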