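import Pool.Agent.H40.CK.A6b
import Pool.Agent.H40.CK.A7b
import Pool.Agent.H40.CK.A7c
import Pool.Agent.H40.CK.A7d

/-!
# CK / A7: the merging step

Let `lam = 2 r / s` and let `F` maximise `pot M · θ lam s` among the admissible graphs (finitely many
graphs, `F₁` is admissible).  Let `v = #shortV F s`.

Claim: `v ≤ 86 s N / (θ r²)`.  Let `U = extU M F s`, `mate x` the `M`-neighbour;
`|U| ≥ (3θ/8) v` (`extU_card`).  `exists_blocks` gives `n` blocks, `n s ≤ |F.support| ≤ N`, and
`U_R ⊆ U` with `|U_R| ≥ (r/4s)² |U|`, `x` and `mate x` in blocks for `x ∈ U_R`.  Let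
`E = {s(x, mate x) | x ∈ U_R}`: `|E| ≥ |U_R| / 2`.  If `E ≠ ∅` and `n ≤ |E|` then `exists_switchData` and
`switch_gain` contradict maximality.  So `E = ∅` (then `v = 0`) or
`N / s ≥ n > |E| ≥ (1/2)(r²/16s²)(3θ/8) v = 3 θ r² v / (256 s²)`.

Now drop all short components: `F' = drop F (shortV F s)`.  `Long F' s'` for `2 s' ≤ 3 s` since the
remaining components have `2 csz ≥ 3 s`.  `free` loses at most `v` edges (every lost edge has an end in
`shortV F s`, and `M` is a matching), the support shrinks, so `val F' ≥ val F - v`.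
Finally `val F ≥ pot F ≥ pot F₁ ≥ val F₁ - lam N`, as `shortV F₁ s ⊆ F₁.support` has at most `N`
elements (`F₁.support ⊆ Gs.support`).
-/

namespace Pool.Agent.H40.CK

open SimpleGraph

variable {V : Type*}

/-- The vertices covered by a set of edges: at most two per edge. -/
theorem ncard_cover_le [Finite V] (E : Set (Sym2 V)) :
    ({z | ∃ e ∈ E, z ∈ e} : Set V).ncard ≤ 2 * E.ncard := by
  classical
  have hfin : E.Finite := Set.toFinite E
  have key : ∀ (S : Finset (Sym2 V)),
      ({z | ∃ e ∈ S, z ∈ e} : Set V).ncard ≤ 2 * S.card := by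
    intro S
    induction S using Finset.induction_on with
    | empty => simp
    | insert a S ha ih =>
      have h1 : ({z | ∃ e ∈ insert a S, z ∈ e} : Set V) ⊆
          {z | z ∈ a} ∪ {z | ∃ e ∈ S, z ∈ e} := by
        rintro z ⟨e, he, hz⟩
        rcases Finset.mem_insert.1 he with rfl | he
        · exact Or.inl hz
        · exact Or.inr ⟨e, he, hz⟩
      have h2 : ({z | z ∈ a} : Set V).ncard ≤ 2 := by
        induction a using Sym2.ind with
        | _ x y =>
          have : ({z | z ∈ s(x, y)} : Set V) = {x, y} := by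
            ext z; simp
          rw [this]
          exact (Set.ncard_insert_le _ _).trans (by simp)
      have h3 := Set.ncard_le_ncard h1 (Set.toFinite _)
      have h4 := Set.ncard_union_le ({z | z ∈ a} : Set V) {z | ∃ e ∈ S, z ∈ e}
      rw [Finset.card_insert_of_notMem ha]
      omega
  have := key hfin.toFinset
  rw [Set.ncard_eq_toFinset_card E hfin]
  simpa using this

/-- The number of edges of a matching touching `P` is at most `#P`. -/
theorem ncard_touch_le [Finite V] {M : SimpleGraph V} (hM : IsMatch M) (P : Set V) :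
    ({e | e ∈ M.edgeSet ∧ ∃ z ∈ e, z ∈ P} : Set (Sym2 V)).ncard ≤ P.ncard := by
  classical
  set A : Set (Sym2 V) := {e | e ∈ M.edgeSet ∧ ∃ z ∈ e, z ∈ P}
  have hA : ∀ e ∈ A, ∃ z, z ∈ e ∧ z ∈ P := fun e he => he.2
  let f : Sym2 V → V := fun e => if h : e ∈ A then (hA e h).choose else (Quot.out e).1
  have hf : ∀ e (h : e ∈ A), f e ∈ e ∧ f e ∈ P := by
    intro e h
    have : f e = (hA e h).choose := by simp only [f, dif_pos h]
    rw [this]
    exact (hA e h).choose_spec
  refine Set.ncard_le_ncard_of_injOn f (fun e he => (hf e he).2) ?_ (Set.toFinite _)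
  intro e he e' he' hee
  have h1 := (hf e he).1
  have h2 := (hf e' he').1
  rw [← hee] at h2
  obtain ⟨y, hy⟩ := Sym2.mem_iff_exists.1 h1
  obtain ⟨y', hy'⟩ := Sym2.mem_iff_exists.1 h2
  have h3 : M.Adj (f e) y := by
    have := he.1
    rw [hy] at this
    exact this
  have h4 : M.Adj (f e) y' := by
    have := he'.1
    rw [hy'] at this
    exact this
  have h5 := hM _ _ _ h3 h4
  rw [hy, hy', h5]

theorem shortV_closed {F : SimpleGraph V} {s : ℕ} :
    ∀ x y, F.Adj x y → x ∈ shortV F s → y ∈ shortV F s := by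
  rintro x y h ⟨-, hx⟩
  refine ⟨⟨x, h.symm⟩, ?_⟩
  have : csz F y = csz F x := by
    unfold csz
    congr 1
    ext w
    exact ⟨fun hw => h.reachable.trans hw, fun hw => h.symm.reachable.trans hw⟩
  rw [this]
  exact hx

theorem merge_step [Finite V] {Gs M F₁ : SimpleGraph V} {θ : ℝ} {s r s' N : ℕ} (hθ : 0 < θ)
    (hM : IsMatch M) (hMG : M ≤ Gs) (hpoor : PoorM Gs M (θ / 8)) (hN : Gs.support.ncard ≤ N)
    (hr : 1 ≤ r) (hrs : 4 * r ≤ s) (hs' : 2 * s' ≤ 3 * s) (hF : Adm Gs F₁ s) :
    ∃ F', Adm Gs F' s' ∧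
      val M F₁ θ - (2 * r / s + 86 * s / (θ * r ^ 2)) * N ≤ val M F' θ := by
  classical
  have hs : 1 ≤ s := by omega
  have hrR : (0 : ℝ) < r := by exact_mod_cast hr
  have hsR : (0 : ℝ) < s := by exact_mod_cast hs
  set lam : ℝ := 2 * r / s with hlam
  have hlam0 : 0 ≤ lam := by positivity
  -- maximiser
  obtain ⟨F, hFA, hmax⟩ := Set.exists_max_image {F : SimpleGraph V | Adm Gs F s}
    (fun F => pot M F θ lam s) (Set.toFinite _) ⟨F₁, hF⟩
  have hFA : Adm Gs F s := hFA
  have hmax : ∀ F', Adm Gs F' s → pot M F' θ lam s ≤ pot M F θ lam s := fun F' h => hmax F' h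
  have hsupp : ∀ {H : SimpleGraph V}, H ≤ Gs → H.support.ncard ≤ N := by
    intro H hH
    exact (Set.ncard_le_ncard (SimpleGraph.support_mono hH) (Set.toFinite _)).trans hN
  set v : ℕ := (shortV F s).ncard with hv
  -- the claim
  have hclaim : (v : ℝ) ≤ 86 * s / (θ * r ^ 2) * N := by
    by_contra hcon
    have hcon := not_le.1 hcon
    have hvpos : (0 : ℝ) < v := lt_of_le_of_lt (by positivity) hcon
    set U : Set V := extU M F s with hU
    have hUc : 3 * θ / 8 * (v : ℝ) ≤ (U.ncard : ℝ) :=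
      extU_card hθ.le hlam0 hM hpoor hFA hmax
    have hex : ∀ x ∈ U, ∃ y, M.Adj x y ∧ y ∈ F.support ∧ ¬ F.Reachable x y := fun x hx => hx.2
    let mate : V → V := fun x => if h : x ∈ U then (hex x h).choose else x
    have hmate : ∀ x ∈ U, M.Adj x (mate x) ∧ mate x ∈ F.support ∧ ¬ F.Reachable x (mate x) := by
      intro x hx
      have : mate x = (hex x hx).choose := by simp only [mate, dif_pos hx]
      rw [this]
      exact (hex x hx).choose_spec
    obtain ⟨n, B, hn, hUR⟩ := exists_blocks hFA.cyc hr hrs hFA.long U mate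
      (fun x hx => ⟨hx.1.1, (hmate x hx).2⟩)
    set UR : Set V := {x | x ∈ U ∧ (∃ β, ∃ i : ℤ, 0 ≤ i ∧ i < r ∧ B.seg β i = x) ∧
          (∃ β, ∃ i : ℤ, 0 ≤ i ∧ i < r ∧ B.seg β i = mate x)} with hURdef
    set E : Set (Sym2 V) := (fun x => s(x, mate x)) '' UR with hEdef
    have hE2 : UR.ncard ≤ 2 * E.ncard := by
      refine le_trans (Set.ncard_le_ncard ?_ (Set.toFinite _)) (ncard_cover_le E)
      intro x hx
      exact ⟨s(x, mate x), ⟨x, hx, rfl⟩, by simp⟩
    have hURpos : (0 : ℝ) < (UR.ncard : ℝ) := by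
      refine lt_of_lt_of_le ?_ hUR
      have : (0 : ℝ) < (U.ncard : ℝ) := lt_of_lt_of_le (by positivity) hUc
      positivity
    have hEpos : 0 < E.ncard := by
      have : 0 < UR.ncard := by exact_mod_cast hURpos
      omega
    have hEne : E.Nonempty := by
      rw [← Set.ncard_pos (Set.toFinite _)]
      exact hEpos
    have hnE : E.ncard < n := by
      by_contra hge
      push Not at hge
      obtain ⟨d, hdS, hdne, hdc, hd2⟩ := exists_switchData hM hrs B E hEne
        (by
          rintro e ⟨x, hx, rfl⟩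
          exact (hmate x hx.1).1)
        (by
          rintro e ⟨x, hx, rfl⟩ z hz
          simp only [Sym2.mem_iff] at hz
          rcases hz with rfl | rfl
          · exact hx.2.1
          · exact hx.2.2)
        (by
          rintro x y ⟨z, hz, hzz⟩ hreach
          simp only [Sym2.eq_iff] at hzz
          rcases hzz with ⟨rfl, rfl⟩ | ⟨rfl, rfl⟩
          · exact (hmate z hz.1).2.2 hreach
          · exact (hmate z hz.1).2.2 hreach.symm)
        hge
      obtain ⟨hA, hgain⟩ := switch_gain (Gs := Gs) (θ := θ) d hθ.le hM hMG hrs hs hFA hdne hdc hd2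
        (by
          intro e he
          obtain ⟨x, hx, rfl⟩ := hdS he
          exact ⟨x, by simp, hx.1.1⟩)
      exact absurd (hmax _ hA) (not_le.2 hgain)
    -- numerics
    have h1 : ((r : ℝ) / (4 * s)) ^ 2 * (3 * θ / 8 * (v : ℝ)) ≤ 2 * (n : ℝ) := by
      have h2 : (UR.ncard : ℝ) ≤ 2 * (E.ncard : ℝ) := by exact_mod_cast hE2
      have h3 : (E.ncard : ℝ) ≤ (n : ℝ) := by exact_mod_cast hnE.le
      have h4 : ((r : ℝ) / (4 * s)) ^ 2 * (3 * θ / 8 * (v : ℝ)) ≤
          ((r : ℝ) / (4 * s)) ^ 2 * (U.ncard : ℝ) :=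
        mul_le_mul_of_nonneg_left hUc (by positivity)
      linarith
    have h5 : (n : ℝ) * s ≤ N := by
      have : n * s ≤ N := hn.trans (hsupp hFA.le)
      exact_mod_cast this
    have h6 : 86 * (s : ℝ) * N < v * (θ * r ^ 2) := by
      have := hcon
      rw [div_mul_eq_mul_div, div_lt_iff₀ (by positivity)] at this
      exact this
    have h7 : (r : ℝ) ^ 2 * (3 * θ * v) ≤ 256 * s ^ 2 * n := by
      have h8 : ((r : ℝ) / (4 * s)) ^ 2 * (3 * θ / 8 * (v : ℝ)) =
          (r : ℝ) ^ 2 * (3 * θ * v) / (128 * s ^ 2) := by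
        field_simp
        ring
      rw [h8, div_le_iff₀ (by positivity)] at h1
      linarith
    have h9 : 256 * (s : ℝ) ^ 2 * n ≤ 256 * s * N := by
      have : 256 * (s : ℝ) ^ 2 * n = 256 * s * (n * s) := by ring
      rw [this]
      exact mul_le_mul_of_nonneg_left h5 (by positivity)
    have h10 : 0 ≤ (s : ℝ) * N := by positivity
    nlinarith
  -- drop the short components
  set P : Set V := shortV F s with hP
  have hPc : ∀ x y, F.Adj x y → x ∈ P → y ∈ P := shortV_closed
  refine ⟨drop F P, ⟨(drop_le F P).trans hFA.le, drop_isCycles hFA.cyc hPc, ?_⟩, ?_⟩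
  · intro x hx
    rw [drop_support hPc] at hx
    rw [csz_drop hPc hx.2]
    have : ¬ 2 * csz F x < 3 * s := fun h => hx.2 ⟨hx.1, h⟩
    omega
  · have hfree : (free M F).ncard ≤ (free M (drop F P)).ncard + v := by
      have h1 : free M F ⊆ free M (drop F P) ∪ {e | e ∈ M.edgeSet ∧ ∃ z ∈ e, z ∈ P} := by
        intro e he
        by_cases h : ∃ z ∈ e, z ∈ P
        · exact Or.inr ⟨he.1, h⟩
        · left
          rw [free_drop hPc]
          push Not at h
          exact ⟨he, h⟩
      have h2 := Set.ncard_le_ncard h1 (Set.toFinite _)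
      have h3 := Set.ncard_union_le (free M (drop F P)) {e | e ∈ M.edgeSet ∧ ∃ z ∈ e, z ∈ P}
      have h4 := ncard_touch_le hM P
      omega
    have hsup : (drop F P).support.ncard ≤ F.support.ncard :=
      Set.ncard_le_ncard (SimpleGraph.support_mono (drop_le F P)) (Set.toFinite _)
    have hfree' : ((free M F).ncard : ℝ) ≤ ((free M (drop F P)).ncard : ℝ) + v := by
      exact_mod_cast hfree
    have hsup' : ((drop F P).support.ncard : ℝ) ≤ (F.support.ncard : ℝ) := by exact_mod_cast hsup
    have h1 : val M F θ - v ≤ val M (drop F P) θ := by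
      unfold val
      nlinarith
    have h2 := hmax F₁ hF
    have h3 : ((shortV F₁ s).ncard : ℝ) ≤ N := by
      have : (shortV F₁ s).ncard ≤ N :=
        (Set.ncard_le_ncard (fun x hx => hx.1) (Set.toFinite _)).trans (hsupp hF.le)
      exact_mod_cast this
    have h4 : lam * ((shortV F₁ s).ncard : ℝ) ≤ lam * N := mul_le_mul_of_nonneg_left h3 hlam0
    have h5 : 0 ≤ lam * ((shortV F s).ncard : ℝ) := by positivity
    unfold pot at h2
    have h6 : (lam + 86 * s / (θ * r ^ 2)) * (N : ℝ) = lam * N + 86 * s / (θ * r ^ 2) * N := by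
      ring
    rw [h6]
    linarith

end Pool.Agent.H40.CK
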