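import Pool.Agent.H40.CK.A7

/-!
# CK / A8: Theorem A

Suppose no such cycle exists, i.e. `PoorM Gs M (θ/8)`, `Gs = F₀ ⊔ M`, and let
`N = |F₀.support| = |Gs.support|` (as `M.support ⊆ F₀.support`).
`F₀` is admissible at scale `s₀`, `free M F₀ = M.edgeSet` (`M` and `F₀` are disjoint), so
`val F₀ ≥ θ N - θ N / 2 = θ N / 2 > 0`.
Let `s_{i+1} = 3 s_i / 2` (rounded down) and `r_i = ⌈r₀ (5/4)^i⌉`, `r₀ = θ s₀ / 96`.
Bounds: `(s₀ - 1)(3/2)^i ≤ s_i ≤ s₀ (3/2)^i`, `r₀ (5/4)^i ≤ r_i ≤ 2 r₀ (5/4)^i` (`r₀ ≥ 1`),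
`4 r_i ≤ s_i`.  Iterating `merge_step` gives admissible `F_i` at scale `s_i` with
`val F_i ≥ θ N / 2 - N ∑_{j<i} (2 r_j / s_j + 86 s_j / (θ r_j²))`.
`∑ 2 r_j / s_j ≤ (4 r₀ / (s₀ - 1)) ∑ (5/6)^j ≤ 24 r₀ / (s₀ - 1) ≤ 0.26 θ` and
`∑ 86 s_j / (θ r_j²) ≤ (86 s₀ / (θ r₀²)) ∑ (24/25)^j = 2150 s₀ / (θ r₀²)
 = 2150 · 96² / (θ³ s₀) ≤ 0.2 θ` because `s₀ ≥ 10^8 / θ^4`.
So `val F_i > 0` for all `i`, hence `F_i.support` is nonempty.  But `Long F_i s_i` gives a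
component with at least `s_i` vertices, impossible once `s_i > |V|`.
-/

namespace Pool.Agent.H40.CK

open SimpleGraph

variable {V : Type*}

/-- The scales. -/
def scl (s₀ : ℕ) : ℕ → ℕ
  | 0 => s₀
  | i + 1 => 3 * scl s₀ i / 2

theorem scl_upper (s₀ i : ℕ) : (scl s₀ i : ℝ) ≤ s₀ * (3 / 2) ^ i := by
  induction i with
  | zero => simp [scl]
  | succ i ih =>
    have h1 : ((3 * scl s₀ i / 2 : ℕ) : ℝ) ≤ ((3 * scl s₀ i : ℕ) : ℝ) / 2 := Nat.cast_div_le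
    have h2 : (scl s₀ (i + 1) : ℝ) = ((3 * scl s₀ i / 2 : ℕ) : ℝ) := rfl
    rw [h2, pow_succ]
    push_cast at h1 ⊢
    linarith

theorem scl_lower (s₀ i : ℕ) : ((s₀ : ℝ) - 1) * (3 / 2) ^ i ≤ (scl s₀ i : ℝ) - 1 := by
  induction i with
  | zero => simp [scl]
  | succ i ih =>
    have h1 : 3 * scl s₀ i ≤ 2 * (3 * scl s₀ i / 2) + 1 := by omega
    have h2 : (scl s₀ (i + 1) : ℝ) = ((3 * scl s₀ i / 2 : ℕ) : ℝ) := rfl
    have h3 : ((3 * scl s₀ i : ℕ) : ℝ) ≤ ((2 * (3 * scl s₀ i / 2) + 1 : ℕ) : ℝ) := by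
      exact_mod_cast h1
    rw [h2, pow_succ]
    push_cast at h3 ⊢
    linarith

theorem scl_add (s₀ i : ℕ) (h : 2 ≤ s₀) : s₀ + i ≤ scl s₀ i := by
  induction i with
  | zero => simp [scl]
  | succ i ih =>
    have h2 : scl s₀ (i + 1) = 3 * scl s₀ i / 2 := rfl
    omega

theorem theoremA [Finite V] (F₀ M : SimpleGraph V) (θ : ℝ) (hθ : 0 < θ) (hθ1 : θ ≤ 1) (s₀ : ℕ)
    (hF : F₀.IsCycles) (hM : IsMatch M) (hdisj : ∀ x y, M.Adj x y → ¬ F₀.Adj x y)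
    (hsupp : M.support ⊆ F₀.support) (hne : F₀.support.Nonempty)
    (hdens : θ * (F₀.support.ncard : ℝ) ≤ (M.edgeSet.ncard : ℝ)) (hlong : Long F₀ s₀)
    (hs₀ : 10 ^ 8 / θ ^ 4 ≤ (s₀ : ℝ)) :
    ∃ (u : V) (C : (F₀ ⊔ M).Walk u u), C.IsCycle ∧ θ / 8 * (C.length : ℝ) ≤
      (({e | e ∈ M.edgeSet ∧ e ∉ C.edges ∧ ∀ z ∈ e, z ∈ C.support} : Set (Sym2 V)).ncard : ℝ) := by
  by_contra hcon
  have hpoor : PoorM (F₀ ⊔ M) M (θ / 8) := by
    intro u C hC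
    by_contra h
    exact hcon ⟨u, C, hC, not_lt.1 h⟩
  set N := F₀.support.ncard with hNdef
  have hN1 : 1 ≤ N := (Set.ncard_pos (Set.toFinite _)).2 hne
  have hN1' : (1 : ℝ) ≤ (N : ℝ) := by exact_mod_cast hN1
  have hNle : (F₀ ⊔ M).support.ncard ≤ N := by
    refine Set.ncard_le_ncard ?_ (Set.toFinite _)
    rintro v ⟨w, hw⟩
    rcases hw with h | h
    · exact ⟨w, h⟩
    · exact hsupp ⟨w, h⟩
  -- numerical facts
  have hθ4 : (0 : ℝ) < θ ^ 4 := by positivity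
  have hθ4' : θ ^ 4 ≤ 1 := pow_le_one₀ hθ.le hθ1
  have hθ3 : (0 : ℝ) < θ ^ 3 := by positivity
  have hs4 : (10 : ℝ) ^ 8 ≤ s₀ * θ ^ 4 := by
    rwa [div_le_iff₀ hθ4] at hs₀
  have hs8 : (10 : ℝ) ^ 8 ≤ s₀ := by
    have : (s₀ : ℝ) * θ ^ 4 ≤ s₀ * 1 := mul_le_mul_of_nonneg_left hθ4' (Nat.cast_nonneg _)
    linarith
  have hs0pos : (0 : ℝ) < s₀ := by linarith
  have hθs : (10 : ℝ) ^ 8 ≤ θ * s₀ := by
    have h1 : θ ^ 4 ≤ θ := by
      calc θ ^ 4 = θ * θ ^ 3 := by ring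
        _ ≤ θ * 1 := mul_le_mul_of_nonneg_left (pow_le_one₀ hθ.le hθ1) hθ.le
        _ = θ := mul_one _
    have : (s₀ : ℝ) * θ ^ 4 ≤ s₀ * θ := mul_le_mul_of_nonneg_left h1 hs0pos.le
    linarith [mul_comm (s₀ : ℝ) θ]
  have hs₀2 : 2 ≤ s₀ := by
    have h : (2 : ℝ) ≤ (s₀ : ℝ) := by linarith
    exact_mod_cast h
  set r₀ : ℝ := θ * s₀ / 96 with hr₀
  have hr₀1 : 1 ≤ r₀ := by rw [hr₀]; linarith
  have hr₀pos : 0 < r₀ := by linarith
  set r : ℕ → ℕ := fun i => ⌈r₀ * (5 / 4) ^ i⌉₊ with hr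
  have h54 : ∀ i : ℕ, (1 : ℝ) ≤ (5 / 4) ^ i := fun i => one_le_pow₀ (by norm_num)
  have hrl : ∀ i, r₀ * (5 / 4) ^ i ≤ (r i : ℝ) := fun i => Nat.le_ceil _
  have hru : ∀ i, (r i : ℝ) ≤ 2 * r₀ * (5 / 4) ^ i := by
    intro i
    have h1 : (r i : ℝ) < r₀ * (5 / 4) ^ i + 1 := Nat.ceil_lt_add_one (by positivity)
    have h2 : 1 * 1 ≤ r₀ * (5 / 4) ^ i := mul_le_mul hr₀1 (h54 i) zero_le_one hr₀pos.le
    linarith
  have hr1 : ∀ i, 1 ≤ r i := by
    intro i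
    have h1 := hrl i
    have h2 : 1 * 1 ≤ r₀ * (5 / 4) ^ i := mul_le_mul hr₀1 (h54 i) zero_le_one hr₀pos.le
    have h3 : (1 : ℝ) ≤ (r i : ℝ) := by linarith
    exact_mod_cast h3
  have hrs : ∀ i, 4 * r i ≤ scl s₀ i := by
    intro i
    have h1 := hru i
    have h2 := scl_lower s₀ i
    have h3 : ((5 : ℝ) / 4) ^ i ≤ (3 / 2) ^ i := pow_le_pow_left₀ (by norm_num) (by norm_num) i
    have h4 : 4 * (r i : ℝ) ≤ s₀ / 12 * (3 / 2) ^ i := by
      calc 4 * (r i : ℝ) ≤ 4 * (2 * r₀ * (5 / 4) ^ i) := by linarith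
        _ = θ * s₀ / 12 * (5 / 4) ^ i := by rw [hr₀]; ring
        _ ≤ 1 * s₀ / 12 * (3 / 2) ^ i := by
          refine mul_le_mul ?_ h3 (by positivity) (by positivity)
          have := mul_le_mul_of_nonneg_right hθ1 hs0pos.le
          linarith
        _ = s₀ / 12 * (3 / 2) ^ i := by ring
    have h5 : (s₀ : ℝ) / 12 * (3 / 2) ^ i ≤ ((s₀ : ℝ) - 1) * (3 / 2) ^ i := by
      refine mul_le_mul_of_nonneg_right ?_ (by positivity)
      linarith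
    have h6 : ((4 * r i : ℕ) : ℝ) ≤ (scl s₀ i : ℝ) := by push_cast; linarith
    exact_mod_cast h6
  -- iteration
  have iter : ∀ i : ℕ, ∃ F, Adm (F₀ ⊔ M) F (scl s₀ i) ∧
      θ * N / 2 - N * ∑ j ∈ Finset.range i, (2 * (r j : ℝ) / (scl s₀ j : ℝ) +
        86 * (scl s₀ j : ℝ) / (θ * (r j : ℝ) ^ 2)) ≤ val M F θ := by
    intro i
    induction i with
    | zero =>
      refine ⟨F₀, ⟨le_sup_left, hF, hlong⟩, ?_⟩
      have hfree : free M F₀ = M.edgeSet := by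
        ext e
        refine ⟨fun h => h.1, fun h => ⟨h, ?_, ?_⟩⟩
        · induction e using Sym2.ind with
          | _ x y => exact fun h2 => hdisj x y h h2
        · intro z hz
          refine hsupp ?_
          induction e using Sym2.ind with
          | _ x y =>
            rw [Sym2.mem_iff] at hz
            rcases hz with rfl | rfl
            · exact ⟨y, h⟩
            · exact ⟨x, (mem_edgeSet M).1 h |>.symm⟩
      unfold val
      rw [hfree]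
      simp only [Finset.range_zero, Finset.sum_empty, mul_zero, sub_zero]
      linarith
    | succ i ih =>
      obtain ⟨F, hadm, hval⟩ := ih
      obtain ⟨F', hadm', hval'⟩ := merge_step (s' := scl s₀ (i + 1)) hθ hM le_sup_right hpoor hNle
        (hr1 i) (hrs i) (by
          have h2 : scl s₀ (i + 1) = 3 * scl s₀ i / 2 := rfl
          omega) hadm
      refine ⟨F', hadm', ?_⟩
      rw [Finset.sum_range_succ, mul_add]
      linarith
  -- the losses are summable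
  have hloss : ∀ i : ℕ, ∑ j ∈ Finset.range i, (2 * (r j : ℝ) / (scl s₀ j : ℝ) +
        86 * (scl s₀ j : ℝ) / (θ * (r j : ℝ) ^ 2)) ≤ 46 / 100 * θ := by
    intro i
    have hgeo : ∀ (x : ℝ), 0 ≤ x → x < 1 → ∀ i : ℕ, ∑ j ∈ Finset.range i, x ^ j ≤ 1 / (1 - x) := by
      intro x hx0 hx1 i
      have h1 : ∑ j ∈ Finset.range i, x ^ j = (1 - x ^ i) / (1 - x) := by
        rw [geom_sum_eq (by linarith)]
        rw [← neg_div_neg_eq]
        ring
      rw [h1]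
      refine div_le_div_of_nonneg_right ?_ (by linarith)
      have := pow_nonneg hx0 i
      linarith
    have hs1 : (0 : ℝ) < s₀ - 1 := by linarith
    have hA : ∀ j, 2 * (r j : ℝ) / (scl s₀ j : ℝ) ≤ 4 * r₀ / (s₀ - 1) * (5 / 6) ^ j := by
      intro j
      have h1 := hru j
      have h2 : ((s₀ : ℝ) - 1) * (3 / 2) ^ j ≤ (scl s₀ j : ℝ) := by linarith [scl_lower s₀ j]
      have h3 : (0 : ℝ) < ((s₀ : ℝ) - 1) * (3 / 2) ^ j := by positivity
      calc 2 * (r j : ℝ) / (scl s₀ j : ℝ) ≤ 2 * (2 * r₀ * (5 / 4) ^ j) / (((s₀ : ℝ) - 1) * (3 / 2) ^ j) := by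
            refine div_le_div₀ (by positivity) (by linarith) h3 h2
        _ = 4 * r₀ / (s₀ - 1) * ((5 / 4) ^ j / (3 / 2) ^ j) := by
            field_simp
            ring
        _ = 4 * r₀ / (s₀ - 1) * (5 / 6) ^ j := by
            rw [← div_pow]
            norm_num
    have hB : ∀ j, 86 * (scl s₀ j : ℝ) / (θ * (r j : ℝ) ^ 2) ≤
        86 * s₀ / (θ * r₀ ^ 2) * (24 / 25) ^ j := by
      intro j
      have h1 := hrl j
      have h2 := scl_upper s₀ j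
      have h3 : (0 : ℝ) < θ * (r₀ * (5 / 4) ^ j) ^ 2 := by positivity
      have h4 : θ * (r₀ * (5 / 4) ^ j) ^ 2 ≤ θ * (r j : ℝ) ^ 2 :=
        mul_le_mul_of_nonneg_left (pow_le_pow_left₀ (by positivity) h1 2) hθ.le
      calc 86 * (scl s₀ j : ℝ) / (θ * (r j : ℝ) ^ 2)
          ≤ 86 * (s₀ * (3 / 2) ^ j) / (θ * (r₀ * (5 / 4) ^ j) ^ 2) := by
            refine div_le_div₀ (by positivity) (by linarith) h3 h4
        _ = 86 * s₀ / (θ * r₀ ^ 2) * ((3 / 2) ^ j / ((5 / 4) ^ j) ^ 2) := by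
            field_simp
        _ = 86 * s₀ / (θ * r₀ ^ 2) * (24 / 25) ^ j := by
            rw [← pow_mul, mul_comm j 2, pow_mul, ← div_pow]
            norm_num
    have hA' : 4 * r₀ / ((s₀ : ℝ) - 1) * (1 / (1 - 5 / 6)) ≤ 26 / 100 * θ := by
      rw [hr₀]
      have e : 4 * (θ * s₀ / 96) / ((s₀ : ℝ) - 1) * (1 / (1 - 5 / 6)) = θ * s₀ / 4 / (s₀ - 1) := by
        field_simp
        norm_num
      rw [e, div_le_iff₀ hs1]
      nlinarith
    have hB' : 86 * s₀ / (θ * r₀ ^ 2) * (1 / (1 - 24 / 25)) ≤ 20 / 100 * θ := by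
      have e : 86 * s₀ / (θ * r₀ ^ 2) * (1 / (1 - 24 / 25)) = 19814400 / (θ ^ 3 * s₀) := by
        rw [hr₀]
        field_simp
        norm_num
      rw [e, div_le_iff₀ (by positivity)]
      have : 20 / 100 * θ * (θ ^ 3 * s₀) = 20 / 100 * (s₀ * θ ^ 4) := by ring
      rw [this]
      linarith
    calc ∑ j ∈ Finset.range i, (2 * (r j : ℝ) / (scl s₀ j : ℝ) +
        86 * (scl s₀ j : ℝ) / (θ * (r j : ℝ) ^ 2))
        ≤ ∑ j ∈ Finset.range i, (4 * r₀ / (s₀ - 1) * (5 / 6) ^ j +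
          86 * s₀ / (θ * r₀ ^ 2) * (24 / 25) ^ j) :=
          Finset.sum_le_sum fun j _ => add_le_add (hA j) (hB j)
      _ = 4 * r₀ / (s₀ - 1) * ∑ j ∈ Finset.range i, (5 / 6 : ℝ) ^ j +
          86 * s₀ / (θ * r₀ ^ 2) * ∑ j ∈ Finset.range i, (24 / 25 : ℝ) ^ j := by
          rw [Finset.sum_add_distrib, Finset.mul_sum, Finset.mul_sum]
      _ ≤ 4 * r₀ / (s₀ - 1) * (1 / (1 - 5 / 6)) + 86 * s₀ / (θ * r₀ ^ 2) * (1 / (1 - 24 / 25)) := by
          refine add_le_add ?_ ?_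
          · exact mul_le_mul_of_nonneg_left (hgeo _ (by norm_num) (by norm_num) i) (by positivity)
          · exact mul_le_mul_of_nonneg_left (hgeo _ (by norm_num) (by norm_num) i) (by positivity)
      _ ≤ 46 / 100 * θ := by linarith
  -- conclusion
  obtain ⟨F, hadm, hval⟩ := iter (Nat.card V)
  have h1 := hloss (Nat.card V)
  have h2 : (0 : ℝ) < val M F θ := by
    have h3 : (N : ℝ) * ∑ j ∈ Finset.range (Nat.card V), (2 * (r j : ℝ) / (scl s₀ j : ℝ) +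
        86 * (scl s₀ j : ℝ) / (θ * (r j : ℝ) ^ 2)) ≤ N * (46 / 100 * θ) :=
      mul_le_mul_of_nonneg_left h1 (by positivity)
    have h4 : 0 < θ * (N : ℝ) := by positivity
    linarith
  have h3 : (free M F).Nonempty := by
    rw [Set.nonempty_iff_ne_empty]
    intro h
    unfold val at h2
    rw [h] at h2
    simp only [Set.ncard_empty, Nat.cast_zero, zero_sub] at h2
    have : 0 ≤ θ / 2 * (F.support.ncard : ℝ) := by positivity
    linarith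
  obtain ⟨e, he⟩ := h3
  have h4 : ∃ v, v ∈ F.support := by
    induction e using Sym2.ind with
    | _ x y => exact ⟨x, he.2.2 x (Sym2.mem_mk_left x y)⟩
  obtain ⟨v, hv⟩ := h4
  have h5 := hadm.long v hv
  have h6 : csz F v ≤ Nat.card V := by
    unfold csz
    exact (Set.ncard_le_ncard (Set.subset_univ _) (Set.toFinite _)).trans
      (Set.ncard_univ V).le
  have h7 := scl_add s₀ (Nat.card V) hs₀2
  omega

end Pool.Agent.H40.CK
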