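import Pool.Agent.H40.CK.Basic

/-!
# CK / B1: graphs with at most two vertices of degree two have a cycle with a chord

Take a longest path `v_0, ..., v_k` of `G` (`k ≥ 1` since `G` has an edge); all neighbours of `v_0` lie
on it.  `deg v_0 ≥ 2`.  If `v_0` has three neighbours `v_1, v_i, v_j`, `1 < i < j`, the cycle
`v_0 ... v_j` has the chord `v_0 v_i`: done.  So `deg v_0 = 2`, the neighbours are `v_1` and `v_i` with `i ≥ 2`.
The path `v_{i-1}, ..., v_0, v_i, ..., v_k` is also longest, so (as before) `deg v_{i-1} = 2` or we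
are done.  By symmetry `deg v_k = 2`.  The vertices `v_0`, `v_{i-1}`, `v_k` are distinct
(`1 ≤ i-1 < k`), contradicting that at most two vertices of `G.support` have degree two.
The length of a cycle is at most `G.support.ncard`.
-/

namespace Pool.Agent.H40.CK

open SimpleGraph

variable {V : Type*}

private theorem b1_length_le [Finite V] {G : SimpleGraph V} {u : V} {C : G.Walk u u}
    (hC : C.IsCycle) : C.length ≤ G.support.ncard := by
  classical
  have h1 : C.support.tail.Nodup := hC.support_nodup
  have h2 : C.support.tail.length = C.length := by simp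
  have h3 : (C.support.tail.toFinset : Set V) ⊆ G.support := by
    intro w hw
    rw [Finset.mem_coe, List.mem_toFinset, ← Walk.map_snd_darts, List.mem_map] at hw
    obtain ⟨d, -, rfl⟩ := hw
    exact ⟨d.fst, d.adj.symm⟩
  rw [← h2, ← List.toFinset_card_of_nodup h1, ← Set.ncard_coe_finset]
  exact Set.ncard_le_ncard h3 (Set.toFinite _)

private theorem b1_chord [Finite V] {G : SimpleGraph V} {a b : V} {p : G.Walk a b} (hp : p.IsPath)
    {i j : ℕ} (hi : 1 < i) (hij : i < j) (hj : j ≤ p.length) (hai : G.Adj a (p.getVert i))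
    (haj : G.Adj a (p.getVert j)) : ShortChorded G G.support.ncard := by
  have hinj := hp.getVert_injOn
  have key : ∀ l, 1 < l → l ≤ p.length → s(a, p.getVert l) ∉ (p.take j).edges := by
    intro l hl hlp he
    have h1 := (hp.take j).eq_snd_of_mem_edges he
    have h2 : (p.take j).snd = p.getVert 1 := by
      show (p.take j).getVert 1 = _
      rw [Walk.take_getVert, Nat.min_eq_right (by omega)]
    rw [h2] at h1
    have := hinj (show l ≤ p.length from hlp) (show 1 ≤ p.length by omega) h1
    omega
  have hC : (Walk.cons haj.symm (p.take j)).IsCycle := by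
    rw [Walk.cons_isCycle_iff]
    refine ⟨hp.take j, ?_⟩
    rw [Sym2.eq_swap]
    exact key j (by omega) hj
  refine ⟨_, _, hC, b1_length_le hC, s(a, p.getVert i), hai, ?_, ?_⟩
  · rw [Walk.edges_cons, List.mem_cons, not_or]
    refine ⟨?_, key i hi (by omega)⟩
    intro h
    rw [Sym2.eq_iff] at h
    rcases h with ⟨h, -⟩ | ⟨-, h⟩
    · exact haj.ne h
    · have := hinj (show i ≤ p.length by omega) (show j ≤ p.length from hj) h
      omega
  · intro z hz
    rw [Walk.support_cons, List.mem_cons]
    right
    rw [Sym2.mem_iff] at hz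
    rcases hz with rfl | rfl
    · exact Walk.start_mem_support _
    · have : (p.take j).getVert i = p.getVert i := by
        rw [Walk.take_getVert, Nat.min_eq_right hij.le]
      rw [← this]
      exact Walk.getVert_mem_support _ _

/-- a path of maximal length -/
private def Longest (G : SimpleGraph V) {a b : V} (p : G.Walk a b) : Prop :=
  p.IsPath ∧ ∀ (c d : V) (q : G.Walk c d), q.IsPath → q.length ≤ p.length

private theorem exists_longest [Finite V] (G : SimpleGraph V) (hne : G.support.Nonempty) :
    ∃ (a b : V) (p : G.Walk a b), Longest G p ∧ 1 ≤ p.length := by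
  classical
  have := Fintype.ofFinite V
  obtain ⟨v, w, hvw⟩ := hne
  set S : Set ℕ := {n | ∃ (a b : V) (p : G.Walk a b), p.IsPath ∧ p.length = n} with hS
  have hb : BddAbove S := by
    refine ⟨Fintype.card V, ?_⟩
    rintro n ⟨a, b, p, hp, rfl⟩
    exact hp.length_lt.le
  have h1 : 1 ∈ S := ⟨v, w, hvw.toWalk, by simp [hvw.ne], by simp⟩
  obtain ⟨a, b, p, hp, hn⟩ := Nat.sSup_mem ⟨1, h1⟩ hb
  refine ⟨a, b, p, ⟨hp, fun c d q hq => ?_⟩, ?_⟩
  · rw [hn]; exact le_csSup hb ⟨c, d, q, hq, rfl⟩
  · rw [hn]; exact le_csSup hb h1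

private theorem longest_reverse {G : SimpleGraph V} {a b : V} {p : G.Walk a b}
    (h : Longest G p) : Longest G p.reverse :=
  ⟨h.1.reverse, fun c d q hq => by rw [Walk.length_reverse]; exact h.2 c d q hq⟩

/-- The start of a longest path. -/
private theorem start_deg [Finite V] {G : SimpleGraph V}
    (h2 : ∀ v ∈ G.support, 2 ≤ (G.neighborSet v).ncard) {a b : V} {p : G.Walk a b}
    (h : Longest G p) (hp1 : 1 ≤ p.length) : ShortChorded G G.support.ncard ∨
      ((G.neighborSet a).ncard = 2 ∧ ∃ i, 2 ≤ i ∧ i ≤ p.length ∧ G.Adj a (p.getVert i)) := by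
  classical
  have hnb : ∀ w, G.Adj a w → ∃ i, 1 ≤ i ∧ i ≤ p.length ∧ p.getVert i = w := by
    intro w hw
    have hwp : w ∈ p.support := by
      by_contra hwp
      have h3 : (Walk.cons hw.symm p).IsPath := by
        rw [Walk.cons_isPath_iff]; exact ⟨h.1, hwp⟩
      have h4 := h.2 _ _ _ h3
      rw [Walk.length_cons] at h4
      omega
    rw [Walk.mem_support_iff_exists_getVert] at hwp
    obtain ⟨i, hi, hil⟩ := hwp
    refine ⟨i, ?_, hil, hi⟩
    rcases Nat.eq_zero_or_pos i with h0 | h0
    · subst h0
      rw [Walk.getVert_zero] at hi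
      exact absurd hi hw.ne
    · exact h0
  have hadj1 : G.Adj a (p.getVert 1) := by
    have := p.adj_getVert_succ (i := 0) (by omega)
    rwa [Walk.getVert_zero] at this
  have hdeg := h2 a ⟨_, hadj1⟩
  have hdiff : (G.neighborSet a \ {p.getVert 1}).ncard = (G.neighborSet a).ncard - 1 :=
    Set.ncard_sdiff_singleton_of_mem hadj1
  have hnb2 : ∀ w ∈ G.neighborSet a \ {p.getVert 1}, ∃ i, 2 ≤ i ∧ i ≤ p.length ∧
      p.getVert i = w := by
    rintro w ⟨hw, hw1⟩
    obtain ⟨i, h1, hl, rfl⟩ := hnb w hw
    refine ⟨i, ?_, hl, rfl⟩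
    rcases Nat.lt_or_ge i 2 with h | h
    · have : i = 1 := by omega
      subst this
      exact absurd rfl hw1
    · exact h
  rcases Nat.lt_or_ge 2 (G.neighborSet a).ncard with h3 | h3
  · left
    have h4 : 1 < (G.neighborSet a \ {p.getVert 1}).ncard := by omega
    rw [Set.one_lt_ncard_iff (Set.toFinite _)] at h4
    obtain ⟨x, y, hx, hy, hxy⟩ := h4
    obtain ⟨i, hi2, hil, rfl⟩ := hnb2 x hx
    obtain ⟨j, hj2, hjl, rfl⟩ := hnb2 y hy
    rcases lt_trichotomy i j with hij | hij | hij
    · exact b1_chord h.1 (by omega) hij hjl hx.1 hy.1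
    · exact absurd (by rw [hij]) hxy
    · exact b1_chord h.1 (by omega) hij hil hy.1 hx.1
  · right
    refine ⟨by omega, ?_⟩
    have h4 : 0 < (G.neighborSet a \ {p.getVert 1}).ncard := by omega
    rw [Set.ncard_pos] at h4
    obtain ⟨x, hx⟩ := h4
    obtain ⟨i, hi2, hil, rfl⟩ := hnb2 x hx
    exact ⟨i, hi2, hil, hx.1⟩

/-- rotating a longest path -/
private theorem rotate {G : SimpleGraph V} {a b : V} {p : G.Walk a b} (h : Longest G p) {i : ℕ}
    (hi : 1 ≤ i) (hil : i ≤ p.length) (hadj : G.Adj a (p.getVert i)) :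
    ∃ q : G.Walk (p.getVert (i - 1)) b, Longest G q ∧ 1 ≤ q.length := by
  refine ⟨(p.take (i - 1)).reverse.append (Walk.cons hadj (p.drop i)), ⟨?_, ?_⟩, ?_⟩
  · rw [Walk.isPath_def, Walk.support_append, Walk.support_reverse, Walk.support_cons,
      List.tail_cons, Walk.support_take, Walk.drop_support_eq_support_drop_min,
      Nat.min_eq_left hil, Nat.sub_add_cancel hi]
    have hperm : ((p.support.take i).reverse ++ p.support.drop i).Perm p.support := by
      calc ((p.support.take i).reverse ++ p.support.drop i).Perm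
            (p.support.take i ++ p.support.drop i) := (List.reverse_perm _).append_right _
        _ = p.support := List.take_append_drop _ _
    rw [hperm.nodup_iff]
    exact h.1.support_nodup
  · intro c d q hq
    have := h.2 c d q hq
    rw [Walk.length_append, Walk.length_reverse, Walk.length_cons, Walk.take_length,
      Walk.drop_length]
    omega
  · rw [Walk.length_append, Walk.length_cons]; omega

theorem chorded_of_degrees [Finite V] (G : SimpleGraph V) (hne : G.support.Nonempty)
    (h2 : ∀ v ∈ G.support, 2 ≤ (G.neighborSet v).ncard)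
    (h3 : ({v | v ∈ G.support ∧ (G.neighborSet v).ncard = 2} : Set V).ncard ≤ 2) :
    ShortChorded G G.support.ncard := by
  classical
  obtain ⟨a, b, p, hp, hp1⟩ := exists_longest G hne
  rcases start_deg h2 hp hp1 with h | ⟨ha, i, hi2, hil, hadj⟩
  · exact h
  rcases start_deg h2 (longest_reverse hp) (by rwa [Walk.length_reverse]) with h | ⟨hb, -⟩
  · exact h
  obtain ⟨q, hq, hq1⟩ := rotate hp (by omega) hil hadj
  rcases start_deg h2 hq hq1 with h | ⟨hc, -⟩
  · exact h
  exfalso
  have hinj := hp.1.getVert_injOn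
  have hsup : ∀ v, (G.neighborSet v).ncard = 2 → v ∈ G.support := by
    intro v hv
    have : 0 < (G.neighborSet v).ncard := by omega
    rw [Set.ncard_pos] at this
    obtain ⟨w, hw⟩ := this
    exact ⟨w, hw⟩
  have n1 : a ≠ b := by
    intro hab
    have := hinj (show 0 ≤ p.length by omega) (show p.length ≤ p.length from le_rfl)
      (by rw [Walk.getVert_zero, Walk.getVert_length, hab])
    omega
  have n2 : a ≠ p.getVert (i - 1) := by
    intro hab
    have := hinj (show 0 ≤ p.length by omega) (show i - 1 ≤ p.length by omega)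
      (by rw [Walk.getVert_zero]; exact hab)
    omega
  have n3 : b ≠ p.getVert (i - 1) := by
    intro hab
    have := hinj (show p.length ≤ p.length from le_rfl) (show i - 1 ≤ p.length by omega)
      (by rw [Walk.getVert_length]; exact hab)
    omega
  have hsub : ({a, b, p.getVert (i - 1)} : Set V) ⊆
      {v | v ∈ G.support ∧ (G.neighborSet v).ncard = 2} := by
    intro v hv
    rcases hv with rfl | rfl | rfl
    · exact ⟨hsup _ ha, ha⟩
    · exact ⟨hsup _ hb, hb⟩
    · exact ⟨hsup _ hc, hc⟩
  have hcard : ({a, b, p.getVert (i - 1)} : Set V).ncard = 3 := by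
    rw [Set.ncard_eq_three]
    exact ⟨a, b, p.getVert (i - 1), n1, n2, n3, rfl⟩
  have := Set.ncard_le_ncard hsub (Set.toFinite _)
  omega

end Pool.Agent.H40.CK
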