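import Pool.Agent.H40.CK.Basic

/-!
# CK / B10: a random even subgraph

Let `𝒞` be the (finite) set of graphs `F ≤ H` all of whose degrees are even.  It is closed under `symmDiff`
(`SimpleGraph V` is a Boolean algebra; degree of `F ∆ F'` at `v` is `|A ∆ B|`).  As `H` has degrees
`≤ 3`, all degrees of `F ∈ 𝒞` are `0` or `2`, so `F.IsCycles`.  The edge set of a cycle of `H` (as a graph,
`C.toSubgraph.spanningCoe`, see `Walk.IsCycle.isCycles_spanningCoe_toSubgraph`) is in `𝒞`.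

(1) For `e₁, e₂, e₃` and `F₀ ∈ 𝒞` at least `|𝒞| / 8` of the `F ∈ 𝒞` agree with `F₀` on `{e₁, e₂, e₃}`:
    the map `𝒞 → Bool³` (membership of `e₁, e₂, e₃`) has at most 8 values and every nonempty
    fibre has the same size as the fibre of `F₀` (translate by `F' ∆ F₀`).
(2) For `e = s(u, v) ∈ 𝒢` there is `F₀ ∈ 𝒞` with `e ∉ F₀` and `u, v ∈ F₀.support`, and whether
    `F ∈ 𝒞` satisfies `e ∉ F ∧ u, v ∈ F.support` is implied by agreement with `F₀` on three edges
    (`e`, an edge `a ≠ e` of `F₀` at `u`, an edge `b ≠ e` of `F₀` at `v`).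
    Existence.  It suffices to find `X, Y ∈ 𝒞` with `e ∉ X`, `u ∈ X.support`, `e ∉ Y`, `v ∈ Y.support`:
    if `v ∈ X.support` take `X`; if `u ∈ Y.support` take `Y`; otherwise `X ∆ Y` (at `u` it has the edges of `X`).
    If `e ∉ H`: take for `X` a cycle of `H` through `u`.
    If `e ∈ H` and `u` has three `H`-edges `e, a, a'`: let `Z_a`, `Z_{a'}` be cycles of `H` containing `a`,
    `a'`.  If `e ∉ Z_a` or `e ∉ Z_{a'}` take that one.  Otherwise `Z_a` has exactly the edges `a, e` at `u` and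
    `Z_{a'}` has exactly `a', e`; `X = Z_a ∆ Z_{a'}` has the edges `a, a'` at `u` and not `e`.
(3) Double counting: `∑_{F ∈ 𝒞} #{e ∈ 𝒢 | e ∉ F, both ends covered} ≥ |𝒢| |𝒞| / 8`; pick the best `F`.
-/

namespace Pool.Agent.H40.CK

open SimpleGraph

variable {V : Type*}

/-- the even subgraphs of `H` -/
def B10_C (H : SimpleGraph V) : Set (SimpleGraph V) :=
  {F | F ≤ H ∧ ∀ v, Even (F.neighborSet v).ncard}

theorem B10_symmDiff_adj (F F' : SimpleGraph V) (u v : V) :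
    (symmDiff F F').Adj u v ↔ (F.Adj u v ∧ ¬ F'.Adj u v) ∨ (F'.Adj u v ∧ ¬ F.Adj u v) := by
  simp [symmDiff]

theorem B10_even [Finite V] {A B : Set V} (hA : Even A.ncard) (hB : Even B.ncard) :
    Even (A \ B ∪ B \ A).ncard := by
  rw [Set.ncard_union_eq (by
    rw [Set.disjoint_left]
    intro x hx hx'
    exact hx'.2 hx.1) (Set.toFinite _) (Set.toFinite _)]
  have h1 := Set.ncard_inter_add_ncard_sdiff_eq_ncard A B (Set.toFinite _)
  have h2 := Set.ncard_inter_add_ncard_sdiff_eq_ncard B A (Set.toFinite _)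
  rw [Set.inter_comm] at h2
  rw [← h1] at hA
  rw [← h2] at hB
  rw [Nat.even_add] at hA hB ⊢
  tauto

theorem B10_symmDiff [Finite V] {H F F' : SimpleGraph V} (hF : F ∈ B10_C H) (hF' : F' ∈ B10_C H) :
    symmDiff F F' ∈ B10_C H := by
  refine ⟨?_, fun v => ?_⟩
  · intro u v h
    rcases (B10_symmDiff_adj F F' u v).1 h with h | h
    · exact hF.1 h.1
    · exact hF'.1 h.1
  · have : (symmDiff F F').neighborSet v =
        F.neighborSet v \ F'.neighborSet v ∪ F'.neighborSet v \ F.neighborSet v := by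
      ext w
      simp only [mem_neighborSet, B10_symmDiff_adj, Set.mem_union, Set.mem_sdiff]
    rw [this]
    exact B10_even (hF.2 v) (hF'.2 v)

theorem B10_bot (H : SimpleGraph V) : (⊥ : SimpleGraph V) ∈ B10_C H := by
  refine ⟨bot_le, fun v => ?_⟩
  have : (⊥ : SimpleGraph V).neighborSet v = ∅ := by ext w; simp
  rw [this]; simp

/-- the graph of a cycle -/
theorem B10_cycle {H : SimpleGraph V} {w : V} {C : H.Walk w w} (hC : C.IsCycle) :
    ∃ Z ∈ B10_C H, Z.IsCycles ∧ ∀ u v, Z.Adj u v ↔ s(u, v) ∈ C.edges := by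
  have hcyc := hC.isCycles_spanningCoe_toSubgraph
  refine ⟨C.toSubgraph.spanningCoe, ⟨?_, ?_⟩, hcyc, ?_⟩
  · exact C.toSubgraph.spanningCoe_le
  · intro v
    by_cases h : (C.toSubgraph.spanningCoe.neighborSet v).Nonempty
    · rw [hcyc h]; exact even_two
    · rw [Set.not_nonempty_iff_eq_empty.1 h]; simp
  · intro u v
    rw [Subgraph.spanningCoe_adj, Walk.adj_toSubgraph_iff_mem_edges]

theorem B10_side [Finite V] {H : SimpleGraph V}
    (hcyc : ∀ u v, H.Adj u v → ∃ (w : V) (C : H.Walk w w), C.IsCycle ∧ s(u, v) ∈ C.edges)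
    {u v : V} (hu : u ∈ H.support) (h : ¬ H.Adj u v ∨ (H.neighborSet u).ncard = 3) :
    ∃ X ∈ B10_C H, ¬ X.Adj u v ∧ u ∈ X.support := by
  by_cases huv : H.Adj u v
  · have h3 : (H.neighborSet u).ncard = 3 := by
      rcases h with h | h
      · exact absurd huv h
      · exact h
    have h2 : (H.neighborSet u \ {v}).ncard = 2 := by
      rw [Set.ncard_sdiff_singleton_of_mem (by exact huv), h3]
    obtain ⟨a, a', haa', heq⟩ := Set.ncard_eq_two.1 h2
    have ha : H.Adj u a ∧ a ≠ v := by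
      have : a ∈ H.neighborSet u \ {v} := by rw [heq]; simp
      exact this
    have ha' : H.Adj u a' ∧ a' ≠ v := by
      have : a' ∈ H.neighborSet u \ {v} := by rw [heq]; simp
      exact this
    obtain ⟨w, C, hC, hCe⟩ := hcyc u a ha.1
    obtain ⟨Z, hZ, hZc, hZadj⟩ := B10_cycle hC
    obtain ⟨w', C', hC', hCe'⟩ := hcyc u a' ha'.1
    obtain ⟨Z', hZ', hZc', hZadj'⟩ := B10_cycle hC'
    have hZa : Z.Adj u a := (hZadj u a).2 hCe
    have hZa' : Z'.Adj u a' := (hZadj' u a').2 hCe'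
    by_cases h1 : Z.Adj u v
    · by_cases h1' : Z'.Adj u v
      · refine ⟨symmDiff Z Z', B10_symmDiff hZ hZ', ?_, a, ?_⟩
        · rw [B10_symmDiff_adj]
          rintro (⟨-, h⟩ | ⟨-, h⟩)
          · exact h h1'
          · exact h h1
        · show (symmDiff Z Z').Adj u a
          rw [B10_symmDiff_adj]
          refine Or.inl ⟨hZa, fun hcon => ?_⟩
          have h2' : (Z'.neighborSet u).ncard = 2 := hZc' ⟨v, h1'⟩
          have hsub : ({v, a, a'} : Set V) ⊆ Z'.neighborSet u := by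
            rintro x (rfl | rfl | rfl)
            · exact h1'
            · exact hcon
            · exact hZa'
          have hc3 : ({v, a, a'} : Set V).ncard = 3 :=
            Set.ncard_eq_three.2 ⟨v, a, a', ha.2.symm, ha'.2.symm, haa', rfl⟩
          have := Set.ncard_le_ncard hsub (Set.toFinite _)
          omega
      · exact ⟨Z', hZ', h1', a', hZa'⟩
    · exact ⟨Z, hZ, h1, a, hZa⟩
  · obtain ⟨a, ha⟩ := hu
    obtain ⟨w, C, hC, hCe⟩ := hcyc u a ha
    obtain ⟨Z, hZ, hZc, hZadj⟩ := B10_cycle hC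
    exact ⟨Z, hZ, fun h => huv (hZ.1 h), a, (hZadj u a).2 hCe⟩

theorem B10_both [Finite V] {H : SimpleGraph V}
    (hcyc : ∀ u v, H.Adj u v → ∃ (w : V) (C : H.Walk w w), C.IsCycle ∧ s(u, v) ∈ C.edges)
    {u v : V} (hu : u ∈ H.support) (hv : v ∈ H.support)
    (h : ¬ H.Adj u v ∨ ((H.neighborSet u).ncard = 3 ∧ (H.neighborSet v).ncard = 3)) :
    ∃ X ∈ B10_C H, ¬ X.Adj u v ∧ u ∈ X.support ∧ v ∈ X.support := by
  obtain ⟨X, hX, hX1, hX2⟩ := B10_side hcyc hu (h.imp_right fun h => h.1)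
  obtain ⟨Y, hY, hY1, hY2⟩ := B10_side (u := v) (v := u) hcyc hv
    (h.imp (fun h h' => h h'.symm) fun h => h.2)
  by_cases h1 : v ∈ X.support
  · exact ⟨X, hX, hX1, hX2, h1⟩
  by_cases h2 : u ∈ Y.support
  · exact ⟨Y, hY, fun h => hY1 h.symm, h2, hY2⟩
  obtain ⟨a, ha⟩ := hX2
  obtain ⟨b, hb⟩ := hY2
  refine ⟨symmDiff X Y, B10_symmDiff hX hY, ?_, ⟨a, ?_⟩, ⟨b, ?_⟩⟩
  · rw [B10_symmDiff_adj]
    rintro (⟨h, -⟩ | ⟨h, -⟩)
    · exact hX1 h
    · exact hY1 h.symm
  · show (symmDiff X Y).Adj u a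
    rw [B10_symmDiff_adj]
    exact Or.inl ⟨ha, fun h => h2 ⟨a, h⟩⟩
  · show (symmDiff X Y).Adj v b
    rw [B10_symmDiff_adj]
    exact Or.inr ⟨hb, fun h => h1 ⟨b, h⟩⟩

open Classical in
/-- at least one eighth of the even subgraphs agree with `F₀` on three given edges -/
theorem B10_eighth [Finite V] {H F₀ : SimpleGraph V} (𝒞 : Finset (SimpleGraph V))
    (h𝒞 : ∀ F, F ∈ 𝒞 ↔ F ∈ B10_C H) (hF₀ : F₀ ∈ B10_C H) (e : Fin 3 → V × V) :
    𝒞.card ≤ 8 * (𝒞.filter fun F => ∀ i, (F.Adj (e i).1 (e i).2 ↔ F₀.Adj (e i).1 (e i).2)).card := by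
  set φ : SimpleGraph V → (Fin 3 → Bool) := fun F i => decide (F.Adj (e i).1 (e i).2) with hφ
  set N := (𝒞.filter fun F => ∀ i, (F.Adj (e i).1 (e i).2 ↔ F₀.Adj (e i).1 (e i).2)).card with hN
  have h := Finset.card_le_mul_card_image_of_maps_to (f := φ) (s := 𝒞)
    (t := (Finset.univ : Finset (Fin 3 → Bool))) (fun _ _ => Finset.mem_univ _) N ?_
  · simpa [mul_comm] using h
  intro b _
  by_cases hne : (𝒞.filter fun F => φ F = b).Nonempty
  · obtain ⟨F', hF'⟩ := hne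
    rw [Finset.mem_filter] at hF'
    apply Finset.card_le_card_of_injOn (fun F => symmDiff F (symmDiff F' F₀))
    · intro F hF
      rw [Finset.mem_coe, Finset.mem_filter] at hF
      rw [Finset.mem_coe, Finset.mem_filter]
      refine ⟨(h𝒞 _).2 (B10_symmDiff ((h𝒞 _).1 hF.1) (B10_symmDiff ((h𝒞 _).1 hF'.1) hF₀)), ?_⟩
      intro i
      have h1 : φ F i = φ F' i := by rw [hF.2, hF'.2]
      have h2 : F.Adj (e i).1 (e i).2 ↔ F'.Adj (e i).1 (e i).2 := by
        simpa [hφ] using h1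
      rw [B10_symmDiff_adj, B10_symmDiff_adj]
      tauto
    · intro F _ F'' _ heq
      exact symmDiff_left_injective (symmDiff F' F₀) heq
  · rw [Finset.not_nonempty_iff_eq_empty.1 hne]
    simp

theorem random_even [Finite V] (H : SimpleGraph V) (hdeg : ∀ v, (H.neighborSet v).ncard ≤ 3)
    (hcyc : ∀ u v, H.Adj u v → ∃ (w : V) (C : H.Walk w w), C.IsCycle ∧ s(u, v) ∈ C.edges)
    (𝒢 : Set (Sym2 V)) (hdiag : ∀ e ∈ 𝒢, ¬ e.IsDiag) (hsupp : ∀ e ∈ 𝒢, ∀ z ∈ e, z ∈ H.support)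
    (h𝒢 : ∀ e ∈ 𝒢, e ∉ H.edgeSet ∨ ∀ z ∈ e, (H.neighborSet z).ncard = 3) :
    ∃ F : SimpleGraph V, F ≤ H ∧ F.IsCycles ∧
      𝒢.ncard ≤ 8 * ({e | e ∈ 𝒢 ∧ e ∉ F.edgeSet ∧ ∀ z ∈ e, z ∈ F.support} : Set (Sym2 V)).ncard := by
  classical
  have hfin : Finite (SimpleGraph V) := inferInstance
  have := Fintype.ofFinite V
  have hfin𝒞 : (B10_C H).Finite := Set.toFinite _
  set 𝒞 : Finset (SimpleGraph V) := hfin𝒞.toFinset with h𝒞def
  have h𝒞 : ∀ F, F ∈ 𝒞 ↔ F ∈ B10_C H := fun F => by simp [h𝒞def]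
  set 𝒢' : Finset (Sym2 V) := (Set.toFinite 𝒢).toFinset with h𝒢'
  have hmem𝒢 : ∀ e, e ∈ 𝒢' ↔ e ∈ 𝒢 := fun e => Set.Finite.mem_toFinset _
  set P : SimpleGraph V → Sym2 V → Prop := fun F e => e ∉ F.edgeSet ∧ ∀ z ∈ e, z ∈ F.support with hP
  have hcount : ∀ F : SimpleGraph V, ({e | e ∈ 𝒢 ∧ e ∉ F.edgeSet ∧ ∀ z ∈ e, z ∈ F.support} :
      Set (Sym2 V)).ncard = (𝒢'.filter fun e => P F e).card := by
    intro F
    rw [← Set.ncard_coe_finset]
    congr 1
    ext e
    simp [hP, hmem𝒢]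
  have hkey : ∀ e ∈ 𝒢', 𝒞.card ≤ 8 * (𝒞.filter fun F => P F e).card := by
    intro e he
    have he𝒢 := (hmem𝒢 e).1 he
    induction e with
    | h u v =>
      have huv : u ≠ v := fun h => hdiag _ he𝒢 (by simpa using h)
      have hu : u ∈ H.support := hsupp _ he𝒢 u (by simp)
      have hv : v ∈ H.support := hsupp _ he𝒢 v (by simp)
      obtain ⟨X, hX, hX1, ⟨a, ha⟩, ⟨b, hb⟩⟩ := B10_both hcyc hu hv (by
        rcases h𝒢 _ he𝒢 with h | h
        · left; simpa using h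
        · right; exact ⟨h u (by simp), h v (by simp)⟩)
      refine (B10_eighth 𝒞 h𝒞 hX ![(u, v), (u, a), (v, b)]).trans ?_
      apply Nat.mul_le_mul_left
      apply Finset.card_le_card
      intro F hF
      rw [Finset.mem_filter] at hF ⊢
      refine ⟨hF.1, ?_, ?_⟩
      · have := hF.2 0
        simp only [Matrix.cons_val_zero] at this
        rw [mem_edgeSet]
        exact fun h => hX1 (this.1 h)
      · intro z hz
        rcases Sym2.mem_iff.1 hz with rfl | rfl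
        · have := hF.2 1
          simp only [Matrix.cons_val_one, Matrix.cons_val_zero] at this
          exact ⟨a, this.2 ha⟩
        · have := hF.2 2
          simp only [Matrix.cons_val] at this
          exact ⟨b, this.2 hb⟩
  -- double counting
  by_contra hcon
  push Not at hcon
  have hlt : ∀ F ∈ 𝒞, 8 * (𝒢'.filter fun e => P F e).card < 𝒢.ncard := by
    intro F hF
    have hFC := (h𝒞 F).1 hF
    have := hcon F hFC.1 (fun v hv => by
      have h1 : (F.neighborSet v).ncard ≤ 3 :=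
        (Set.ncard_le_ncard (fun w hw => hFC.1 hw) (Set.toFinite _)).trans (hdeg v)
      have h2 := hFC.2 v
      have h3 : 0 < (F.neighborSet v).ncard := (Set.ncard_pos (Set.toFinite _)).2 hv
      obtain ⟨k, hk⟩ := h2
      omega)
    rwa [hcount] at this
  have hne : 𝒞.Nonempty := ⟨⊥, (h𝒞 _).2 (B10_bot H)⟩
  have hsum1 : ∑ F ∈ 𝒞, 8 * (𝒢'.filter fun e => P F e).card < 𝒞.card * 𝒢.ncard := by
    have := Finset.sum_lt_sum_of_nonempty hne hlt
    simpa [mul_comm] using this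
  have hsum2 : 𝒢'.card * 𝒞.card ≤ ∑ e ∈ 𝒢', 8 * (𝒞.filter fun F => P F e).card := by
    have := Finset.card_nsmul_le_sum 𝒢' (fun e => 8 * (𝒞.filter fun F => P F e).card) 𝒞.card
      hkey
    simpa using this
  have hswap : ∑ F ∈ 𝒞, 8 * (𝒢'.filter fun e => P F e).card =
      ∑ e ∈ 𝒢', 8 * (𝒞.filter fun F => P F e).card := by
    rw [← Finset.mul_sum, ← Finset.mul_sum]
    congr 1
    simp only [Finset.card_filter]
    exact Finset.sum_comm
  have hcard : 𝒢.ncard = 𝒢'.card := by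
    rw [← Set.ncard_coe_finset]
    congr 1
    ext e; simp [hmem𝒢]
  rw [hswap, hcard, mul_comm] at hsum1
  omega

end Pool.Agent.H40.CK
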