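import Pool.Agent.H40.CK.B2a

/-!
# CK / B2: a short cycle all of whose third edges, except one, lie in short cycles

Let `c`, `m = C.length ≤ ℓ` be the cyclic sequence of `C`.  For `x = c i ≠ p` let `y` be the third
neighbour; `exists_ear` gives an ear `P` from `c i` to some `c j ≠ c i`.  Consider all pairs of integers
`i < j < i + m` such that there is an ear (a path of length `< ℓ` between `c i` and `c j`,
meeting the sequence only in its ends and using no edge of `C`) and no `k` with `i < k < j` has `c k = p`.
Such pairs exist: take the ear of some `x ≠ p`; `p` cannot lie on both open arcs between the two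
ends, and an ear can be reversed.  Choose a pair with `j - i` minimal; ear `P` from `c i` to `c j`.
* `j = i + 1`: glue `P` with the arc from `c j` forward to `c (i + m)`; the edge `c i c j` of `C` is a chord.
  Length `< ℓ + m ≤ 2ℓ`.  (`P` has length `≥ 2` as it does not use the edge `c i c (i+1)`; or
  `P.length + (m - 1) ≥ 3`.)
* `j > i + 1`: let `w = c (j-1) ≠ p`, with ear `Q` to `c k`, `j - 1 < k < j - 1 + m`.
  `k = j` contradicts minimality (pair `(j-1, j)`); `i + m ≤ k` contradicts minimality
  (pair `(k - m, j - 1)`).  So `j < k < i + m`.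
  - If `Q` and `P` share a vertex: follow `Q` from `w` to the first vertex on `P`, then `P` to `c j`: a path `R` from
    `c (j-1)` to `c j` of length `< 2ℓ` meeting the sequence only in its ends.
    Glue with the arc from `c j` to `c (j - 1 + m)`; the edge `c (j-1) c j` is a chord.  Length `≤ 3ℓ`.
    (The first vertex of `Q` on `P` is neither `w` nor `c i`: `w ∉ P`; and it is not an end, since
    `c i, c j, c k, w` are distinct.)
  - Otherwise glue the path `c i → ... → c (j-1)` (arc) followed by `Q` to `c k`, with the path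
    `c k → c (k-1) → ... → c j` (reversed arc) followed by `P` reversed to `c i`.  The edge
    `c (j-1) c j` is a chord.  Length `≤ m + 2 ℓ ≤ 3 ℓ`.
-/

namespace Pool.Agent.H40.CK

open SimpleGraph

variable {V : Type*}

/-- Two paths meeting only in the common end can be appended to a path. -/
theorem isPath_append' {G : SimpleGraph V} {a b c : V} {P : G.Walk a b} {Q : G.Walk b c}
    (hP : P.IsPath) (hQ : Q.IsPath) (h : ∀ w, w ∈ P.support → w ∈ Q.support → w = b) :
    (P.append Q).IsPath := by
  rw [Walk.isPath_def, Walk.support_append, List.nodup_append]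
  refine ⟨hP.support_nodup, hQ.support_nodup.tail, ?_⟩
  intro w hw w' hw' hww
  subst hww
  have h1 : w ∈ Q.support := List.mem_of_mem_tail hw'
  have h2 := h w hw h1
  subst h2
  have h3 := hQ.support_nodup
  rw [← Walk.cons_tail_support, List.nodup_cons] at h3
  exact h3.1 hw'

theorem mem_take_drop [DecidableEq V] {G : SimpleGraph V} {a b : V} {P : G.Walk a b}
    (hP : P.IsPath) {x : V} (hx : x ∈ P.support) {y : V}
    (h1 : y ∈ (P.takeUntil x hx).support) (h2 : y ∈ (P.dropUntil x hx).support) : y = x := by
  have h3 := hP.support_nodup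
  rw [← P.take_spec hx, Walk.support_append, List.nodup_append] at h3
  rw [← Walk.cons_tail_support, List.mem_cons] at h2
  rcases h2 with h2 | h2
  · exact h2
  · exact absurd rfl (h3.2.2 y h1 y h2)

theorem CycSeq.eq_of_edge_eq {G : SimpleGraph V} {c : ℤ → V} {m : ℕ} (hc : CycSeq G c m)
    (hm : 3 ≤ m) {a b : ℤ} (h : s(c a, c (a + 1)) = s(c b, c (b + 1))) : (m : ℤ) ∣ b - a := by
  rw [Sym2.eq_iff] at h
  rcases h with ⟨h1, -⟩ | ⟨h1, h2⟩
  · exact (hc.eq_iff _ _).1 h1
  · rw [hc.eq_iff] at h1 h2
    exfalso
    have h3 : (m : ℤ) ∣ (b + 1 - a) - (b - (a + 1)) := dvd_sub h1 h2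
    have h4 : (b + 1 - a) - (b - (a + 1)) = 2 := by ring
    rw [h4] at h3
    have := Int.le_of_dvd (by norm_num) h3
    omega

theorem CycSeq.ne_of_lt {G : SimpleGraph V} {c : ℤ → V} {m : ℕ} (hc : CycSeq G c m)
    {a b : ℤ} (h : a < b) (h' : b < a + m) : c a ≠ c b := by
  intro he
  rw [hc.eq_iff] at he
  have := Int.le_of_dvd (by omega) he
  omega

theorem CycSeq.shift {G : SimpleGraph V} {c : ℤ → V} {m : ℕ} (hc : CycSeq G c m)
    (a t : ℤ) : c (a + t * m) = c a := by
  rw [hc.eq_iff]
  exact ⟨-t, by ring⟩

/-- An ear from `c i` to `c j`. -/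
def Ear (G : SimpleGraph V) (c : ℤ → V) (ℓ : ℕ) (i j : ℤ) : Prop :=
  ∃ P : G.Walk (c i) (c j), P.IsPath ∧ c i ≠ c j ∧ P.length < ℓ ∧
    (∀ k, c k ∈ P.support → c k = c i ∨ c k = c j) ∧ (∀ k, s(c k, c (k + 1)) ∉ P.edges)

theorem Ear.symm {G : SimpleGraph V} {c : ℤ → V} {ℓ : ℕ} {i j : ℤ} (h : Ear G c ℓ i j) :
    Ear G c ℓ j i := by
  obtain ⟨P, h1, h2, h3, h4, h5⟩ := h
  refine ⟨P.reverse, h1.reverse, h2.symm, by simpa using h3, ?_, ?_⟩
  · intro k hk
    rw [Walk.support_reverse, List.mem_reverse] at hk
    exact (h4 k hk).symm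
  · intro k hk
    rw [Walk.edges_reverse, List.mem_reverse] at hk
    exact h5 k hk

theorem Ear.congr {G : SimpleGraph V} {c : ℤ → V} {ℓ : ℕ} {i j i' j' : ℤ} (h : Ear G c ℓ i j)
    (hi : c i = c i') (hj : c j = c j') : Ear G c ℓ i' j' := by
  unfold Ear at *
  rw [← hi, ← hj]
  exact h

/-- An ear with adjacent ends gives a chorded cycle. -/
theorem shortChorded_of_adj {G : SimpleGraph V} {c : ℤ → V} {m N : ℕ} (hc : CycSeq G c m)
    (hm : 3 ≤ m) {i : ℤ} (P : G.Walk (c i) (c (i + 1))) (hP : P.IsPath)
    (hlen : P.length ≤ N) (h4 : ∀ k, c k ∈ P.support → c k = c i ∨ c k = c (i + 1))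
    (h5 : ∀ k, s(c k, c (k + 1)) ∉ P.edges) : ShortChorded G (N + m) := by
  obtain ⟨R, hR, hRl, hRs, hRe⟩ := arc hc (a := i + 1) (b := i + m) (by omega) (by omega)
  have hend : c (i + m) = c i := by
    have := hc.shift i 1
    simpa using this
  have hne : c i ≠ c (i + 1) := hc.ne_of_lt (by omega) (by omega)
  have hP1 : 1 ≤ P.length := by
    by_contra hcon
    exact hne (Walk.eq_of_length_eq_zero (p := P) (by omega))
  have key := glue P (R.copy rfl hend) hP (by simpa using hR) hne
    (by
      intro w hw hw'
      rw [Walk.support_copy, hRs] at hw'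
      obtain ⟨k, -, -, rfl⟩ := hw'
      exact h4 k hw)
    (by rw [Walk.length_copy]; omega) (hc.adj i) (Or.inl P.start_mem_support)
    (Or.inl P.end_mem_support) (h5 i)
    (by
      intro hcon
      rw [Walk.edges_copy, hRe] at hcon
      obtain ⟨k, hk1, hk2, hk3⟩ := hcon
      have h6 := hc.eq_of_edge_eq hm hk3
      have := Int.le_of_dvd (by omega) h6
      omega)
  refine key.mono le_rfl ?_
  rw [Walk.length_copy]
  omega

theorem shortChorded_of_cycle [Finite V] {G : SimpleGraph V} {ℓ : ℕ}
    (hcub : ∀ v, (G.neighborSet v).ncard = 3) {u : V} (C : G.Walk u u) (hC : C.IsCycle)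
    (hlen : C.length ≤ ℓ) (p : V)
    (hthird : ∀ x ∈ C.support, x ≠ p → ∀ y, G.Adj x y → s(x, y) ∉ C.edges →
      ∃ (w : V) (Z : G.Walk w w), Z.IsCycle ∧ Z.length ≤ ℓ ∧ s(x, y) ∈ Z.edges) :
    ShortChorded G (3 * ℓ) := by
  classical
  obtain ⟨c, hc, -, hsupp, hedges⟩ := exists_cycSeq_of_cycle C hC
  have hm : 3 ≤ C.length := hC.three_le_length
  set m : ℕ := C.length with hmdef
  -- every vertex except `p` has an ear
  have hear : ∀ i, c i ≠ p → ∃ j, Ear G c ℓ i j := by
    intro i hi
    have hthree := hcub (c i)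
    obtain ⟨y, hy, hy1, hy2⟩ : ∃ y, G.Adj (c i) y ∧ y ≠ c (i + 1) ∧ y ≠ c (i - 1) := by
      by_contra hcon
      push Not at hcon
      have hsub : G.neighborSet (c i) ⊆ {c (i + 1), c (i - 1)} := by
        intro y hy
        by_cases h1 : y = c (i + 1)
        · exact Or.inl h1
        · exact Or.inr (hcon y hy h1)
      have h2 := Set.ncard_le_ncard hsub (Set.toFinite _)
      have h3 := Set.ncard_insert_le (c (i + 1)) {c (i - 1)}
      rw [Set.ncard_singleton] at h3
      omega
    have hnot : s(c i, y) ∉ C.edges := by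
      intro hcon
      rw [hedges] at hcon
      obtain ⟨k, hk⟩ := hcon
      rw [Sym2.eq_iff] at hk
      rcases hk with ⟨h1, h2⟩ | ⟨h1, h2⟩
      · apply hy1
        rw [h2, hc.eq_iff]
        rw [hc.eq_iff] at h1
        have : i + 1 - (k + 1) = -(k - i) := by ring
        rw [this]
        exact (dvd_neg).2 h1
      · apply hy2
        rw [h2, hc.eq_iff]
        rw [hc.eq_iff] at h1
        have : i - 1 - k = -(k + 1 - i) := by ring
        rw [this]
        exact (dvd_neg).2 h1
    obtain ⟨j, hj⟩ := exists_ear hcub hc hm hy hy1 hy2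
      (hthird (c i) ((hsupp _).2 ⟨i, rfl⟩) hi y hy hnot)
    exact ⟨j, hj⟩
  -- the same with the other end in a window
  have hear' : ∀ i, c i ≠ p → ∃ j, i < j ∧ j < i + m ∧ Ear G c ℓ i j := by
    intro i hi
    obtain ⟨j, hj⟩ := hear i hi
    have hm0 : (0 : ℤ) < m := by omega
    have h1 : c i ≠ c j := by
      obtain ⟨P, -, h, -⟩ := hj
      exact h
    refine ⟨i + (j - i) % m, ?_, ?_, ?_⟩
    · have h2 : 0 ≤ (j - i) % (m : ℤ) := Int.emod_nonneg _ (by omega)
      have h3 : (j - i) % (m : ℤ) ≠ 0 := by
        intro h3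
        exact h1 ((hc.eq_iff _ _).2 (Int.dvd_of_emod_eq_zero h3))
      omega
    · have := Int.emod_lt_of_pos (j - i) hm0
      omega
    · refine hj.congr rfl ?_
      rw [hc.eq_iff]
      have h2 : i + (j - i) % (m : ℤ) - j = -((m : ℤ) * ((j - i) / m)) := by
        have := Int.emod_add_mul_ediv (j - i) m
        linarith
      rw [h2]
      exact (dvd_neg).2 (dvd_mul_right _ _)
  -- good pairs
  let good : ℕ → Prop := fun d => ∃ i j : ℤ, i < j ∧ j < i + m ∧ Ear G c ℓ i j ∧
    (∀ k, i < k → k < j → c k ≠ p) ∧ (j - i).toNat = d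
  have hgood : ∃ d, good d := by
    obtain ⟨i, hi⟩ : ∃ i, c i ≠ p := by
      by_cases h : c 0 = p
      · refine ⟨1, ?_⟩
        rw [← h]
        exact (hc.ne_of_lt (by omega) (by omega)).symm
      · exact ⟨0, h⟩
    obtain ⟨j, hij, hjm, hj⟩ := hear' i hi
    by_cases hall : ∀ k, i < k → k < j → c k ≠ p
    · exact ⟨_, i, j, hij, hjm, hj, hall, rfl⟩
    · push Not at hall
      obtain ⟨k0, hk1, hk2, hk3⟩ := hall
      refine ⟨_, j, i + m, hjm, by omega, ?_, ?_, rfl⟩
      · refine hj.symm.congr rfl ?_
        have := hc.shift i 1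
        simpa using this.symm
      · intro k hk4 hk5 hk6
        exact hc.ne_of_lt (a := k0) (b := k) (by omega) (by omega) (hk3.trans hk6.symm)
  obtain ⟨i, j, hij, hjm, hPear, hnop, hd⟩ := Nat.find_spec hgood
  have hmin : ∀ i' j' : ℤ, i' < j' → j' < i' + m → Ear G c ℓ i' j' →
      (∀ k, i' < k → k < j' → c k ≠ p) → j - i ≤ j' - i' := by
    intro i' j' h1 h2 h3 h4
    have := Nat.find_min' hgood ⟨i', j', h1, h2, h3, h4, rfl⟩
    omega
  obtain ⟨P, hP, hne, hPl, hP4, hP5⟩ := hPear
  by_cases hcase : j = i + 1
  · subst hcase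
    exact (shortChorded_of_adj hc hm P hP hPl.le hP4 hP5).mono le_rfl (by omega)
  -- the second ear
  have hwp : c (j - 1) ≠ p := hnop _ (by omega) (by omega)
  obtain ⟨k, hk1, hk2, hQear⟩ := hear' (j - 1) hwp
  have hkj : k ≠ j := by
    rintro rfl
    have := hmin (k - 1) k (by omega) (by omega) hQear (fun k' h1 h2 => by omega)
    omega
  have hki : k < i + m := by
    by_contra hcon
    push Not at hcon
    have := hmin (k - m) (j - 1) (by omega) (by omega)
      (hQear.symm.congr (by have := hc.shift (k - m) 1; simpa using this) rfl)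
      (fun k' h1 h2 => hnop k' (by omega) (by omega))
    omega
  obtain ⟨Q, hQ, hQne, hQl, hQ4, hQ5⟩ := hQear
  have hjk : j < k := by omega
  have hPpos : 1 ≤ P.length := by
    by_contra hcon
    exact hne (Walk.eq_of_length_eq_zero (p := P) (by omega))
  have hQpos : 1 ≤ Q.length := by
    by_contra hcon
    exact hQne (Walk.eq_of_length_eq_zero (p := Q) (by omega))
  by_cases hshare : ∃ x, x ∈ Q.support ∧ x ∈ P.support
  · -- the two ears meet
    obtain ⟨x, hxP, hxQ, hxmin⟩ := Q.exists_mem_support_forall_mem_support_imp_eq P.support.toFinset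
      (by
        obtain ⟨x, h1, h2⟩ := hshare
        exact ⟨x, by simp [h1, h2]⟩)
    rw [List.mem_toFinset] at hxP
    set Q1 := Q.takeUntil x hxQ with hQ1
    set P2 := P.dropUntil x hxP with hP2
    have hQ1s : ∀ w, w ∈ Q1.support → w ∈ Q.support :=
      fun w hw => Q.support_takeUntil_subset_support hxQ hw
    have hP2s : ∀ w, w ∈ P2.support → w ∈ P.support :=
      fun w hw => P.support_dropUntil_subset_support hxP hw
    have hQ1e : ∀ e, e ∈ Q1.edges → e ∈ Q.edges :=
      fun e he => Q.edges_takeUntil_subset_edges hxQ he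
    have hP2e : ∀ e, e ∈ P2.edges → e ∈ P.edges :=
      fun e he => P.edges_dropUntil_subset_edges hxP he
    have hpath : (Q1.append P2).IsPath := by
      refine isPath_append' (hQ.takeUntil hxQ) (hP.dropUntil hxP) ?_
      intro w hw hw'
      exact hxmin w (List.mem_toFinset.2 (hP2s w hw')) hw
    -- `x` is none of the ends
    have hxk : x ≠ c k := by
      intro h
      rw [h] at hxP
      rcases hP4 k hxP with h1 | h1
      · exact hc.ne_of_lt (a := i) (b := k) (by omega) (by omega) h1.symm
      · exact hc.ne_of_lt (a := j) (b := k) (by omega) (by omega) h1.symm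
    have hxi : x ≠ c i := by
      intro h
      rw [h] at hxQ
      rcases hQ4 i hxQ with h1 | h1
      · exact hc.ne_of_lt (a := i) (b := j - 1) (by omega) (by omega) h1
      · exact hc.ne_of_lt (a := i) (b := k) (by omega) (by omega) h1
    have hj1 : c (j - 1 + 1) = c j := by rw [sub_add_cancel]
    have hR4 : ∀ t, c t ∈ (Q1.append P2).support → c t = c (j - 1) ∨ c t = c j := by
      intro t ht
      rw [Walk.mem_support_append_iff] at ht
      rcases ht with ht | ht
      · rcases hQ4 t (hQ1s _ ht) with h1 | h1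
        · exact Or.inl h1
        · exfalso
          rw [h1] at ht
          exact hxk (mem_take_drop hQ hxQ ht (Walk.end_mem_support _)).symm
      · rcases hP4 t (hP2s _ ht) with h1 | h1
        · exfalso
          rw [h1] at ht
          exact hxi (mem_take_drop hP hxP (Walk.start_mem_support _) ht).symm
        · exact Or.inr h1
    have hR5 : ∀ t, s(c t, c (t + 1)) ∉ (Q1.append P2).edges := by
      intro t ht
      rw [Walk.edges_append, List.mem_append] at ht
      rcases ht with ht | ht
      · exact hQ5 t (hQ1e _ ht)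
      · exact hP5 t (hP2e _ ht)
    have hRl : (Q1.append P2).length ≤ 2 * ℓ := by
      rw [Walk.length_append]
      have h1 : Q1.length ≤ Q.length := Q.length_takeUntil_le_length hxQ
      have h2 : P2.length ≤ P.length := P.length_dropUntil_le_length hxP
      omega
    have key := shortChorded_of_adj (N := 2 * ℓ) hc hm (i := j - 1)
      ((Q1.append P2).copy rfl hj1.symm) (by simpa using hpath) (by simpa using hRl)
      (by
        intro t ht
        rw [Walk.support_copy] at ht
        rw [hj1]
        exact hR4 t ht)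
      (by
        intro t ht
        rw [Walk.edges_copy] at ht
        exact hR5 t ht)
    exact key.mono le_rfl (by omega)
  · -- the two ears are disjoint
    push Not at hshare
    obtain ⟨A, hA, hAl, hAs, hAe⟩ := arc hc (a := i) (b := j - 1) (by omega) (by omega)
    obtain ⟨B, hB, hBl, hBs, hBe⟩ := arc hc (a := j) (b := k) (by omega) (by omega)
    have hAQ : (A.append Q).IsPath := by
      refine isPath_append' hA hQ ?_
      intro w hw hw'
      rw [hAs] at hw
      obtain ⟨a, ha1, ha2, rfl⟩ := hw
      rcases hQ4 a hw' with h1 | h1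
      · exact h1
      · exact absurd h1 (hc.ne_of_lt (by omega) (by omega))
    have hPB : (P.append B).IsPath := by
      refine isPath_append' hP hB ?_
      intro w hw hw'
      rw [hBs] at hw'
      obtain ⟨b, hb1, hb2, rfl⟩ := hw'
      rcases hP4 b hw with h1 | h1
      · exact absurd h1.symm (hc.ne_of_lt (by omega) (by omega))
      · exact h1
    have hj1 : c (j - 1 + 1) = c j := by rw [sub_add_cancel]
    have key := glue (A.append Q) (P.append B).reverse hAQ hPB.reverse
      (hc.ne_of_lt (by omega) (by omega))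
      (by
        intro w hw hw'
        rw [Walk.mem_support_append_iff] at hw
        rw [Walk.support_reverse, List.mem_reverse, Walk.mem_support_append_iff] at hw'
        rcases hw with hw | hw
        · rw [hAs] at hw
          obtain ⟨a, ha1, ha2, rfl⟩ := hw
          rcases hw' with hw' | hw'
          · rcases hP4 a hw' with h1 | h1
            · exact Or.inl h1
            · exact absurd h1 (hc.ne_of_lt (by omega) (by omega))
          · rw [hBs] at hw'
            obtain ⟨b, hb1, hb2, hb3⟩ := hw'
            exact absurd hb3 (hc.ne_of_lt (by omega) (by omega))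
        · rcases hw' with hw' | hw'
          · exact absurd hw' (hshare w hw)
          · rw [hBs] at hw'
            obtain ⟨b, hb1, hb2, rfl⟩ := hw'
            rcases hQ4 b hw with h1 | h1
            · exact absurd h1.symm (hc.ne_of_lt (by omega) (by omega))
            · exact Or.inr h1)
      (by
        rw [Walk.length_reverse, Walk.length_append, Walk.length_append]
        omega)
      (x := c (j - 1)) (y := c (j - 1 + 1)) (hc.adj (j - 1))
      (Or.inl (by
        rw [Walk.mem_support_append_iff]
        exact Or.inl (Walk.end_mem_support _)))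
      (Or.inr (by
        rw [hj1, Walk.support_reverse, List.mem_reverse, Walk.mem_support_append_iff]
        exact Or.inl (Walk.end_mem_support _)))
      (by
        rw [Walk.edges_append, List.mem_append, not_or]
        refine ⟨?_, hQ5 _⟩
        intro hcon
        rw [hAe] at hcon
        obtain ⟨t, ht1, ht2, ht3⟩ := hcon
        have h6 := hc.eq_of_edge_eq hm ht3.symm
        have := Int.le_of_dvd (by omega) h6
        omega)
      (by
        rw [Walk.edges_reverse, List.mem_reverse, Walk.edges_append, List.mem_append, not_or]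
        refine ⟨hP5 _, ?_⟩
        intro hcon
        rw [hBe] at hcon
        obtain ⟨t, ht1, ht2, ht3⟩ := hcon
        have h6 := hc.eq_of_edge_eq hm ht3
        have := Int.le_of_dvd (by omega) h6
        omega)
    refine key.mono le_rfl ?_
    rw [Walk.length_reverse, Walk.length_append, Walk.length_append]
    omega

end Pool.Agent.H40.CK
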