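import Pool.Agent.H40.CK.Basic

/-!
# CK / B4: the bridgeless part `cyc G`

* `cyc_cycle`: an edge of `cyc G` lies on a cycle `C` of `G`; all edges of `C` are edges of `cyc G`, so
  `C` transfers to `cyc G` (`Walk.transfer`).
* `two_le_cyc`: a vertex of a cycle has two neighbours along the cycle.
* `not_reachable`: if `G.Adj u v` but `s(u,v)` is on no cycle, then `u`, `v` are not connected in
  `G \ fromEdgeSet {s(u,v)}` (Mathlib `adj_and_reachable_delete_edges_iff_exists_cycle`), and
  `cyc G ≤ G \ fromEdgeSet {s(u,v)}`.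
-/

namespace Pool.Agent.H40.CK

open SimpleGraph

variable {V : Type*}

theorem cyc_cycle {G : SimpleGraph V} {u v : V} (h : (cyc G).Adj u v) :
    ∃ C : (cyc G).Walk u u, C.IsCycle ∧ s(u, v) ∈ C.edges := by
  classical
  obtain ⟨w, C, hC, he⟩ := h
  have hu : u ∈ C.support := Walk.fst_mem_support_of_mem_edges C he
  have hD : (C.rotate u hu).IsCycle := hC.rotate hu
  have heD : s(u, v) ∈ (C.rotate u hu).edges := (C.rotate_edges u hu).mem_iff.mpr he
  have hall : ∀ e, e ∈ (C.rotate u hu).edges → e ∈ (cyc G).edgeSet := by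
    intro e hee
    induction e with
    | h x y => exact ⟨u, C.rotate u hu, hD, hee⟩
  exact ⟨(C.rotate u hu).transfer (cyc G) hall, hD.transfer hall, by simpa using heD⟩

theorem two_le_cyc [Finite V] {G : SimpleGraph V} {v : V} (hv : v ∈ (cyc G).support) :
    2 ≤ ((cyc G).neighborSet v).ncard := by
  obtain ⟨w, hw⟩ := hv
  obtain ⟨C, hC, -⟩ := cyc_cycle hw
  rw [← hC.ncard_neighborSet_toSubgraph_eq_two (Walk.start_mem_support C)]
  exact Set.ncard_le_ncard (Subgraph.neighborSet_subset _ _) (Set.toFinite _)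

theorem not_reachable {G : SimpleGraph V} {u v : V} (h : G.Adj u v) (hn : ¬ (cyc G).Adj u v) :
    ¬ (cyc G).Reachable u v := by
  intro hr
  apply hn
  have hle : cyc G ≤ G.deleteEdges {s(u, v)} := by
    intro x y hxy
    rw [deleteEdges_adj]
    refine ⟨cyc_le G hxy, ?_⟩
    intro he
    rw [Set.mem_singleton_iff] at he
    have : s(u, v) ∈ (cyc G).edgeSet := by
      rw [← he]
      exact hxy
    exact hn this
  exact adj_and_reachable_delete_edges_iff_exists_cycle.mp ⟨h, hr.mono hle⟩

end Pool.Agent.H40.CK
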