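import Pool.Agent.H40.CK.B1
import Pool.Agent.H40.CK.B2
import Pool.Agent.H40.CK.B4

/-!
# CK / B6: small components of `cyc (G \ E)` with at most two bridge-darts

Write `G₁ = G \ E`, `H₁ = cyc G₁`, `κ` the vertex set of a nontrivial component of `H₁`, `|κ| ≤ K`.
Every vertex of `κ` has `H₁`-degree `≥ 2` (`two_le_cyc`); a `G₁`-edge from `u ∈ κ` to `v` is either an
`H₁`-edge (then `v ∈ κ`) or a bridge-dart (then `v ∉ κ` by `not_reachable`).
So each `u ∈ κ` has exactly three `G`-edges: at least two `H₁`-edges and at most one further edge, which is an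
`H₁`-edge, an `E`-edge or a bridge-dart.

Case A: some bridge `s(u₀, v₀)`, `u₀ ∈ κ`, lies on a cycle of `G` of length `≤ K`.  Let `C` be a cycle of `H₁`
inside `κ` (`cyc_cycle`), of length `≤ |κ| ≤ K`, seen in `G`.  Let `p` be the vertex of the other
bridge-dart of `κ` (arbitrary if there is none).  For `x ∈ C`, `x ≠ p`, the third edge at `x` is
- an `H₁`-edge: it lies on an `H₁`-cycle (`cyc_cycle`), contained in `κ`, length `≤ |κ| ≤ K`;
- an `E`-edge: it lies on its private cycle of length `≤ s ≤ K`;
- a bridge-dart at `x`: it must be `(u₀, v₀)` (there are at most two bridge-darts, and the other one is at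
  `p`), on a cycle of length `≤ K` by assumption.
`shortChorded_of_cycle` with `ℓ = K` gives the result.

Case B: no bridge at `κ` lies on a `G`-cycle of length `≤ K`.  Let `e = s(x, y) ∈ E` with `x ∈ κ`.
Its private cycle `C_e` (length `≤ s ≤ K`) minus `e` is a path in `G₁` from `x` to `y`; if it left `κ`, it
would use a bridge at `κ`, which would lie on `C_e`, impossible.  So `y ∈ κ`.
Hence in `G' = ` the subgraph of `G` of all edges with both ends in `κ`, every `u ∈ κ` has degree three, except
the vertices having a bridge-dart (at most two of them, each with exactly one bridge-dart and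
degree two in `G'`).  `chorded_of_degrees` applied to `G'` (support `κ`) gives `ShortChorded G' |κ|`,
and `ShortChorded.mono`.
-/

namespace Pool.Agent.H40.CK

open SimpleGraph

variable {V : Type*}

theorem B6.mem_of_adj {H : SimpleGraph V} {κ : H.ConnectedComponent} {u v : V} (hu : u ∈ κ.supp)
    (h : H.Adj u v) : v ∈ κ.supp := by
  rw [ConnectedComponent.mem_supp_iff] at hu ⊢
  rw [← hu]
  exact (ConnectedComponent.sound h.reachable).symm

theorem B6.mem_of_reachable {H : SimpleGraph V} {κ : H.ConnectedComponent} {u v : V}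
    (hu : u ∈ κ.supp) (h : H.Reachable u v) : v ∈ κ.supp := by
  rw [ConnectedComponent.mem_supp_iff] at hu ⊢
  rw [← hu]
  exact (ConnectedComponent.sound h).symm

/-- a cycle inside a component is not longer than the component -/
theorem B6.cycle_length_le [Finite V] {H : SimpleGraph V} {κ : H.ConnectedComponent} {u : V}
    (hu : u ∈ κ.supp) (C : H.Walk u u) (hC : C.IsCycle) : C.length ≤ κ.supp.ncard := by
  classical
  have h1 : C.support.tail.length = C.length := by simp
  have h2 : (C.support.tail.toFinset : Set V) ⊆ κ.supp := by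
    intro w hw
    have hw' : w ∈ C.support := by
      have : w ∈ C.support.tail := by simpa using hw
      exact List.mem_of_mem_tail this
    exact B6.mem_of_reachable hu ⟨C.takeUntil w hw'⟩
  have h3 := Set.ncard_le_ncard h2 (Set.toFinite _)
  rw [Set.ncard_coe_finset, List.toFinset_card_of_nodup hC.support_nodup, h1] at h3
  exact h3

/-- every vertex of a nontrivial component has a neighbour -/
theorem B6.mem_support {H : SimpleGraph V} {κ : H.ConnectedComponent}
    (hnt : κ.supp.Nontrivial) {u : V} (hu : u ∈ κ.supp) : u ∈ H.support := by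
  obtain ⟨w, hw, hne⟩ := hnt.exists_ne u
  have hr : H.Reachable u w := by
    rw [ConnectedComponent.mem_supp_iff] at hu hw
    exact ConnectedComponent.exact (hu.trans hw.symm)
  obtain ⟨p⟩ := hr
  cases p with
  | nil => exact absurd rfl hne
  | cons h q => exact ⟨_, h⟩

/-- the graph induced on a vertex set, on the same vertex type -/
def B6.ind (G : SimpleGraph V) (S : Set V) : SimpleGraph V where
  Adj x y := G.Adj x y ∧ x ∈ S ∧ y ∈ S
  symm := ⟨fun _ _ h => ⟨h.1.symm, h.2.2, h.2.1⟩⟩
  loopless := ⟨fun _ h => h.1.ne rfl⟩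

/-- A cycle through an edge crossing the boundary of `S` has another edge crossing it. -/
theorem B6.second_crossing {G : SimpleGraph V} {S : Set V} {x y u : V} (hx : x ∈ S) (hy : y ∉ S)
    (C : G.Walk u u) (hC : C.IsCycle) (he : s(x, y) ∈ C.edges) :
    ∃ a b, a ∈ S ∧ b ∉ S ∧ s(a, b) ∈ C.edges ∧ s(a, b) ≠ s(x, y) := by
  classical
  have hxs : x ∈ C.support := C.fst_mem_support_of_mem_edges he
  set C' := C.rotate x hxs with hC'
  have hcyc : C'.IsCycle := hC.rotate hxs
  have hedges : ∀ e, e ∈ C'.edges ↔ e ∈ C.edges := fun e =>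
    (C.rotate_edges x hxs).mem_iff
  have he' : s(x, y) ∈ C'.edges := (hedges _).2 he
  have hys : y ∈ C'.support := C'.snd_mem_support_of_mem_edges he'
  set P := C'.takeUntil y hys with hP
  set Q := C'.dropUntil y hys with hQ
  have hPQ : C'.edges = P.edges ++ Q.edges := by
    rw [← Walk.edges_append, hP, hQ, Walk.take_spec]
  have hnd : (P.edges ++ Q.edges).Nodup := hPQ ▸ hcyc.edges_nodup
  have hdisj := (List.nodup_append.1 hnd).2.2
  obtain ⟨d, hd, hd1, hd2⟩ := P.exists_boundary_dart S hx hy
  obtain ⟨d', hd', hd1', hd2'⟩ := Q.reverse.exists_boundary_dart S hx hy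
  have hdP : s(d.fst, d.snd) ∈ P.edges := by
    have := List.mem_map_of_mem (f := Dart.edge) hd
    exact this
  have hdQ : s(d'.fst, d'.snd) ∈ Q.edges := by
    have := List.mem_map_of_mem (f := Dart.edge) hd'
    have h2 : d'.edge ∈ Q.reverse.edges := this
    rw [Walk.edges_reverse, List.mem_reverse] at h2
    exact h2
  by_cases h : s(d.fst, d.snd) = s(x, y)
  · refine ⟨d'.fst, d'.snd, hd1', hd2', ?_, ?_⟩
    · rw [← hedges, hPQ]
      exact List.mem_append_right _ hdQ
    · intro h'
      exact hdisj _ hdP _ hdQ (h.trans h'.symm)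
  · refine ⟨d.fst, d.snd, hd1, hd2, ?_, h⟩
    rw [← hedges, hPQ]
    exact List.mem_append_left _ hdP

theorem small_comp [Finite V] {G E : SimpleGraph V} (hcub : ∀ v, (G.neighborSet v).ncard = 3)
    {s K : ℕ} (hsK : s ≤ K) (hE : HitData G E s) (κ : (cyc (G \ E)).ConnectedComponent)
    (hnt : κ.supp.Nontrivial) (hK : κ.supp.ncard ≤ K) (hb : bdeg (G \ E) κ ≤ 2) :
    ShortChorded G (3 * K) := by
  classical
  have hle : cyc (G \ E) ≤ G := (cyc_le _).trans sdiff_le
  set BD : Set (V × V) := {d : V × V | d.1 ∈ κ.supp ∧ (G \ E).Adj d.1 d.2 ∧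
    ¬ (cyc (G \ E)).Adj d.1 d.2} with hBD
  have hBDcard : BD.ncard ≤ 2 := hb
  by_cases hA : ∃ d ∈ BD, ∃ (w : V) (Z : G.Walk w w), Z.IsCycle ∧ Z.length ≤ K ∧
      s(d.1, d.2) ∈ Z.edges
  · -- Case A
    obtain ⟨d₀, hd₀, w₀, Z₀, hZ₀, hZl, hZe⟩ := hA
    obtain ⟨u, hu⟩ := hnt.nonempty
    obtain ⟨v, huv⟩ := B6.mem_support hnt hu
    obtain ⟨C, hC, -⟩ := cyc_cycle huv
    obtain ⟨p, hp⟩ : ∃ p : V, ∀ d ∈ BD, d.1 ≠ p → d = d₀ := by
      by_cases h : ∃ d ∈ BD, d ≠ d₀
      · obtain ⟨d₁, hd₁, hne⟩ := h
        refine ⟨d₁.1, fun d hd hdp => ?_⟩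
        by_contra hdd
        have hd1 : d ≠ d₁ := fun h => hdp (by rw [h])
        have hsub : (({d, d₀, d₁} : Finset (V × V)) : Set (V × V)) ⊆ BD := by
          intro z hz
          simp only [Finset.coe_insert, Finset.coe_singleton, Set.mem_insert_iff,
            Set.mem_singleton_iff] at hz
          rcases hz with rfl | rfl | rfl
          · exact hd
          · exact hd₀
          · exact hd₁
        have h3 := Set.ncard_le_ncard hsub (Set.toFinite _)
        rw [Set.ncard_coe_finset, Finset.card_eq_three.2 ⟨d, d₀, d₁, hdd, hd1, hne.symm, rfl⟩] at h3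
        omega
      · push Not at h
        exact ⟨u, fun d hd _ => h d hd⟩
    refine shortChorded_of_cycle hcub (C.mapLe hle) (hC.mapLe hle)
      (by simpa using (B6.cycle_length_le hu C hC).trans hK) p ?_
    intro x hx hxp y hxy _
    have hxC : x ∈ C.support := by simpa using hx
    have hxκ : x ∈ κ.supp := B6.mem_of_reachable hu ⟨C.takeUntil x hxC⟩
    by_cases hEe : E.Adj x y
    · obtain ⟨w, Z, hZ, hl, he, -⟩ := hE.priv s(x, y) hEe
      exact ⟨w, Z, hZ, hl.trans hsK, he⟩
    · have h1 : (G \ E).Adj x y := ⟨hxy, hEe⟩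
      by_cases h2 : (cyc (G \ E)).Adj x y
      · obtain ⟨Z, hZ, he⟩ := cyc_cycle h2
        exact ⟨x, Z.mapLe hle, hZ.mapLe hle,
          by simpa using (B6.cycle_length_le hxκ Z hZ).trans hK, by simpa using he⟩
      · have h3 : ((x, y) : V × V) = d₀ := hp (x, y) ⟨hxκ, h1, h2⟩ hxp
        refine ⟨w₀, Z₀, hZ₀, hZl, ?_⟩
        rw [← h3] at hZe
        exact hZe
  · -- Case B
    push Not at hA
    have hEκ : ∀ x ∈ κ.supp, ∀ y, E.Adj x y → y ∈ κ.supp := by
      intro x hx y hxy
      by_contra hy
      obtain ⟨w, Z, hZ, hl, he, hpr⟩ := hE.priv s(x, y) hxy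
      obtain ⟨a, b, ha, hb', hab, hne⟩ := B6.second_crossing hx hy Z hZ he
      have hGab : G.Adj a b := Z.adj_of_mem_edges hab
      have hEab : ¬ E.Adj a b := fun h => hne (hpr _ hab h)
      have hnc : ¬ (cyc (G \ E)).Adj a b := fun h => hb' (B6.mem_of_adj ha h)
      exact hA (a, b) ⟨ha, ⟨hGab, hEab⟩, hnc⟩ w Z hZ (hl.trans hsK) hab
    set G' := B6.ind G κ.supp with hG'
    have hG'le : G' ≤ G := fun x y h => h.1
    have hHadj : ∀ {x y}, x ∈ κ.supp → (cyc (G \ E)).Adj x y → G'.Adj x y := fun hx h =>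
      ⟨hle h, hx, B6.mem_of_adj hx h⟩
    have hsupp : G'.support = κ.supp := by
      ext x
      constructor
      · rintro ⟨y, h⟩
        exact h.2.1
      · intro hx
        obtain ⟨y, hy⟩ := B6.mem_support hnt hx
        exact ⟨y, hHadj hx hy⟩
    have hdeg2 : ∀ v ∈ G'.support, 2 ≤ (G'.neighborSet v).ncard := by
      intro v hv
      rw [hsupp] at hv
      refine (two_le_cyc (B6.mem_support hnt hv)).trans (Set.ncard_le_ncard ?_ (Set.toFinite _))
      intro y hy
      exact hHadj hv hy
    have hex : ∀ v ∈ ({v | v ∈ G'.support ∧ (G'.neighborSet v).ncard = 2} : Set V),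
        ∃ y, (v, y) ∈ BD := by
      rintro v ⟨hv, h2⟩
      rw [hsupp] at hv
      by_contra hno
      push Not at hno
      have hsub : G.neighborSet v ⊆ G'.neighborSet v := by
        intro y hy
        have hGy : G.Adj v y := hy
        refine ⟨hGy, hv, ?_⟩
        by_cases hEe : E.Adj v y
        · exact hEκ v hv y hEe
        · by_contra hyκ
          exact hno y ⟨hv, ⟨hGy, hEe⟩, fun h => hyκ (B6.mem_of_adj hv h)⟩
      have := Set.ncard_le_ncard hsub (Set.toFinite _)
      rw [hcub v, h2] at this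
      omega
    have hcard : ({v | v ∈ G'.support ∧ (G'.neighborSet v).ncard = 2} : Set V).ncard ≤ 2 := by
      refine le_trans ?_ hBDcard
      choose! f hf using hex
      refine Set.ncard_le_ncard_of_injOn (fun v => (v, f v)) (fun v hv => hf v hv) ?_
        (Set.toFinite _)
      intro a _ b _ hab
      exact congrArg Prod.fst hab
    have hne : G'.support.Nonempty := by
      rw [hsupp]; exact hnt.nonempty
    have := chorded_of_degrees G' hne hdeg2 hcard
    refine this.mono hG'le ?_
    rw [hsupp]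
    omega

end Pool.Agent.H40.CK
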