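import Pool.Agent.H40.CK.B2a

/-!
# CK / B7: no long chains of degree-two vertices in `G \ E`

All `x_i` (`0 ≤ i ≤ m`) have degree three in `G` and two in `G₁ = G \ E`, so each has an `E`-neighbour.
Interior `x_i` (`0 < i < m`) have exactly the `G₁`-neighbours `x_{i-1}`, `x_{i+1}`.
(1) For `s ≤ i ≤ m - s` the `E`-neighbour of `x_i` is `x_{π(i)}` with `|π(i) - i| < s`, `π(i) ≠ i`,
    `|π(i) - i| ≥ 2` (`x_i x_{i±1}` are `G₁`-edges, not `E`-edges).  Proof: the private
    cycle of `e = s(x_i, y)` minus `e` is a `G₁`-path with at most `s - 1` edges from `x_i` to `y`; it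
    has to follow the chain monotonically (a path cannot turn back), so it ends in `x_{i ± t}`,
    `t ≤ s - 1`.
(2) Consider the pairs `i < j` in `[s, m - s]` with `s(x_i, x_j) ∈ E`; there is one (the
    `E`-neighbour of `x_{2s}`, as `m ≥ 4 s`).  Choose one with `j - i` minimal (`≥ 2`).  Let `x_k` be the
    `E`-neighbour of `x_{j-1}`.  `k ∉ [i, j]`, by minimality and since `π` is an involution without
    fixed points.  If `k > j`: the cycle `x_i → ... → x_{j-1} → x_k → x_{k-1} → ... → x_j → x_i`
    has length `k - i + 1 ≤ 2 s` and the chord `x_{j-1} x_j`.  So `k < i`.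
    Symmetrically let `x_{k'}` be the `E`-neighbour of `x_{i+1}`: `k' ∉ [i, j]`, and if `k' < i` the cycle
    `x_{k'} → ... → x_i → x_j → x_{j-1} → ... → x_{i+1} → x_{k'}` has the chord `x_i x_{i+1}`.  So `k' > j`
    (in particular `i + 1 ≠ j - 1`).
(3) The cycle `x_i → x_j → x_{j+1} → ... → x_{k'} → x_{i+1} → x_{i+2} → ... → x_{j-1} → x_k → x_{k+1} → ... → x_i` has
    length `k' - k + 1 ≤ 3 s` (`k' < i + 1 + s`, `k > j - 1 - s ≥ i - s + 1`) and the chord `x_i x_{i+1}`.
In all cases the cycle can be given as a closed sequence of distinct vertices; helper49's file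
`Pool/Agent/Results/MP_9cdbe4_co/BoundedPathCover.lean` has a lemma `exists_cycle` for that (copy it), or
use `glue` of B2a.
-/

namespace Pool.Agent.H40.CK

open SimpleGraph

variable {V : Type*}

namespace B7

/-- A sequence of consecutively adjacent vertices gives a walk. -/
lemma exists_walk (G : SimpleGraph V) (c : ℕ → V) (k : ℕ)
    (hadj : ∀ i < k, G.Adj (c i) (c (i + 1))) :
    ∃ W : G.Walk (c 0) (c k), W.length = k ∧ W.support = (List.range (k + 1)).map c ∧
      ∀ e ∈ W.edges, ∃ i < k, e = s(c i, c (i + 1)) := by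
  induction k with
  | zero => exact ⟨Walk.nil, rfl, by simp, by simp⟩
  | succ k ih =>
    obtain ⟨W, hl, hs, he⟩ := ih (fun i hi => hadj i (by omega))
    refine ⟨W.concat (hadj k (by omega)), by simp [hl], ?_, ?_⟩
    · rw [Walk.support_concat, hs, List.range_succ (n := k + 1), List.map_append]
      simp
    · intro e hmem
      rw [Walk.edges_concat] at hmem
      simp only [List.concat_eq_append, List.mem_append, List.mem_singleton] at hmem
      rcases hmem with h | h
      · obtain ⟨i, hi, rfl⟩ := he e h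
        exact ⟨i, by omega, rfl⟩
      · exact ⟨k, by omega, h⟩

/-- A cyclic sequence of distinct consecutively adjacent vertices gives a cycle with a prescribed
chord. -/
lemma exists_cycle (G : SimpleGraph V) (c : ℕ → V) (k : ℕ) (hk : 2 ≤ k)
    (hinj : ∀ i ≤ k, ∀ j ≤ k, c i = c j → i = j)
    (hadj : ∀ i < k, G.Adj (c i) (c (i + 1))) (hclose : G.Adj (c k) (c 0))
    (e : Sym2 V) (h1 : e ∈ G.edgeSet) (h2 : ∀ z ∈ e, ∃ i ≤ k, c i = z)
    (h3 : ∀ i < k, e ≠ s(c i, c (i + 1))) (h4 : e ≠ s(c k, c 0)) :
    ShortChorded G (k + 1) := by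
  classical
  obtain ⟨W, hl, hs, he⟩ := exists_walk G c k hadj
  have hpath : W.IsPath := by
    rw [Walk.isPath_def, hs]
    refine List.Nodup.map_on ?_ List.nodup_range
    intro i hi j hj hij
    rw [List.mem_range] at hi hj
    exact hinj i (by omega) j (by omega) hij
  refine ⟨c k, Walk.cons hclose W, ?_, by simp [hl], e, h1, ?_, ?_⟩
  · rw [Walk.cons_isCycle_iff]
    refine ⟨hpath, fun hmem => ?_⟩
    obtain ⟨i, hi, hE⟩ := he _ hmem
    rw [Sym2.eq_iff] at hE
    rcases hE with ⟨h1, h2⟩ | ⟨h1, h2⟩
    · have := hinj k le_rfl i (by omega) h1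
      omega
    · have e1 := hinj k le_rfl (i + 1) (by omega) h1
      have e2 := hinj 0 (by omega) i (by omega) h2
      omega
  · rw [Walk.edges_cons, List.mem_cons]
    rintro (h | h)
    · exact h4 h
    · obtain ⟨i, hi, hE⟩ := he _ h
      exact h3 i hi hE
  · intro z hz
    obtain ⟨i, hi, rfl⟩ := h2 z hz
    rw [Walk.support_cons, List.mem_cons, hs]
    right
    exact List.mem_map.2 ⟨i, List.mem_range.2 (by omega), rfl⟩

/-- The same in terms of positions on a path. -/
lemma short_of_index {G : SimpleGraph V} {x : ℕ → V} {m : ℕ}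
    (hinj : ∀ i ≤ m, ∀ j ≤ m, x i = x j → i = j) (g : ℕ → ℕ) (n : ℕ) (hn : 2 ≤ n)
    (hg : ∀ t ≤ n, g t ≤ m) (hgi : ∀ t ≤ n, ∀ t' ≤ n, g t = g t' → t = t')
    (hadj : ∀ t < n, G.Adj (x (g t)) (x (g (t + 1)))) (hcl : G.Adj (x (g n)) (x (g 0)))
    {p q : ℕ} (hp : ∃ t ≤ n, g t = p) (hq : ∃ t ≤ n, g t = q) (hpq : G.Adj (x p) (x q))
    (h1 : ∀ t < n, ¬ (p = g t ∧ q = g (t + 1)) ∧ ¬ (p = g (t + 1) ∧ q = g t))
    (h2 : ¬ (p = g n ∧ q = g 0) ∧ ¬ (p = g 0 ∧ q = g n)) : ShortChorded G (n + 1) := by
  have hpm : p ≤ m := by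
    obtain ⟨t, ht, rfl⟩ := hp
    exact hg t ht
  have hqm : q ≤ m := by
    obtain ⟨t, ht, rfl⟩ := hq
    exact hg t ht
  refine exists_cycle G (fun t => x (g t)) n hn ?_ hadj hcl s(x p, x q) hpq ?_ ?_ ?_
  · intro i hi j hj hij
    exact hgi i hi j hj (hinj _ (hg i hi) _ (hg j hj) hij)
  · intro z hz
    rw [Sym2.mem_iff] at hz
    rcases hz with rfl | rfl
    · obtain ⟨t, ht, h⟩ := hp
      exact ⟨t, ht, by simp only [h]⟩
    · obtain ⟨t, ht, h⟩ := hq
      exact ⟨t, ht, by simp only [h]⟩
  · intro t ht hE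
    rw [Sym2.eq_iff] at hE
    rcases hE with ⟨ha, hb⟩ | ⟨ha, hb⟩
    · exact (h1 t ht).1 ⟨hinj _ hpm _ (hg _ (by omega)) ha, hinj _ hqm _ (hg _ (by omega)) hb⟩
    · exact (h1 t ht).2 ⟨hinj _ hpm _ (hg _ (by omega)) ha, hinj _ hqm _ (hg _ (by omega)) hb⟩
  · intro hE
    rw [Sym2.eq_iff] at hE
    rcases hE with ⟨ha, hb⟩ | ⟨ha, hb⟩
    · exact h2.1 ⟨hinj _ hpm _ (hg _ (by omega)) ha, hinj _ hqm _ (hg _ (by omega)) hb⟩
    · exact h2.2 ⟨hinj _ hpm _ (hg _ (by omega)) ha, hinj _ hqm _ (hg _ (by omega)) hb⟩

/-- A cycle minus one of its edges is a path. -/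
lemma cycle_to_path {G : SimpleGraph V} {w : V} (C : G.Walk w w) (hC : C.IsCycle) {u v : V}
    (he : s(u, v) ∈ C.edges) :
    ∃ P : G.Walk u v, P.IsPath ∧ P.length + 1 = C.length ∧ s(u, v) ∉ P.edges ∧
      ∀ e ∈ P.edges, e ∈ C.edges := by
  classical
  have hu : u ∈ C.support := Walk.fst_mem_support_of_mem_edges C he
  have hmem : ∀ e, e ∈ (C.rotate u hu).edges ↔ e ∈ C.edges := fun e =>
    (Walk.rotate_edges C u hu).mem_iff
  have hC' : (C.rotate u hu).IsCycle := hC.rotate hu
  have hlen : (C.rotate u hu).length = C.length := Walk.length_rotate C u hu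
  have he' : s(u, v) ∈ (C.rotate u hu).edges := (hmem _).2 he
  generalize C.rotate u hu = D at hmem hC' hlen he'
  have hv : v ∈ D.toSubgraph.neighborSet u := by
    rw [Subgraph.mem_neighborSet, ← Subgraph.mem_edgeSet, Walk.mem_edges_toSubgraph]
    exact he'
  rw [hC'.neighborSet_toSubgraph_endpoint] at hv
  have hnod : D.edges.Nodup := hC'.edges_nodup
  have h3 := hC'.three_le_length
  rcases hv with hv | hv
  · -- `v` is the second vertex
    subst hv
    have hcons := D.cons_tail_eq hC'.not_nil
    have hE : D.edges = s(u, D.snd) :: D.tail.edges := by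
      conv_lhs => rw [← hcons]
      rw [Walk.edges_cons]
    refine ⟨D.tail.reverse, hC'.isPath_tail.reverse, ?_, ?_, ?_⟩
    · rw [Walk.length_reverse, Walk.length_tail_add_one hC'.not_nil, hlen]
    · rw [Walk.edges_reverse, List.mem_reverse]
      rw [hE, List.nodup_cons] at hnod
      exact hnod.1
    · intro e h
      rw [Walk.edges_reverse, List.mem_reverse] at h
      rw [← hmem, hE]
      exact List.mem_cons_of_mem _ h
  · -- `v` is the last but one vertex
    rw [Set.mem_singleton_iff] at hv
    subst hv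
    have hadj : G.Adj D.penultimate u := D.adj_penultimate hC'.not_nil
    have hcons := D.concat_dropLast hadj
    have hE : D.edges = D.dropLast.edges ++ [s(D.penultimate, u)] := by
      conv_lhs => rw [← hcons]
      rw [Walk.edges_concat, List.concat_eq_append]
    have hL : D.dropLast.length + 1 = D.length := by
      conv_rhs => rw [← hcons]
      rw [Walk.length_concat]
    refine ⟨D.dropLast, hC'.isPath_dropLast, by rw [hL, hlen], ?_, ?_⟩
    · intro h
      rw [hE, List.nodup_append] at hnod
      exact hnod.2.2 _ h _ (List.mem_singleton.2 rfl) Sym2.eq_swap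
    · intro e h
      rw [← hmem, hE]
      exact List.mem_append_left _ h

/-- A chain of vertices of degree two. -/
structure Ch (H : SimpleGraph V) (x : ℕ → V) (m : ℕ) : Prop where
  inj : ∀ i ≤ m, ∀ j ≤ m, x i = x j → i = j
  adj : ∀ i < m, H.Adj (x i) (x (i + 1))
  deg : ∀ i ≤ m, (H.neighborSet (x i)).ncard = 2

lemma Ch.reflect {H : SimpleGraph V} {x : ℕ → V} {m : ℕ} (h : Ch H x m) :
    Ch H (fun i => x (m - i)) m where
  inj i hi j hj hij := by
    have := h.inj (m - i) (by omega) (m - j) (by omega) hij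
    omega
  adj i hi := by
    have h1 := h.adj (m - (i + 1)) (by omega)
    have h2 : m - (i + 1) + 1 = m - i := by omega
    rw [h2] at h1
    exact h1.symm
  deg i _ := h.deg (m - i) (by omega)

lemma Ch.nbr {H : SimpleGraph V} {x : ℕ → V} {m : ℕ} (h : Ch H x m) {i : ℕ} (h1 : 1 ≤ i)
    (h2 : i < m) {w : V} (hw : H.Adj (x i) w) : w = x (i - 1) ∨ w = x (i + 1) := by
  have hfin : (H.neighborSet (x i)).Finite := by
    refine Set.finite_of_ncard_ne_zero ?_
    rw [h.deg i (by omega)]
    norm_num
  have hne : x (i - 1) ≠ x (i + 1) := by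
    intro he
    have := h.inj (i - 1) (by omega) (i + 1) (by omega) he
    omega
  have hsub : ({x (i - 1), x (i + 1)} : Set V) ⊆ H.neighborSet (x i) := by
    rintro z (rfl | hz)
    · have := h.adj (i - 1) (by omega)
      rw [show i - 1 + 1 = i by omega] at this
      exact this.symm
    · rw [Set.mem_singleton_iff] at hz
      subst hz
      exact h.adj i h2
  have heq := Set.eq_of_subset_of_ncard_le hsub
    (by rw [h.deg i (by omega), Set.ncard_pair hne]) hfin
  have : w ∈ ({x (i - 1), x (i + 1)} : Set V) := by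
    rw [heq]
    exact hw
  simpa using this

/-- A path which starts upwards on a chain follows the chain. -/
lemma Ch.follow {H : SimpleGraph V} {x : ℕ → V} {m : ℕ} (h : Ch H x m) {a b : V}
    (P : H.Walk a b) : ∀ i, a = x i → P.IsPath → 1 ≤ i → i + P.length ≤ m →
      x (i - 1) ∉ P.support → b = x (i + P.length) := by
  induction P with
  | nil => intro i hi _ _ _ _; simpa using hi
  | @cons a c b hac P ih =>
    intro i hi hP h1 hlen hno
    subst hi
    rw [Walk.length_cons] at hlen
    rw [Walk.support_cons, List.mem_cons, not_or] at hno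
    rw [Walk.cons_isPath_iff] at hP
    have hc := h.nbr h1 (by omega) hac
    have hc' : c ≠ x (i - 1) := by
      rintro rfl
      exact hno.2 P.start_mem_support
    have hc2 : c = x (i + 1) := hc.resolve_left hc'
    have := ih (i + 1) hc2 hP.1 (by omega) (by omega) (by simpa using hP.2)
    refine this.trans ?_
    rw [Walk.length_cons]
    congr 1
    omega

lemma Ch.end_of_path {H : SimpleGraph V} {x : ℕ → V} {m : ℕ} (h : Ch H x m) {i : ℕ} {b : V}
    (P : H.Walk (x i) b) (hP : P.IsPath) (h1 : 1 ≤ P.length) (h2 : P.length ≤ i)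
    (h3 : i + P.length ≤ m) : b = x (i + P.length) ∨ b = x (i - P.length) := by
  cases P with
  | nil => simp at h1
  | @cons _ c _ hac P =>
    rw [Walk.length_cons] at h2 h3
    rw [Walk.cons_isPath_iff] at hP
    rcases h.nbr (by omega) (by omega) hac with hc | hc
    · right
      have h' := h.reflect
      have := h'.follow P (m - i + 1) (by rw [hc]; congr 1; omega) hP.1 (by omega) (by omega)
        (by
          have : m - (m - i + 1 - 1) = i := by omega
          simp only [this]
          exact hP.2)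
      refine this.trans ?_
      rw [Walk.length_cons]
      congr 1
      omega
    · left
      have := h.follow P (i + 1) hc hP.1 (by omega) (by omega) (by simpa using hP.2)
      refine this.trans ?_
      rw [Walk.length_cons]
      congr 1
      omega

end B7

theorem no_long_chain [Finite V] {G E : SimpleGraph V} (hcub : ∀ v, (G.neighborSet v).ncard = 3)
    {s m : ℕ} (hs : 1 ≤ s) (hE : HitData G E s) (hm : 6 * s ≤ m) (x : ℕ → V)
    (hinj : ∀ i ≤ m, ∀ j ≤ m, x i = x j → i = j)
    (hadj : ∀ i < m, (G \ E).Adj (x i) (x (i + 1)))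
    (hdeg : ∀ i ≤ m, ((G \ E).neighborSet (x i)).ncard = 2) : ShortChorded G (3 * s) := by
  classical
  have hch : B7.Ch (G \ E) x m := ⟨hinj, hadj, hdeg⟩
  have hEG : E ≤ G := hE.le
  -- chain edges
  have hA : ∀ a b, b = a + 1 → b ≤ m → G.Adj (x a) (x b) ∧ ¬ E.Adj (x a) (x b) := by
    rintro a b rfl hb
    have := hadj a (by omega)
    rw [sdiff_adj] at this
    exact this
  -- (1)
  have key : ∀ i, s ≤ i → i + s ≤ m → ∃ j, E.Adj (x i) (x j) ∧ j < i + s ∧ i < j + s ∧
      (j + 2 ≤ i ∨ i + 2 ≤ j) ∧ j ≤ m := by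
    intro i hi1 hi2
    have hex : ∃ y, E.Adj (x i) y := by
      by_contra hno
      push Not at hno
      have : (G \ E).neighborSet (x i) = G.neighborSet (x i) := by
        ext w
        simp only [mem_neighborSet, sdiff_adj]
        exact ⟨fun h => h.1, fun h => ⟨h, hno w⟩⟩
      have h2 := hdeg i (by omega)
      rw [this, hcub] at h2
      omega
    obtain ⟨y, hy⟩ := hex
    obtain ⟨u, C, hC, hCl, heC, hpriv⟩ := hE.priv s(x i, y) hy
    obtain ⟨P, hP, hPl, hPe, hPC⟩ := B7.cycle_to_path C hC heC
    have h3 := hC.three_le_length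
    have htr : ∀ e ∈ P.edges, e ∈ (G \ E).edgeSet := by
      intro e he
      have h1 : e ∈ G.edgeSet := P.edges_subset_edgeSet he
      have h2 : e ∉ E.edgeSet := by
        intro h
        have := hpriv e (hPC e he) h
        rw [this] at he
        exact hPe he
      induction e using Sym2.ind with
      | _ a b =>
        rw [mem_edgeSet] at h1 h2 ⊢
        rw [sdiff_adj]
        exact ⟨h1, h2⟩
    have hP1 : (P.transfer (G \ E) htr).IsPath := hP.transfer htr
    have hl1 : (P.transfer (G \ E) htr).length = P.length := Walk.length_transfer _ _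
    have hend := hch.end_of_path (P.transfer (G \ E) htr) hP1 (by omega) (by omega) (by omega)
    rw [hl1] at hend
    rcases hend with hend | hend
    · exact ⟨i + P.length, by rw [← hend]; exact hy, by omega, by omega, by omega, by omega⟩
    · exact ⟨i - P.length, by rw [← hend]; exact hy, by omega, by omega, by omega, by omega⟩
  -- a minimal pair
  have hQ : ∃ d, ∃ i, s ≤ i ∧ i + d + s ≤ m ∧ 1 ≤ d ∧ E.Adj (x i) (x (i + d)) := by
    obtain ⟨j, hj, hj1, hj2, hj3, hj4⟩ := key (2 * s) (by omega) (by omega)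
    rcases hj3 with hj3 | hj3
    · refine ⟨2 * s - j, j, by omega, by omega, by omega, ?_⟩
      rw [show j + (2 * s - j) = 2 * s by omega]
      exact hj.symm
    · refine ⟨j - 2 * s, 2 * s, by omega, by omega, by omega, ?_⟩
      rw [show 2 * s + (j - 2 * s) = j by omega]
      exact hj
  obtain ⟨i, hi1, hi2, hd1, hij⟩ := Nat.find_spec hQ
  have hmin := fun d' (h : d' < Nat.find hQ) => Nat.find_min hQ h
  generalize Nat.find hQ = d at hi2 hd1 hij hmin
  obtain ⟨j, hj⟩ : ∃ j, j = i + d := ⟨_, rfl⟩
  rw [← hj] at hij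
  have hmin' : ∀ a b, s ≤ a → a < b → b + s ≤ m → b - a < d → ¬ E.Adj (x a) (x b) := by
    intro a b ha hab hb hd hE'
    refine hmin (b - a) hd ⟨a, ha, by omega, by omega, ?_⟩
    rw [show a + (b - a) = b by omega]
    exact hE'
  have hEm : ∀ a b c, b ≤ m → c ≤ m → E.Adj (x a) (x b) → E.Adj (x a) (x c) → b = c := by
    intro a b c hb hc h1 h2
    exact hinj b hb c hc (hE.mat _ _ _ h1 h2)
  have hd2 : 2 ≤ d := by
    by_contra hlt
    exact (hA i j (by omega) (by omega)).2 hij
  have hds : d < s := by
    obtain ⟨j', hj'1, hj'2, hj'3, hj'4, hj'5⟩ := key i hi1 (by omega)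
    have := hEm i j j' (by omega) hj'5 hij hj'1
    omega
  have hGij : G.Adj (x i) (x j) := hEG hij
  -- the neighbour of `x (j - 1)`
  obtain ⟨k, hk, hk1, hk2, hk3, hk4⟩ := key (j - 1) (by omega) (by omega)
  have hki : k ≠ i := by
    rintro rfl
    have := hEm k j (j - 1) (by omega) (by omega) hij hk.symm
    omega
  have hkj : k ≠ j := by
    rintro rfl
    have := hEm k i (k - 1) (by omega) (by omega) hij.symm hk.symm
    omega
  have hkm : ¬ (i < k ∧ k < j) := by
    rintro ⟨ha, hb⟩
    exact hmin' k (j - 1) (by omega) (by omega) (by omega) (by omega) hk.symm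
  have hGk : G.Adj (x (j - 1)) (x k) := hEG hk
  -- the neighbour of `x (i + 1)`
  obtain ⟨l, hl, hl1, hl2, hl3, hl4⟩ := key (i + 1) (by omega) (by omega)
  have hli : l ≠ i := by
    rintro rfl
    have := hEm l j (l + 1) (by omega) (by omega) hij hl.symm
    omega
  have hlj : l ≠ j := by
    rintro rfl
    have := hEm l i (i + 1) (by omega) (by omega) hij.symm hl.symm
    omega
  have hlm : ¬ (i < l ∧ l < j) := by
    rintro ⟨ha, hb⟩
    exact hmin' (i + 1) l (by omega) (by omega) (by omega) (by omega) hl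
  have hGl : G.Adj (x (i + 1)) (x l) := hEG hl
  have hchain : ∀ a b, (b = a + 1 ∨ a = b + 1) → a ≤ m → b ≤ m → G.Adj (x a) (x b) := by
    rintro a b (h | h) ha hb
    · exact (hA a b h hb).1
    · exact (hA b a h ha).1.symm
  rcases Nat.lt_or_ge j k with hjk | hjk
  · -- `k > j`
    obtain ⟨g, hg⟩ : ∃ g : ℕ → ℕ, g = fun t => if t < j - i then i + t else k - (t - (j - i)) :=
      ⟨_, rfl⟩
    have g1 : ∀ t, t < j - i → g t = i + t := fun t ht => by rw [hg]; exact if_pos ht
    have g2 : ∀ t, ¬ t < j - i → g t = k - (t - (j - i)) := fun t ht => by rw [hg]; exact if_neg ht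
    refine ShortChorded.mono (B7.short_of_index hinj g (k - i) (by omega) ?_ ?_ ?_ ?_
      (p := j - 1) (q := j) ?_ ?_ ?_ ?_ ?_) le_rfl (by omega)
    · intro t ht
      by_cases h : t < j - i
      · rw [g1 t h]; omega
      · rw [g2 t h]; omega
    · intro t ht t' ht' he
      by_cases h : t < j - i <;> by_cases h' : t' < j - i
      · rw [g1 t h, g1 t' h'] at he; omega
      · rw [g1 t h, g2 t' h'] at he; omega
      · rw [g2 t h, g1 t' h'] at he; omega
      · rw [g2 t h, g2 t' h'] at he; omega
    · intro t ht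
      by_cases h : t < j - i
      · by_cases h' : t + 1 < j - i
        · rw [g1 t h, g1 (t + 1) h']
          exact hchain _ _ (by omega) (by omega) (by omega)
        · rw [g1 t h, g2 (t + 1) h', show i + t = j - 1 by omega,
            show k - (t + 1 - (j - i)) = k by omega]
          exact hGk
      · rw [g2 t h, g2 (t + 1) (by omega)]
        exact hchain _ _ (by omega) (by omega) (by omega)
    · rw [g1 0 (by omega), g2 (k - i) (by omega), show k - (k - i - (j - i)) = j by omega,
        show i + 0 = i by omega]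
      exact hGij.symm
    · exact ⟨j - 1 - i, by omega, by rw [g1 _ (by omega)]; omega⟩
    · exact ⟨k - i, by omega, by rw [g2 _ (by omega)]; omega⟩
    · exact hchain _ _ (by omega) (by omega) (by omega)
    · intro t ht
      by_cases h : t < j - i
      · by_cases h' : t + 1 < j - i
        · rw [g1 t h, g1 (t + 1) h']; omega
        · rw [g1 t h, g2 (t + 1) h']; omega
      · rw [g2 t h, g2 (t + 1) (by omega)]; omega
    · rw [g1 0 (by omega), g2 (k - i) (by omega)]; omega
  rcases Nat.lt_or_ge l i with hil | hil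
  · -- `l < i`
    obtain ⟨g, hg⟩ : ∃ g : ℕ → ℕ, g = fun t => if t ≤ i - l then l + t
      else j - (t - (i - l) - 1) := ⟨_, rfl⟩
    have g1 : ∀ t, t ≤ i - l → g t = l + t := fun t ht => by rw [hg]; exact if_pos ht
    have g2 : ∀ t, ¬ t ≤ i - l → g t = j - (t - (i - l) - 1) := fun t ht => by
      rw [hg]; exact if_neg ht
    refine ShortChorded.mono (B7.short_of_index hinj g (j - l) (by omega) ?_ ?_ ?_ ?_
      (p := i) (q := i + 1) ?_ ?_ ?_ ?_ ?_) le_rfl (by omega)
    · intro t ht
      by_cases h : t ≤ i - l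
      · rw [g1 t h]; omega
      · rw [g2 t h]; omega
    · intro t ht t' ht' he
      by_cases h : t ≤ i - l <;> by_cases h' : t' ≤ i - l
      · rw [g1 t h, g1 t' h'] at he; omega
      · rw [g1 t h, g2 t' h'] at he; omega
      · rw [g2 t h, g1 t' h'] at he; omega
      · rw [g2 t h, g2 t' h'] at he; omega
    · intro t ht
      by_cases h : t ≤ i - l
      · by_cases h' : t + 1 ≤ i - l
        · rw [g1 t h, g1 (t + 1) h']
          exact hchain _ _ (by omega) (by omega) (by omega)
        · rw [g1 t h, g2 (t + 1) h', show l + t = i by omega,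
            show j - (t + 1 - (i - l) - 1) = j by omega]
          exact hGij
      · rw [g2 t h, g2 (t + 1) (by omega)]
        exact hchain _ _ (by omega) (by omega) (by omega)
    · rw [g1 0 (by omega), g2 (j - l) (by omega), show j - (j - l - (i - l) - 1) = i + 1 by omega,
        show l + 0 = l by omega]
      exact hGl
    · exact ⟨i - l, by omega, by rw [g1 _ (by omega)]; omega⟩
    · exact ⟨j - l, by omega, by rw [g2 _ (by omega)]; omega⟩
    · exact hchain _ _ (by omega) (by omega) (by omega)
    · intro t ht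
      by_cases h : t ≤ i - l
      · by_cases h' : t + 1 ≤ i - l
        · rw [g1 t h, g1 (t + 1) h']; omega
        · rw [g1 t h, g2 (t + 1) h']; omega
      · rw [g2 t h, g2 (t + 1) (by omega)]; omega
    · rw [g1 0 (by omega), g2 (j - l) (by omega)]; omega
  · -- `k < i` and `l > j`
    have hki' : k < i := by omega
    have hjl : j < l := by omega
    have hij2 : i + 1 ≠ j - 1 := by
      intro h
      rw [← h] at hk
      have := hEm (i + 1) k l (by omega) (by omega) hk hl
      omega
    obtain ⟨g, hg⟩ : ∃ g : ℕ → ℕ, g = fun t => if t ≤ l - j then j + t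
      else if t ≤ l - i - 1 then (t - (l - j) - 1) + (i + 1) else k + (t - (l - i)) := ⟨_, rfl⟩
    have g1 : ∀ t, t ≤ l - j → g t = j + t := fun t ht => by rw [hg]; exact if_pos ht
    have g2 : ∀ t, ¬ t ≤ l - j → t ≤ l - i - 1 → g t = (t - (l - j) - 1) + (i + 1) :=
      fun t ht ht' => by
        rw [hg]
        simp only [ht, ht', if_true, if_false]
    have g3 : ∀ t, ¬ t ≤ l - j → ¬ t ≤ l - i - 1 → g t = k + (t - (l - i)) :=
      fun t ht ht' => by
        rw [hg]
        simp only [ht, ht', if_false]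
    refine ShortChorded.mono (B7.short_of_index hinj g (l - k) (by omega) ?_ ?_ ?_ ?_
      (p := i) (q := i + 1) ?_ ?_ ?_ ?_ ?_) le_rfl (by omega)
    · intro t ht
      by_cases h : t ≤ l - j
      · rw [g1 t h]; omega
      · by_cases h' : t ≤ l - i - 1
        · rw [g2 t h h']; omega
        · rw [g3 t h h']; omega
    · intro t ht t' ht' he
      by_cases h : t ≤ l - j <;> by_cases h1 : t' ≤ l - j
      · rw [g1 t h, g1 t' h1] at he; omega
      · by_cases h2 : t' ≤ l - i - 1
        · rw [g1 t h, g2 t' h1 h2] at he; omega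
        · rw [g1 t h, g3 t' h1 h2] at he; omega
      · by_cases h2 : t ≤ l - i - 1
        · rw [g1 t' h1, g2 t h h2] at he; omega
        · rw [g1 t' h1, g3 t h h2] at he; omega
      · by_cases h2 : t ≤ l - i - 1 <;> by_cases h3 : t' ≤ l - i - 1
        · rw [g2 t h h2, g2 t' h1 h3] at he; omega
        · rw [g2 t h h2, g3 t' h1 h3] at he; omega
        · rw [g3 t h h2, g2 t' h1 h3] at he; omega
        · rw [g3 t h h2, g3 t' h1 h3] at he; omega
    · intro t ht
      by_cases h : t + 1 ≤ l - j
      · rw [g1 t (by omega), g1 (t + 1) h]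
        exact hchain _ _ (by omega) (by omega) (by omega)
      · by_cases h0 : t ≤ l - j
        · rw [g1 t h0, g2 (t + 1) h (by omega), show j + t = l by omega,
            show t + 1 - (l - j) - 1 + (i + 1) = i + 1 by omega]
          exact hGl.symm
        · by_cases h1 : t + 1 ≤ l - i - 1
          · rw [g2 t h0 (by omega), g2 (t + 1) h h1]
            exact hchain _ _ (by omega) (by omega) (by omega)
          · by_cases h2 : t ≤ l - i - 1
            · rw [g2 t h0 h2, g3 (t + 1) h h1, show t - (l - j) - 1 + (i + 1) = j - 1 by omega,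
                show k + (t + 1 - (l - i)) = k by omega]
              exact hGk
            · rw [g3 t h0 h2, g3 (t + 1) h h1]
              exact hchain _ _ (by omega) (by omega) (by omega)
    · rw [g1 0 (by omega), g3 (l - k) (by omega) (by omega),
        show k + (l - k - (l - i)) = i by omega, show j + 0 = j by omega]
      exact hGij
    · exact ⟨l - k, by omega, by rw [g3 _ (by omega) (by omega)]; omega⟩
    · exact ⟨l - j + 1, by omega, by rw [g2 _ (by omega) (by omega)]; omega⟩
    · exact hchain _ _ (by omega) (by omega) (by omega)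
    · intro t ht
      by_cases h : t + 1 ≤ l - j
      · rw [g1 t (by omega), g1 (t + 1) h]; omega
      · by_cases h0 : t ≤ l - j
        · rw [g1 t h0, g2 (t + 1) h (by omega)]; omega
        · by_cases h1 : t + 1 ≤ l - i - 1
          · rw [g2 t h0 (by omega), g2 (t + 1) h h1]; omega
          · by_cases h2 : t ≤ l - i - 1
            · rw [g2 t h0 h2, g3 (t + 1) h h1]; omega
            · rw [g3 t h0 h2, g3 (t + 1) h h1]; omega
    · rw [g1 0 (by omega), g3 (l - k) (by omega) (by omega)]; omega

end Pool.Agent.H40.CK
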