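import Pool.Agent.H40.CK.B4

/-!
# CK / B8: the degree-two vertices all of whose edges are bridges

Let `v ∈ T2 G`.  Walk from `x_0 = v` through degree-two vertices: `x_1` a neighbour, `x_{i+1}` the neighbour of
`x_i` other than `x_{i-1}`, as long as `x_i ∈ T2 G`.  The vertices `x_0, x_1, ...` are distinct: a
repetition would give a cycle of `G` through a vertex of `T2 G` (all edges at `x_i ∈ T2 G` are on no cycle).
By `hchain` not all of `x_0, ..., x_m` are in `T2 G` (their degree would be two).  Let `k ≤ m` be the first index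
with `x_k ∉ T2 G`; `k ≥ 1`.  Then `d = (x_k, x_{k-1}) ∈ ent G`, and `v` is obtained from the dart `d` by
`k - 1 ≤ m - 1` steps `(a, b) ↦ (b, the neighbour of b other than a)` (as the second component).
So `v ↦ (d, k - 1)` is an injection of `T2 G` into `ent G × {0, ..., m - 1}`.
-/

namespace Pool.Agent.H40.CK

open SimpleGraph

variable {V : Type*}

open Classical in
/-- a neighbour of `b` other than `a` -/
noncomputable def b8_other (G : SimpleGraph V) (a b : V) : V :=
  if h : ∃ c, G.Adj b c ∧ c ≠ a then h.choose else b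

private theorem b8_other_spec {G : SimpleGraph V} {a b : V} (hb : (G.neighborSet b).ncard = 2) :
    G.Adj b (b8_other G a b) ∧ b8_other G a b ≠ a := by
  have h : ∃ c, G.Adj b c ∧ c ≠ a := by
    obtain ⟨p, q, hpq, hs⟩ := Set.ncard_eq_two.1 hb
    have hp : G.Adj b p := by
      have : p ∈ G.neighborSet b := by rw [hs]; simp
      exact this
    have hq : G.Adj b q := by
      have : q ∈ G.neighborSet b := by rw [hs]; simp
      exact this
    by_cases hpa : p = a
    · exact ⟨q, hq, fun hqa => hpq (hpa.trans hqa.symm)⟩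
    · exact ⟨p, hp, hpa⟩
  unfold b8_other
  rw [dif_pos h]
  exact h.choose_spec

private theorem b8_other_unique {G : SimpleGraph V} {a b c : V}
    (hb : (G.neighborSet b).ncard = 2) (hab : G.Adj b a) (hc : G.Adj b c) (hca : c ≠ a) :
    b8_other G a b = c := by
  obtain ⟨h1, h2⟩ := b8_other_spec (a := a) hb
  obtain ⟨p, q, hpq, hs⟩ := Set.ncard_eq_two.1 hb
  have k1 : a ∈ G.neighborSet b := hab
  have k2 : c ∈ G.neighborSet b := hc
  have k3 : b8_other G a b ∈ G.neighborSet b := h1
  rw [hs] at k1 k2 k3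
  simp only [Set.mem_insert_iff, Set.mem_singleton_iff] at k1 k2 k3
  rcases k1 with k1 | k1 <;> rcases k2 with k2 | k2 <;> rcases k3 with k3 | k3
  · exact k3.trans k2.symm
  · exact absurd (k2.trans k1.symm) hca
  · exact absurd (k3.trans k1.symm) h2
  · exact k3.trans k2.symm
  · exact k3.trans k2.symm
  · exact absurd (k3.trans k1.symm) h2
  · exact absurd (k2.trans k1.symm) hca
  · exact k3.trans k2.symm

/-- the walk -/
private noncomputable def b8_walk (G : SimpleGraph V) (v w : V) : ℕ → V × V
  | 0 => (v, w)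
  | i + 1 => ((b8_walk G v w i).2, b8_other G (b8_walk G v w i).1 (b8_walk G v w i).2)

private theorem b8_walk_fst (G : SimpleGraph V) (v w : V) (i : ℕ) :
    (b8_walk G v w (i + 1)).1 = (b8_walk G v w i).2 := rfl

private theorem b8_inj {G : SimpleGraph V} {x : ℕ → V} {m : ℕ}
    (hadj : ∀ i < m, G.Adj (x i) (x (i + 1))) (hT : ∀ i ≤ m, x i ∈ T2 G)
    (hnb : ∀ i, i + 2 ≤ m → x (i + 2) ≠ x i) :
    ∀ j ≤ m, ∀ i < j, x i ≠ x j := by
  intro j
  induction j using Nat.strong_induction_on with
  | _ j ih =>
    intro hj i hij heq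
    -- distinctness below `j`
    have hdist : ∀ p < j, ∀ q < j, x p = x q → p = q := by
      intro p hp q hq hpq
      rcases lt_trichotomy p q with h | h | h
      · exact absurd hpq (ih q hq (by omega) p h)
      · exact h
      · exact absurd hpq.symm (ih p hp (by omega) q h)
    have hreach : ∀ l, i + 1 ≤ l → l ≤ j →
        (G \ fromEdgeSet {s(x i, x (i + 1))}).Reachable (x (i + 1)) (x l) := by
      intro l hl
      induction l, hl using Nat.le_induction with
      | base => intro _; exact Reachable.refl _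
      | succ l hl ih2 =>
        intro hlj
        refine (ih2 (by omega)).trans (Adj.reachable ?_)
        rw [sdiff_adj]
        refine ⟨hadj l (by omega), ?_⟩
        rw [fromEdgeSet_adj]
        rintro ⟨hmem, -⟩
        rw [Set.mem_singleton_iff, Sym2.eq_iff] at hmem
        rcases hmem with ⟨h1, -⟩ | ⟨h1, h2⟩
        · have := hdist l (by omega) i (by omega) h1
          omega
        · have h3 := hdist l (by omega) (i + 1) (by omega) h1
          subst h3
          exact hnb i (by omega) h2
    have h1 : (G \ fromEdgeSet {s(x i, x (i + 1))}).Reachable (x i) (x (i + 1)) := by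
      have := (hreach j (by omega) le_rfl).symm
      rwa [← heq] at this
    have h2 := adj_and_reachable_delete_edges_iff_exists_cycle.1 ⟨hadj i (by omega), h1⟩
    have h3 : (cyc G).Adj (x i) (x (i + 1)) := h2
    exact (hT i (by omega)).1 ⟨_, h3⟩

private theorem b8_exists {G : SimpleGraph V} {m : ℕ} 
    (hchain : ∀ x : ℕ → V, (∀ i ≤ m, ∀ j ≤ m, x i = x j → i = j) →
      (∀ i < m, G.Adj (x i) (x (i + 1))) → (∀ i ≤ m, (G.neighborSet (x i)).ncard = 2) → False)
    {v : V} (hv : v ∈ T2 G) :
    ∃ d ∈ ent G, ∃ j < m, ((fun p : V × V => (p.2, b8_other G p.1 p.2))^[j] d).2 = v := by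
  obtain ⟨w, q, hwq, hs⟩ := Set.ncard_eq_two.1 hv.2
  have hvw : G.Adj v w := by
    have : w ∈ G.neighborSet v := by rw [hs]; simp
    exact this
  set x : ℕ → V := fun i => (b8_walk G v w i).1 with hx
  have hx0 : x 0 = v := rfl
  have hx1 : x 1 = w := rfl
  have hx2 : ∀ i, x (i + 2) = b8_other G (x i) (x (i + 1)) := fun i => rfl
  have hA : ∀ n, (∀ i < n, x i ∈ T2 G) → ∀ i < n, G.Adj (x i) (x (i + 1)) := by
    intro n hn i
    induction i with
    | zero => intro _; exact hvw
    | succ i ih =>
      intro hi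
      rw [hx2]
      exact (b8_other_spec (hn (i + 1) hi).2).1
  have hB : ∀ i, x (i + 1) ∈ T2 G → x (i + 2) ≠ x i := by
    intro i hi
    rw [hx2]
    exact (b8_other_spec hi.2).2
  have hex : ∃ k ≤ m, x k ∉ T2 G := by
    by_contra hcon
    push Not at hcon
    have hadj : ∀ i < m, G.Adj (x i) (x (i + 1)) := by
      intro i hi
      exact hA (i + 1) (fun j hj => hcon j (by omega)) i (by omega)
    have hinj := b8_inj hadj hcon (fun i hi => hB i (hcon (i + 1) (by omega)))
    refine hchain x ?_ hadj (fun i hi => (hcon i hi).2)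
    intro i hi j hj hij
    rcases lt_trichotomy i j with h | h | h
    · exact absurd hij (hinj j hj i h)
    · exact h
    · exact absurd hij.symm (hinj i hi j h)
  classical
  obtain ⟨k, ⟨hkm, hk⟩, hmin⟩ : ∃ k, (k ≤ m ∧ x k ∉ T2 G) ∧ ∀ i < k, x i ∈ T2 G := by
    refine ⟨Nat.find hex, Nat.find_spec hex, fun i hi => ?_⟩
    by_contra hcon
    have h1 := Nat.find_spec hex
    exact Nat.find_min hex hi ⟨by omega, hcon⟩
  have hk0 : 0 < k := by
    rcases Nat.eq_zero_or_pos k with h | h
    · subst h; exact absurd hv hk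
    · exact h
  have hadj := hA k hmin
  refine ⟨(x k, x (k - 1)), ⟨?_, hk, hmin _ (by omega)⟩, k - 1, by omega, ?_⟩
  · have := hadj (k - 1) (by omega)
    rw [show k - 1 + 1 = k by omega] at this
    exact this.symm
  · have hstep : ∀ j, j ≤ k - 1 →
        ((fun p : V × V => (p.2, b8_other G p.1 p.2))^[j] (x k, x (k - 1))) =
          (x (k - j), x (k - 1 - j)) := by
      intro j
      induction j with
      | zero => intro _; rfl
      | succ j ih =>
        intro hj
        rw [Function.iterate_succ_apply', ih (by omega)]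
        have e1 : k - (j + 1) = k - 1 - j := by omega
        rw [e1]
        refine Prod.ext rfl ?_
        show b8_other G (x (k - j)) (x (k - 1 - j)) = x (k - 1 - (j + 1))
        obtain ⟨i, hi⟩ : ∃ i, k - 1 - (j + 1) = i := ⟨_, rfl⟩
        have e2 : k - 1 - j = i + 1 := by omega
        have e3 : k - j = i + 2 := by omega
        rw [hi, e2, e3]
        refine b8_other_unique (hmin (i + 1) (by omega)).2 (hadj (i + 1) (by omega))
          (hadj i (by omega)).symm ?_
        exact (hB i (hmin (i + 1) (by omega))).symm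
    rw [hstep (k - 1) le_rfl]
    show x (k - 1 - (k - 1)) = v
    rw [Nat.sub_self, hx0]

theorem T2_bound [Finite V] {G : SimpleGraph V} {m : ℕ} (hm : 1 ≤ m)
    (hchain : ∀ x : ℕ → V, (∀ i ≤ m, ∀ j ≤ m, x i = x j → i = j) →
      (∀ i < m, G.Adj (x i) (x (i + 1))) → (∀ i ≤ m, (G.neighborSet (x i)).ncard = 2) → False) :
    (T2 G).ncard ≤ m * (ent G).ncard := by
  classical
  let f : V × V → V × V := fun p => (p.2, b8_other G p.1 p.2)
  have hsub : T2 G ⊆ (fun q : ℕ × (V × V) => (f^[q.1] q.2).2) '' (Set.Iio m ×ˢ ent G) := by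
    intro v hv
    obtain ⟨d, hd, j, hj, h⟩ := b8_exists hchain hv
    exact ⟨(j, d), ⟨hj, hd⟩, h⟩
  have hfin : (Set.Iio m ×ˢ ent G).Finite := (Set.finite_Iio m).prod (Set.toFinite _)
  calc (T2 G).ncard ≤ ((fun q : ℕ × (V × V) => (f^[q.1] q.2).2) '' (Set.Iio m ×ˢ ent G)).ncard :=
        Set.ncard_le_ncard hsub (hfin.image _)
    _ ≤ (Set.Iio m ×ˢ ent G).ncard := Set.ncard_image_le hfin
    _ = m * (ent G).ncard := by
        rw [Set.ncard_prod]
        congr 1
        rw [Set.ncard_eq_toFinset_card']
        simp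

end Pool.Agent.H40.CK
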