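import Pool.Agent.H40.CK.B5

/-!
# CK / B9: few vertices are outside `cyc G₁`

Let `H = cyc G₁`, `𝒦` its set of components, `b κ = bdeg G₁ κ`.  Trivial components `{v}` ↔ `v ∉ H.support`; for
them `b` is the `G₁`-degree of `v`, `2` (`v ∈ T2`) or `3` (`v ∈ T3`).
`∑_κ b κ = 2 #bridges < 2 #𝒦` (`sum_bdeg`, `card_bridges_lt`), i.e. `∑_κ (b κ - 2) < 0` in `ℤ`.
Let `ν` be the number of nontrivial `κ` with `b κ ≤ 2`.  Then
`#T3 + ∑_{nontrivial, b ≥ 3} (b κ - 2) < ∑_{nontrivial, b ≤ 2} (2 - b κ) ≤ 2 ν`; in particular `ν ≥ 1`.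
`#(ent G₁) ≤` number of bridge-darts `(u, v)` with `u ∉ T2` `= 3 #T3 + ∑_{nontrivial} b κ
 ≤ 3 #T3 + 3 ∑_{b ≥ 3} (b κ - 2) + 2 ν ≤ 8 ν` (use `b ≤ 3 (b - 2)` for `b ≥ 3`).  (A dart of `ent` is not an
`H`-edge because its second vertex is outside `H.support`.)
So `#H.supportᶜ = #T3 + #T2 ≤ 2 ν + 6 s · 8 ν ≤ 50 s ν`.
Every nontrivial `κ` with `b κ ≤ 2` has more than `6000 s` vertices, all in `H.support`; the components are
disjoint: `6000 s ν ≤ #H.support`.  So `100 #H.supportᶜ ≤ 5000 s ν ≤ #H.support`, and `H.support ≠ ∅`.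
-/

namespace Pool.Agent.H40.CK

open SimpleGraph

variable {V : Type*}

theorem B9_supp_of_isolated {H : SimpleGraph V} {v : V} (hv : v ∉ H.support) :
    (H.connectedComponentMk v).supp = {v} := by
  ext w
  simp only [ConnectedComponent.mem_supp_iff, Set.mem_singleton_iff, ConnectedComponent.eq]
  constructor
  · rintro ⟨p⟩
    have p' := p.reverse
    cases p' with
    | nil => rfl
    | cons h _ => exact absurd ⟨_, h⟩ hv
  · rintro rfl
    exact Reachable.refl _

theorem B9_nontrivial_of_mem {H : SimpleGraph V} {v : V} (hv : v ∈ H.support) :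
    (H.connectedComponentMk v).supp.Nontrivial := by
  obtain ⟨w, hw⟩ := hv
  have hw' : H.Adj v w := hw
  refine ⟨v, by simp, w, ?_, hw'.ne⟩
  simp only [ConnectedComponent.mem_supp_iff, ConnectedComponent.eq]
  exact hw'.reachable.symm

theorem B9_supp_subset {H : SimpleGraph V} {κ : H.ConnectedComponent} (h : κ.supp.Nontrivial) :
    κ.supp ⊆ H.support := by
  intro v hv
  by_contra hcon
  rw [ConnectedComponent.mem_supp_iff] at hv
  subst hv
  rw [B9_supp_of_isolated hcon] at h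
  exact Set.not_nontrivial_singleton h

theorem T_bound [Finite V] [Nonempty V] {G₁ : SimpleGraph V}
    (hdeg : ∀ v, (G₁.neighborSet v).ncard = 2 ∨ (G₁.neighborSet v).ncard = 3) {s : ℕ} (hs : 1 ≤ s)
    (hbig : ∀ κ : (cyc G₁).ConnectedComponent, κ.supp.Nontrivial → bdeg G₁ κ ≤ 2 →
      6000 * s < κ.supp.ncard)
    (hT2 : (T2 G₁).ncard ≤ 6 * s * (ent G₁).ncard) :
    100 * ((cyc G₁).supportᶜ).ncard ≤ (cyc G₁).support.ncard ∧ (cyc G₁).support.Nonempty := by
  classical
  have := Fintype.ofFinite V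
  set H : SimpleGraph V := cyc G₁ with hH
  have := Fintype.ofFinite H.ConnectedComponent
  set c : V → H.ConnectedComponent := H.connectedComponentMk with hc
  have hbr : (G₁.edgeSet \ H.edgeSet).ncard < Fintype.card H.ConnectedComponent := by
    rw [← Nat.card_eq_fintype_card]
    exact card_bridges_lt G₁
  have hsum : ∑ κ : H.ConnectedComponent, bdeg G₁ κ = 2 * (G₁.edgeSet \ H.edgeSet).ncard :=
    sum_bdeg G₁
  set 𝒩 : Finset H.ConnectedComponent := Finset.univ.filter fun κ => κ.supp.Nontrivial with h𝒩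
  set 𝒯 : Finset H.ConnectedComponent := Finset.univ.filter fun κ => ¬ κ.supp.Nontrivial with h𝒯
  set N2 : Finset H.ConnectedComponent := 𝒩.filter fun κ => bdeg G₁ κ ≤ 2 with hN2
  set N3 : Finset H.ConnectedComponent := 𝒩.filter fun κ => ¬ bdeg G₁ κ ≤ 2 with hN3
  set U : Finset V := Finset.univ.filter fun v => v ∉ H.support with hU
  set U2 : Finset V := U.filter fun v => (G₁.neighborSet v).ncard = 2 with hU2
  set U3 : Finset V := U.filter fun v => ¬ (G₁.neighborSet v).ncard = 2 with hU3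
  have hUmem : ∀ v, v ∈ U ↔ v ∉ H.support := fun v => by simp [hU]
  -- the bridge darts
  set Bd : H.ConnectedComponent → Finset (V × V) := fun κ =>
    Finset.univ.filter fun d => d.1 ∈ κ.supp ∧ G₁.Adj d.1 d.2 ∧ ¬ H.Adj d.1 d.2 with hBd
  have hBdc : ∀ κ, (Bd κ).card = bdeg G₁ κ := by
    intro κ
    rw [← Set.ncard_coe_finset]
    unfold bdeg
    congr 1
    ext d
    simp only [hBd, Finset.coe_filter, Finset.mem_univ, true_and]
    rfl
  -- degree of trivial components
  have htriv : ∀ v ∈ U, bdeg G₁ (c v) = (G₁.neighborSet v).ncard := by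
    intro v hv
    have hv' := (hUmem v).1 hv
    have himg : {d : V × V | d.1 ∈ (c v).supp ∧ G₁.Adj d.1 d.2 ∧ ¬ (cyc G₁).Adj d.1 d.2} =
        (fun w => (v, w)) '' G₁.neighborSet v := by
      ext d
      obtain ⟨x, y⟩ := d
      simp only [Set.mem_ofPred_eq, Set.mem_image, mem_neighborSet, Prod.mk.injEq]
      rw [hc, B9_supp_of_isolated hv', Set.mem_singleton_iff]
      constructor
      · rintro ⟨rfl, h1, _⟩
        exact ⟨y, h1, rfl, rfl⟩
      · rintro ⟨w, h1, rfl, rfl⟩
        exact ⟨rfl, h1, fun h => hv' ⟨_, h⟩⟩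
    unfold bdeg
    rw [himg]
    exact Set.ncard_image_of_injective _ (fun a b h => (Prod.ext_iff.1 h).2)
  have hinj : Set.InjOn c (U : Set V) := by
    intro v hv w hw hvw
    have h1 := B9_supp_of_isolated ((hUmem v).1 hv)
    have h2 : w ∈ (c v).supp := by rw [hvw]; simp [hc]
    rw [hc, h1] at h2
    exact (Set.mem_singleton_iff.1 h2).symm
  have h𝒯img : 𝒯 = U.image c := by
    ext κ
    simp only [h𝒯, Finset.mem_filter, Finset.mem_univ, true_and, Finset.mem_image]
    constructor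
    · intro h
      obtain ⟨v, rfl⟩ := κ.exists_rep
      refine ⟨v, (hUmem v).2 fun hv => h (B9_nontrivial_of_mem hv), rfl⟩
    · rintro ⟨v, hv, rfl⟩
      rw [hc, B9_supp_of_isolated ((hUmem v).1 hv)]
      exact Set.not_nontrivial_singleton
  have hsum𝒯 : ∑ κ ∈ 𝒯, bdeg G₁ κ = 2 * U2.card + ∑ v ∈ U3, (G₁.neighborSet v).ncard := by
    rw [h𝒯img, Finset.sum_image hinj, Finset.sum_congr rfl htriv,
      ← Finset.sum_filter_add_sum_filter_not U (fun v => (G₁.neighborSet v).ncard = 2)]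
    congr 1
    rw [Finset.sum_congr rfl (g := fun _ => 2) (fun v hv => (Finset.mem_filter.1 hv).2)]
    simp [mul_comm, hU2]
  have hU3deg : ∀ v ∈ U3, (G₁.neighborSet v).ncard = 3 := by
    intro v hv
    have := (Finset.mem_filter.1 hv).2
    rcases hdeg v with h | h
    · exact absurd h this
    · exact h
  have hsumU3 : ∑ v ∈ U3, (G₁.neighborSet v).ncard = 3 * U3.card := by
    rw [Finset.sum_congr rfl hU3deg]; simp [mul_comm]
  have hcardU : U.card = U2.card + U3.card :=
    (Finset.card_filter_add_card_filter_not (s := U) fun v => (G₁.neighborSet v).ncard = 2).symm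
  have hcard𝒯 : 𝒯.card = U.card := by rw [h𝒯img, Finset.card_image_of_injOn hinj]
  have hcard𝒩 : 𝒩.card = N2.card + N3.card :=
    (Finset.card_filter_add_card_filter_not (s := 𝒩) fun κ => bdeg G₁ κ ≤ 2).symm
  have hcard𝒦 : Fintype.card H.ConnectedComponent = 𝒩.card + 𝒯.card := by
    rw [← Finset.card_univ]
    exact (Finset.card_filter_add_card_filter_not (s := Finset.univ)
      fun κ : H.ConnectedComponent => κ.supp.Nontrivial).symm
  have hsplit : ∑ κ : H.ConnectedComponent, bdeg G₁ κ =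
      (∑ κ ∈ 𝒩, bdeg G₁ κ) + ∑ κ ∈ 𝒯, bdeg G₁ κ :=
    (Finset.sum_filter_add_sum_filter_not Finset.univ
      (fun κ : H.ConnectedComponent => κ.supp.Nontrivial) _).symm
  have hsplit𝒩 : ∑ κ ∈ 𝒩, bdeg G₁ κ = (∑ κ ∈ N2, bdeg G₁ κ) + ∑ κ ∈ N3, bdeg G₁ κ :=
    (Finset.sum_filter_add_sum_filter_not 𝒩 (fun κ => bdeg G₁ κ ≤ 2) _).symm
  have hN3b : 3 * N3.card ≤ ∑ κ ∈ N3, bdeg G₁ κ := by
    have := Finset.card_nsmul_le_sum N3 (fun κ => bdeg G₁ κ) 3 (fun κ hκ => by
      have := (Finset.mem_filter.1 hκ).2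
      omega)
    simpa [mul_comm] using this
  -- the entering darts
  have hent : (ent G₁).ncard ≤ (∑ κ ∈ 𝒩, bdeg G₁ κ) + 3 * U3.card := by
    have hsub : ent G₁ ⊆ ((𝒩.biUnion Bd ∪ U3.biUnion fun v => Bd (c v) : Finset (V × V)) :
        Set (V × V)) := by
      rintro ⟨x, y⟩ ⟨h1, h2, h3⟩
      simp only at h1 h2 h3
      have hnH : ¬ H.Adj x y := fun h => h3.1 ⟨x, h.symm⟩
      have hmemBd : (x, y) ∈ Bd (c x) := by
        simp only [hBd, Finset.mem_filter, Finset.mem_univ, true_and]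
        exact ⟨by simp [hc], h1, hnH⟩
      rw [Finset.mem_coe, Finset.mem_union, Finset.mem_biUnion, Finset.mem_biUnion]
      by_cases hx : x ∈ H.support
      · exact Or.inl ⟨c x, by simp only [h𝒩, Finset.mem_filter, Finset.mem_univ, true_and]
                              exact B9_nontrivial_of_mem hx, hmemBd⟩
      · refine Or.inr ⟨x, ?_, hmemBd⟩
        simp only [hU3, Finset.mem_filter]
        exact ⟨(hUmem x).2 hx, fun h => h2 ⟨hx, h⟩⟩
    have h1 := Set.ncard_le_ncard hsub (Set.toFinite _)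
    rw [Set.ncard_coe_finset] at h1
    refine h1.trans ((Finset.card_union_le _ _).trans (Nat.add_le_add ?_ ?_))
    · refine Finset.card_biUnion_le.trans (le_of_eq ?_)
      exact Finset.sum_congr rfl fun κ _ => hBdc κ
    · refine Finset.card_biUnion_le.trans (le_of_eq ?_)
      rw [← hsumU3]
      refine Finset.sum_congr rfl fun v hv => ?_
      rw [hBdc, htriv v (Finset.mem_filter.1 hv).1]
  -- the large components
  have hlarge : N2.card * (6000 * s) ≤ H.support.ncard := by
    set Sp : H.ConnectedComponent → Finset V := fun κ => Finset.univ.filter fun v => v ∈ κ.supp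
      with hSp
    have hSpc : ∀ κ, (Sp κ).card = κ.supp.ncard := by
      intro κ
      rw [← Set.ncard_coe_finset]
      congr 1
      ext v; simp [hSp]
    have hdisj : ∀ κ ∈ N2, ∀ κ' ∈ N2, κ ≠ κ' → Disjoint (Sp κ) (Sp κ') := by
      intro κ _ κ' _ hne
      rw [Finset.disjoint_left]
      intro v h1 h2
      simp only [hSp, Finset.mem_filter, Finset.mem_univ, true_and,
        ConnectedComponent.mem_supp_iff] at h1 h2
      exact hne (h1.symm.trans h2)
    have h1 : (N2.biUnion Sp).card = ∑ κ ∈ N2, (Sp κ).card := Finset.card_biUnion hdisj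
    have h2 : ((N2.biUnion Sp : Finset V) : Set V) ⊆ H.support := by
      intro v hv
      rw [Finset.mem_coe, Finset.mem_biUnion] at hv
      obtain ⟨κ, hκ, hv⟩ := hv
      simp only [hSp, Finset.mem_filter, Finset.mem_univ, true_and] at hv
      have hnt : κ.supp.Nontrivial := (Finset.mem_filter.1 (Finset.mem_filter.1 hκ).1).2
      exact B9_supp_subset hnt hv
    have h3 := Set.ncard_le_ncard h2 (Set.toFinite _)
    rw [Set.ncard_coe_finset, h1] at h3
    refine le_trans ?_ h3
    have := Finset.card_nsmul_le_sum N2 (fun κ => (Sp κ).card) (6000 * s) (fun κ hκ => by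
      have hκ' := Finset.mem_filter.1 hκ
      rw [hSpc]
      exact (hbig κ (Finset.mem_filter.1 hκ'.1).2 hκ'.2).le)
    simpa using this
  have hcompl : (H.supportᶜ).ncard = U.card := by
    rw [← Set.ncard_coe_finset]
    congr 1
    ext v; simp [hU]
  have hT2c : (T2 G₁).ncard = U2.card := by
    rw [← Set.ncard_coe_finset]
    congr 1
    ext v
    simp only [T2, hU2, hU, Finset.coe_filter, Finset.mem_filter, Finset.mem_univ, true_and,
      Set.mem_ofPred_eq]
    rfl
  rw [hT2c] at hT2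
  set ν := N2.card with hν
  rw [hsplit, hsplit𝒩, hsum𝒯, hsumU3] at hsum
  rw [hcard𝒦, hcard𝒩, hcard𝒯, hcardU] at hbr
  rw [hsplit𝒩] at hent
  have hfirst : N3.card + (∑ κ ∈ N2, bdeg G₁ κ) + U3.card < 2 * ν := by omega
  have hν1 : 1 ≤ ν := by omega
  have hent8 : (ent G₁).ncard ≤ 8 * ν := by omega
  have hU2' : U2.card ≤ 48 * (s * ν) := by
    calc U2.card ≤ 6 * s * (ent G₁).ncard := hT2
      _ ≤ 6 * s * (8 * ν) := Nat.mul_le_mul_left _ hent8
      _ = 48 * (s * ν) := by ring
  have hsν : ν ≤ s * ν := Nat.le_mul_of_pos_left ν hs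
  have hl : 6000 * (s * ν) ≤ H.support.ncard := by
    calc 6000 * (s * ν) = ν * (6000 * s) := by ring
      _ ≤ _ := hlarge
  refine ⟨?_, ?_⟩
  · rw [hcompl, hcardU]
    omega
  · rw [← Set.ncard_pos (Set.toFinite _)]
    omega

end Pool.Agent.H40.CK
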