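import Pool.Agent.H40.CK.B12

/-!
# CK / B13: graphs containing a 3-regular subgraph
-/

namespace Pool.Agent.H40.CK

open SimpleGraph

/-- Transfer of rich cycles along an injective homomorphism. -/
theorem chords_map {W V : Type*} [Finite V] {H : SimpleGraph W} {G : SimpleGraph V} (f : H →g G)
    (hf : Function.Injective f) {u : W} (C : H.Walk u u) :
    (chords H C).ncard ≤ (chords G (C.map f)).ncard := by
  classical
  have hinj : Function.Injective (Sym2.map f) := Sym2.map.injective hf
  rw [← Set.ncard_image_of_injective _ hinj]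
  refine Set.ncard_le_ncard ?_ (Set.toFinite _)
  rintro e' ⟨e, ⟨h1, h2, h3⟩, rfl⟩
  refine ⟨?_, ?_, ?_⟩
  · induction e with
    | h x y => exact f.map_adj h1
  · rw [Walk.edges_map]
    intro hmem
    obtain ⟨e'', he'', heq⟩ := List.mem_map.1 hmem
    exact h2 (hinj heq ▸ he'')
  · intro z hz
    rw [Sym2.mem_map] at hz
    obtain ⟨w, hw, rfl⟩ := hz
    rw [Walk.support_map]
    exact List.mem_map.2 ⟨w, h3 w hw, rfl⟩

theorem subcubic_main {V : Type*} [Finite V] (G H : SimpleGraph V) (hle : H ≤ G)
    (hne : H.support.Nonempty) (h3 : ∀ v ∈ H.support, (H.neighborSet v).ncard = 3) :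
    ∃ (u : V) (C : G.Walk u u), C.IsCycle ∧
      (1 / 10 ^ 20 : ℝ) * (C.length : ℝ) ≤ ((chords G C).ncard : ℝ) := by
  classical
  haveI : Nonempty H.support := hne.to_subtype
  have hcub : ∀ v : H.support, ((H.induce H.support).neighborSet v).ncard = 3 := by
    intro v
    rw [← h3 v v.2, ← Set.ncard_image_of_injective _ Subtype.val_injective]
    congr 1
    ext w
    constructor
    · rintro ⟨x, hx, rfl⟩
      exact hx
    · intro hw
      exact ⟨⟨w, ⟨v, (show H.Adj v w from hw).symm⟩⟩, hw, rfl⟩
  obtain ⟨u, C, hC, hCc⟩ := cubic_main (H.induce H.support) hcub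
  let f : H.induce H.support →g G :=
    ⟨Subtype.val, fun {a b} h => hle (show H.Adj a b from h)⟩
  have hf : Function.Injective f := Subtype.val_injective
  refine ⟨f u, C.map f, hC.map hf, ?_⟩
  have h1 := chords_map f hf C
  have h2 : (C.map f).length = C.length := by simp
  rw [h2]
  have h3' : ((chords (H.induce H.support) C).ncard : ℝ) ≤ ((chords G (C.map f)).ncard : ℝ) := by
    exact_mod_cast h1
  linarith

end Pool.Agent.H40.CK
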