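import Pool.Agent.H40.CK.Defs

/-!
# CK / Basic: elementary facts
-/

namespace Pool.Agent.H40.CK

open SimpleGraph

variable {V : Type*}

theorem ShortChorded.mono {G G' : SimpleGraph V} {n m : ℕ} (h : ShortChorded G n) (hG : G ≤ G')
    (hn : n ≤ m) : ShortChorded G' m := by
  obtain ⟨u, C, hC, hl, e, he, he1, he2⟩ := h
  refine ⟨u, C.mapLe hG, hC.mapLe hG, by simpa using hl.trans hn, e, ?_, ?_, ?_⟩
  · exact (edgeSet_mono hG) he
  · simpa using he1
  · simpa using he2

theorem cyc_le (G : SimpleGraph V) : cyc G ≤ G := by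
  rintro u v ⟨w, C, -, he⟩
  exact C.adj_of_mem_edges he

end Pool.Agent.H40.CK
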