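import Pool.Agent.H40.CK.A2
import Pool.Agent.H40.CK.Basic

/-!
# CK / B2a: arcs of a cyclic sequence, gluing two paths to a cycle with a chord, ears

`arc`: the walk `c a, c (a+1), ..., c b`.

`glue`: `P.append R` is a closed walk; it is a cycle because `P`, `R` are paths whose supports meet only
in `{a, b}` and the total length is at least three; `s(x, y)` is a chord.

`exists_ear`: `G` is cubic, so the neighbours of `c i` are `c (i+1)`, `c (i-1)` and `y`.  Rotate the cycle `Z`
to start at `c i` and orient it such that its first step is to `y`: `Z = cons (c i → y) Z'`, where `Z'` is a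
path from `y` to `c i`.  The last vertex of `Z'` before `c i` is a neighbour of `c i` other than `y`, so it is
`c (i ± 1)`, a vertex of the cyclic sequence different from `c i`.  Hence the first vertex of `Z'` lying on
the cyclic sequence is not `c i`; call it `c j` and let `P = cons (c i → y) (Z'.takeUntil (c j))`.  Its length is
at most `Z.length - 1`; all its vertices except `c i` and `c j` are off the sequence.  No edge of `P` is
`s(c k, c (k+1))`: such an edge would have both ends in `{c i, c j}`, so would be the first edge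
`s(c i, y)`, but `y ≠ c (i ± 1)`.
-/

namespace Pool.Agent.H40.CK

open SimpleGraph

variable {V : Type*}

theorem B2a_arc_aux {G : SimpleGraph V} {c : ℤ → V} {m : ℕ} (hc : CycSeq G c m) (a : ℤ) :
    ∀ n : ℕ, n < m → ∃ P : G.Walk (c a) (c (a + n)), P.IsPath ∧ P.length = n ∧
      (∀ w, w ∈ P.support ↔ ∃ k, a ≤ k ∧ k ≤ a + n ∧ w = c k) ∧
      (∀ e, e ∈ P.edges ↔ ∃ k, a ≤ k ∧ k < a + n ∧ e = s(c k, c (k + 1))) := by
  intro n
  induction n with
  | zero =>
    intro _
    have h0 : c (a + (0 : ℕ)) = c a := by simp
    refine ⟨(Walk.nil : G.Walk (c a) (c a)).copy rfl h0.symm, by simp, by simp, ?_, ?_⟩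
    · intro w
      simp only [Walk.support_copy, Walk.support_nil, List.mem_singleton]
      constructor
      · rintro rfl
        exact ⟨a, le_rfl, by simp, rfl⟩
      · rintro ⟨k, h1, h2, rfl⟩
        have : k = a := by
          push_cast at h2
          omega
        rw [this]
    · intro e
      simp only [Walk.edges_copy, Walk.edges_nil, List.not_mem_nil, false_iff]
      rintro ⟨k, h1, h2, -⟩
      push_cast at h2
      omega
  | succ n ih =>
    intro hn
    obtain ⟨P, hP, hl, hs, he⟩ := ih (by omega)
    have h1 : c (a + ((n + 1 : ℕ) : ℤ)) = c (a + n + 1) := by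
      push_cast
      rw [add_assoc]
    have hadj : G.Adj (c (a + n)) (c (a + n + 1)) := hc.adj _
    have hnot : c (a + n + 1) ∉ P.support := by
      intro h
      obtain ⟨k, hk1, hk2, hk⟩ := (hs _).1 h
      have hd := (hc.eq_iff _ _).1 hk
      have hd' : (m : ℤ) ∣ a + n + 1 - k := by
        have := (dvd_neg (α := ℤ)).2 hd
        rwa [show -(k - (a + n + 1)) = a + n + 1 - k by ring] at this
      have := Int.le_of_dvd (by omega) hd'
      omega
    refine ⟨(P.concat hadj).copy rfl h1.symm, ?_, ?_, ?_, ?_⟩
    · simpa using hP.concat hnot hadj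
    · simp [hl]
    · intro w
      simp only [Walk.support_copy, Walk.support_concat, List.mem_append, List.mem_singleton, hs]
      constructor
      · rintro (⟨k, h1, h2, rfl⟩ | rfl)
        · exact ⟨k, h1, by push_cast; omega, rfl⟩
        · exact ⟨a + n + 1, by omega, by push_cast; omega, rfl⟩
      · rintro ⟨k, h1, h2, rfl⟩
        push_cast at h2
        rcases eq_or_lt_of_le h2 with h | h
        · right
          rw [h, add_assoc]
        · left
          exact ⟨k, h1, by omega, rfl⟩
    · intro e
      simp only [Walk.edges_copy, Walk.edges_concat, List.concat_eq_append, List.mem_append,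
        List.mem_singleton, he]
      constructor
      · rintro (⟨k, h1, h2, rfl⟩ | rfl)
        · exact ⟨k, h1, by push_cast; omega, rfl⟩
        · exact ⟨a + n, by omega, by push_cast; omega, rfl⟩
      · rintro ⟨k, h1, h2, rfl⟩
        push_cast at h2
        rcases eq_or_lt_of_le (show k ≤ a + n by omega) with h | h
        · right
          rw [h]
        · left
          exact ⟨k, h1, h, rfl⟩

theorem arc {G : SimpleGraph V} {c : ℤ → V} {m : ℕ} (hc : CycSeq G c m) {a b : ℤ} (hab : a ≤ b)
    (hbm : b < a + m) :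
    ∃ P : G.Walk (c a) (c b), P.IsPath ∧ (P.length : ℤ) = b - a ∧
      (∀ w, w ∈ P.support ↔ ∃ k, a ≤ k ∧ k ≤ b ∧ w = c k) ∧
      (∀ e, e ∈ P.edges ↔ ∃ k, a ≤ k ∧ k < b ∧ e = s(c k, c (k + 1))) := by
  obtain ⟨n, hn⟩ := Int.eq_ofNat_of_zero_le (show 0 ≤ b - a by omega)
  obtain rfl : b = a + n := by omega
  obtain ⟨P, hP, hl, hs, he⟩ := B2a_arc_aux hc a n (by omega)
  exact ⟨P, hP, by rw [hl]; omega, hs, he⟩

theorem glue {G : SimpleGraph V} {a b : V} (P : G.Walk a b) (R : G.Walk b a) (hP : P.IsPath)
    (hR : R.IsPath) (hab : a ≠ b) (hdisj : ∀ w, w ∈ P.support → w ∈ R.support → w = a ∨ w = b)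
    (hlen : 3 ≤ P.length + R.length) {x y : V} (hxy : G.Adj x y)
    (hx : x ∈ P.support ∨ x ∈ R.support) (hy : y ∈ P.support ∨ y ∈ R.support)
    (h1 : s(x, y) ∉ P.edges) (h2 : s(x, y) ∉ R.edges) :
    ShortChorded G (P.length + R.length) := by
  have hcyc : (P.append R).IsCycle := by
    cases P with
    | nil => exact absurd rfl hab
    | @cons _ v _ h P' =>
      rw [Walk.cons_append, Walk.cons_isCycle_iff]
      rw [Walk.cons_isPath_iff] at hP
      obtain ⟨hP', haP'⟩ := hP
      refine ⟨?_, ?_⟩
      · rw [Walk.isPath_def, Walk.support_append, List.nodup_append]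
        have hRn := hR.support_nodup
        rw [← Walk.cons_tail_support] at hRn
        rw [List.nodup_cons] at hRn
        refine ⟨hP'.support_nodup, hRn.2, ?_⟩
        intro w hw w' hw' heq
        subst heq
        have hwR : w ∈ R.support := List.mem_of_mem_tail hw'
        rcases hdisj w (by simp [hw]) hwR with rfl | rfl
        · exact haP' hw
        · exact hRn.1 hw'
      · rw [Walk.edges_append, List.mem_append]
        rintro (he | he)
        · exact haP' (P'.fst_mem_support_of_mem_edges he)
        · have hvR : v ∈ R.support := R.snd_mem_support_of_mem_edges he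
          rcases hdisj v (by simp) hvR with rfl | rfl
          · exact h.ne rfl
          · -- `P'` is a closed path, so nil
            have hP'nil : P' = Walk.nil := Walk.eq_nil_iff_nil.2 (Walk.isPath_iff_nil.1 hP')
            subst hP'nil
            cases R with
            | nil => exact h.ne rfl
            | @cons _ w _ h' R' =>
              rw [Walk.cons_isPath_iff] at hR
              rw [Walk.edges_cons, List.mem_cons] at he
              rcases he with he | he
              · have hwa : w = a := by
                  rcases Sym2.eq_iff.1 he with ⟨h3, h4⟩ | ⟨h3, h4⟩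
                  · exact absurd h3 h.ne
                  · exact h3.symm
                subst hwa
                have hR'nil : R' = Walk.nil := Walk.eq_nil_iff_nil.2 (Walk.isPath_iff_nil.1 hR.1)
                subst hR'nil
                simp at hlen
              · exact hR.2 (R'.snd_mem_support_of_mem_edges he)
  refine ⟨a, P.append R, hcyc, by simp, s(x, y), ?_, ?_, ?_⟩
  · exact hxy
  · rw [Walk.edges_append, List.mem_append]
    exact not_or.2 ⟨h1, h2⟩
  · intro z hz
    rw [Walk.mem_support_append_iff]
    rcases Sym2.mem_iff.1 hz with rfl | rfl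
    · exact hx
    · exact hy

theorem B2a_cycle_edge {G : SimpleGraph V} {w x y : V} (Z : G.Walk w w) (hZ : Z.IsCycle)
    (hxy : s(x, y) ∈ Z.edges) :
    ∃ (t : V) (r : G.Walk y t), r.IsPath ∧ x ∉ r.support ∧ t ≠ y ∧ G.Adj x t ∧
      r.length + 2 = Z.length := by
  classical
  have hxs : x ∈ Z.support := Z.fst_mem_support_of_mem_edges hxy
  have hZ' : (Z.rotate x hxs).IsCycle := hZ.rotate hxs
  have hlen : (Z.rotate x hxs).length = Z.length := by
    rw [← Walk.length_edges, ← Walk.length_edges]
    exact (Z.rotate_edges x hxs).perm.length_eq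
  have he : s(x, y) ∈ (Z.rotate x hxs).edges := (Z.rotate_edges x hxs).mem_iff.2 hxy
  rw [← hlen]
  clear hlen
  generalize Z.rotate x hxs = Z' at hZ' he
  cases Z' with
  | nil => exact absurd hZ' Walk.not_isCycle_nil
  | @cons _ v _ h q =>
    rw [Walk.cons_isCycle_iff] at hZ'
    obtain ⟨hq, hqe⟩ := hZ'
    have hqr : q.reverse.IsPath := hq.reverse
    rw [Walk.edges_cons, List.mem_cons] at he
    have hmem : ∀ e, e ∈ q.edges ↔ e ∈ q.reverse.edges := by simp
    rw [hmem] at he hqe
    have hl : (Walk.cons h q).length = q.reverse.length + 1 := by simp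
    rw [hl]
    clear hl hmem hq
    generalize q.reverse = q' at hqr he hqe
    cases q' with
    | nil => exact absurd rfl h.ne
    | @cons _ w' _ h2 r2 =>
      rw [Walk.cons_isPath_iff] at hqr
      rw [Walk.edges_cons, List.mem_cons] at he hqe
      push Not at hqe
      have hvw : v ≠ w' := by
        rintro rfl
        exact hqe.1 rfl
      rcases he with he | he | he
      · have hyv : y = v := by
          rcases Sym2.eq_iff.1 he with ⟨h3, h4⟩ | ⟨h3, h4⟩
          · exact h4
          · exact absurd h3 h.ne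
        subst hyv
        exact ⟨w', r2.reverse, hqr.1.reverse, by simpa using hqr.2, hvw.symm, h2, by simp⟩
      · have hyw : y = w' := by
          rcases Sym2.eq_iff.1 he with ⟨h3, h4⟩ | ⟨h3, h4⟩
          · exact h4
          · exact absurd h3 h2.ne
        subst hyw
        exact ⟨v, r2, hqr.1, hqr.2, hvw, h, by simp⟩
      · exact absurd (r2.fst_mem_support_of_mem_edges he) hqr.2

theorem B2a_firstHit {G : SimpleGraph V} (S : Set V) {u v : V} (q : G.Walk u v) (hq : q.IsPath)
    (hS : ∃ w ∈ q.support, w ∈ S) :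
    ∃ w ∈ S, ∃ P : G.Walk u w, P.IsPath ∧ P.length ≤ q.length ∧
      (∀ z ∈ P.support, z ∈ S → z = w) ∧ (∀ z ∈ P.support, z ∈ q.support) := by
  classical
  induction q with
  | nil =>
    obtain ⟨w, hw, hwS⟩ := hS
    rw [Walk.support_nil, List.mem_singleton] at hw
    subst hw
    exact ⟨w, hwS, Walk.nil, by simp, by simp, by simp, by simp⟩
  | @cons u v' v h q ih =>
    by_cases hu : u ∈ S
    · exact ⟨u, hu, Walk.nil, by simp, by simp, by simp, by simp⟩
    · rw [Walk.cons_isPath_iff] at hq
      obtain ⟨w, hw, hwS⟩ := hS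
      rw [Walk.support_cons, List.mem_cons] at hw
      have hw' : w ∈ q.support := by
        rcases hw with rfl | hw
        · exact absurd hwS hu
        · exact hw
      obtain ⟨w1, hw1, P, hP, hPl, hPS, hPq⟩ := ih hq.1 ⟨w, hw', hwS⟩
      refine ⟨w1, hw1, Walk.cons h P, ?_, ?_, ?_, ?_⟩
      · rw [Walk.cons_isPath_iff]
        exact ⟨hP, fun hmem => hq.2 (hPq _ hmem)⟩
      · simpa using hPl
      · intro z hz hzS
        rw [Walk.support_cons, List.mem_cons] at hz
        rcases hz with rfl | hz
        · exact absurd hzS hu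
        · exact hPS z hz hzS
      · intro z hz
        rw [Walk.support_cons, List.mem_cons] at hz ⊢
        rcases hz with rfl | hz
        · exact Or.inl rfl
        · exact Or.inr (hPq z hz)

theorem exists_ear {G : SimpleGraph V} (hcub : ∀ v, (G.neighborSet v).ncard = 3) {c : ℤ → V}
    {m ℓ : ℕ} (hc : CycSeq G c m) (hm : 3 ≤ m) {i : ℤ} {y : V} (hy : G.Adj (c i) y)
    (hy1 : y ≠ c (i + 1)) (hy2 : y ≠ c (i - 1))
    (hZ : ∃ (w : V) (Z : G.Walk w w), Z.IsCycle ∧ Z.length ≤ ℓ ∧ s(c i, y) ∈ Z.edges) :
    ∃ (j : ℤ) (P : G.Walk (c i) (c j)), P.IsPath ∧ c i ≠ c j ∧ P.length < ℓ ∧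
      (∀ k, c k ∈ P.support → c k = c i ∨ c k = c j) ∧ (∀ k, s(c k, c (k + 1)) ∉ P.edges) := by
  obtain ⟨w, Z, hZc, hZl, hZe⟩ := hZ
  obtain ⟨t, r, hr, hxr, hty, hadj, hrl⟩ := B2a_cycle_edge Z hZc hZe
  have hadj2 : G.Adj (c i) (c (i - 1)) := by
    have := hc.adj (i - 1)
    rw [sub_add_cancel] at this
    exact this.symm
  have hne : c (i + 1) ≠ c (i - 1) := by
    intro h
    have hd := (hc.eq_iff _ _).1 h
    have hd' : (m : ℤ) ∣ 2 := by
      have := (dvd_neg (α := ℤ)).2 hd
      rwa [show -(i - 1 - (i + 1)) = (2 : ℤ) by ring] at this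
    have := Int.le_of_dvd (by norm_num) hd'
    omega
  have hfin : (G.neighborSet (c i)).Finite := by
    by_contra hinf
    have h0 : (G.neighborSet (c i)).ncard = 0 := Set.Infinite.ncard hinf
    have := hcub (c i)
    omega
  have hset : ({c (i + 1), c (i - 1), y} : Set V) = G.neighborSet (c i) := by
    apply Set.eq_of_subset_of_ncard_le
    · intro z hz
      simp only [Set.mem_insert_iff, Set.mem_singleton_iff] at hz
      rcases hz with rfl | rfl | rfl
      · exact hc.adj i
      · exact hadj2
      · exact hy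
    · rw [hcub, Set.ncard_eq_three.2]
      exact ⟨_, _, _, hne, hy1.symm, hy2.symm, rfl⟩
    · exact hfin
  have htS : t ∈ Set.range c := by
    have : t ∈ ({c (i + 1), c (i - 1), y} : Set V) := by
      rw [hset]
      exact hadj
    simp only [Set.mem_insert_iff, Set.mem_singleton_iff] at this
    rcases this with h | h | h
    · exact ⟨_, h.symm⟩
    · exact ⟨_, h.symm⟩
    · exact absurd h hty
  obtain ⟨w1, ⟨j, rfl⟩, P, hP, hPl, hPS, hPq⟩ :=
    B2a_firstHit (Set.range c) r hr ⟨t, r.end_mem_support, htS⟩
  have hiP : c i ∉ P.support := fun h => hxr (hPq _ h)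
  refine ⟨j, Walk.cons hy P, ?_, ?_, ?_, ?_, ?_⟩
  · rw [Walk.cons_isPath_iff]
    exact ⟨hP, hiP⟩
  · intro h
    apply hiP
    rw [h]
    exact P.end_mem_support
  · rw [Walk.length_cons]
    omega
  · intro k hk
    rw [Walk.support_cons, List.mem_cons] at hk
    rcases hk with hk | hk
    · exact Or.inl hk
    · exact Or.inr (hPS _ hk ⟨k, rfl⟩)
  · intro k hk
    rw [Walk.edges_cons, List.mem_cons] at hk
    rcases hk with hk | hk
    · rcases Sym2.eq_iff.1 hk with ⟨h3, h4⟩ | ⟨h3, h4⟩
      · apply hy1
        rw [← h4, hc.eq_iff]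
        have := (hc.eq_iff _ _).1 h3
        rwa [show i + 1 - (k + 1) = i - k by ring]
      · apply hy2
        rw [← h3, hc.eq_iff]
        have := (hc.eq_iff _ _).1 h4
        rwa [show i - 1 - k = i - (k + 1) by ring]
    · have e1 := hPS _ (P.fst_mem_support_of_mem_edges hk) ⟨k, rfl⟩
      have e2 := hPS _ (P.snd_mem_support_of_mem_edges hk) ⟨k + 1, rfl⟩
      exact (hc.adj k).ne (e1.trans e2.symm)

end Pool.Agent.H40.CK
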