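import Pool.Agent.H40.CK.B2

/-!
# CK / B3a: the hitting set `Y`

Call an edge `e` short if it lies on a cycle of length `≤ s`.  If a cycle of length `≤ s` passes through `v`
then `v` has at least two short edges.
Let `Z` be the set of vertices `v` such that exactly two edges at `v` are short.
Every cycle `C` of length `≤ s` meets `Z`: otherwise for every `x ∈ C` the third edge at `x` (not in `C`) is
short as well, and `shortChorded_of_cycle` (with `ℓ = s` and any `p`) gives `ShortChorded G (3 s)`.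
Take an inclusion-minimal `Y ⊆ Z` such that every cycle of length `≤ s` meets `Y` (`V` is finite).
For `y ∈ Y`, `Y \ {y}` does not hit all of them: there is a cycle `C` of length `≤ s` with
`C ∩ Y = {y}`.
-/

namespace Pool.Agent.H40.CK

open SimpleGraph

variable {V : Type*}

theorem exists_hitting_vertices [Finite V] {G : SimpleGraph V}
    (hcub : ∀ v, (G.neighborSet v).ncard = 3) {s : ℕ} (hno : ¬ ShortChorded G (3 * s)) :
    ∃ Y : Set V,
      (∀ (u : V) (C : G.Walk u u), C.IsCycle → C.length ≤ s → ∃ y ∈ Y, y ∈ C.support) ∧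
      (∀ y ∈ Y, ({x | ∃ (u : V) (C : G.Walk u u), C.IsCycle ∧ C.length ≤ s ∧ s(y, x) ∈ C.edges} :
        Set V).ncard = 2) ∧
      (∀ y ∈ Y, ∃ (u : V) (C : G.Walk u u), C.IsCycle ∧ C.length ≤ s ∧ y ∈ C.support ∧
        ∀ z ∈ C.support, z ∈ Y → z = y) := by
  classical
  set sh : V → Set V := fun y =>
    {x | ∃ (u : V) (C : G.Walk u u), C.IsCycle ∧ C.length ≤ s ∧ s(y, x) ∈ C.edges} with hsh
  have hsub : ∀ v, sh v ⊆ G.neighborSet v := by
    rintro v x ⟨u, C, -, -, he⟩
    exact C.adj_of_mem_edges he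
  have hthree : ∀ v, (sh v).ncard ≤ 3 := fun v => by
    rw [← hcub v]
    exact Set.ncard_le_ncard (hsub v) (Set.toFinite _)
  have htwo : ∀ (u : V) (C : G.Walk u u), C.IsCycle → C.length ≤ s → ∀ v ∈ C.support,
      2 ≤ (sh v).ncard := by
    intro u C hC hl v hv
    rw [← hC.ncard_neighborSet_toSubgraph_eq_two hv]
    refine Set.ncard_le_ncard ?_ (Set.toFinite _)
    intro x hx
    refine ⟨u, C, hC, hl, ?_⟩
    have h := (Subgraph.mem_edgeSet (G' := C.toSubgraph)).2 hx
    rwa [Walk.mem_edges_toSubgraph] at h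
  set Z : Set V := {v | (sh v).ncard = 2} with hZ
  have hitZ : ∀ (u : V) (C : G.Walk u u), C.IsCycle → C.length ≤ s → ∃ y ∈ Z, y ∈ C.support := by
    intro u C hC hl
    by_contra hcon
    refine hno (shortChorded_of_cycle hcub C hC hl u ?_)
    intro x hx _ y hxy _
    have h2 := htwo u C hC hl x hx
    have h3 := hthree x
    have hne : (sh x).ncard ≠ 2 := fun h => hcon ⟨x, h, hx⟩
    have heq : sh x = G.neighborSet x :=
      Set.eq_of_subset_of_ncard_le (hsub x) (by rw [hcub x]; omega) (Set.toFinite _)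
    have hy : y ∈ sh x := by
      rw [heq]
      exact hxy
    exact hy
  obtain ⟨Y, hYmin⟩ := (Set.toFinite {Y : Set V | Y ⊆ Z ∧ ∀ (u : V) (C : G.Walk u u), C.IsCycle →
    C.length ≤ s → ∃ y ∈ Y, y ∈ C.support}).exists_minimal ⟨Z, subset_rfl, hitZ⟩
  have hY := hYmin.prop
  refine ⟨Y, hY.2, fun y hy => hY.1 hy, fun y hy => ?_⟩
  have hnot : ¬ ∀ (u : V) (C : G.Walk u u), C.IsCycle → C.length ≤ s →
      ∃ z ∈ Y \ {y}, z ∈ C.support := by
    intro hall
    have := hYmin.le_of_le (y := Y \ {y}) ⟨Set.sdiff_subset.trans hY.1, hall⟩ Set.sdiff_subset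
    exact (this hy).2 rfl
  push Not at hnot
  obtain ⟨u, C, hC, hl, hmiss⟩ := hnot
  obtain ⟨z, hz, hzC⟩ := hY.2 u C hC hl
  have huniq : ∀ z ∈ C.support, z ∈ Y → z = y := by
    intro z hz hzY
    by_contra hzy
    exact hmiss z ⟨hzY, hzy⟩ hz
  have hzy : z = y := huniq z hzC hz
  subst hzy
  exact ⟨u, C, hC, hl, hzC, huniq⟩

end Pool.Agent.H40.CK
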