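import Pool.Agent.H40.CK.B4

/-!
# CK / B5: the number of bridges

`card_bridges_lt`: for a set `B` of bridges (edges of `G` not in `cyc G`), by induction on `#B`,
`#B + #components(G) ≤ #components(G.deleteEdges B)`: for `e = s(u,v) ∈ Br \ B`, `e` is an edge of
`G' = G.deleteEdges B` on no cycle of `G'`; the map from components of `G'.deleteEdges {e}` to components of
`G'` is surjective and not injective (`u`, `v` are connected in `G'` but not in `G'.deleteEdges {e}`,
`adj_and_reachable_delete_edges_iff_exists_cycle`), so the cardinality increases by at least one.  Take `B` = all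
bridges: `G.deleteEdges B = cyc G`, and `#components(G) ≥ 1`.

`sum_bdeg`: the bridge darts `(u, v)` are partitioned by the component of `u`; every bridge has two darts.
-/

namespace Pool.Agent.H40.CK

open SimpleGraph

variable {V : Type*}

private theorem b5_step [Finite V] {G : SimpleGraph V} (B : Finset (Sym2 V))
    (hB : (B : Set (Sym2 V)) ⊆ G.edgeSet \ (cyc G).edgeSet) :
    B.card + Nat.card G.ConnectedComponent ≤ Nat.card (G.deleteEdges B).ConnectedComponent := by
  classical
  induction B using Finset.induction_on with
  | empty => simp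
  | insert e B he ih =>
    have hB' : (B : Set (Sym2 V)) ⊆ G.edgeSet \ (cyc G).edgeSet :=
      fun x hx => hB (by simp [Finset.mem_coe.1 hx])
    have ih' := ih hB'
    have heG : e ∈ G.edgeSet \ (cyc G).edgeSet := hB (by simp)
    rw [Finset.card_insert_of_notMem he]
    have hle : G.deleteEdges (↑(insert e B) : Set (Sym2 V)) ≤ G.deleteEdges (B : Set (Sym2 V)) := by
      apply deleteEdges_anti
      intro x hx
      simp [Finset.mem_coe.1 hx]
    have hlt : Nat.card (G.deleteEdges (B : Set (Sym2 V))).ConnectedComponent <
        Nat.card (G.deleteEdges (↑(insert e B) : Set (Sym2 V))).ConnectedComponent := by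
      have := Fintype.ofFinite (G.deleteEdges (B : Set (Sym2 V))).ConnectedComponent
      have := Fintype.ofFinite (G.deleteEdges (↑(insert e B) : Set (Sym2 V))).ConnectedComponent
      rw [Nat.card_eq_fintype_card, Nat.card_eq_fintype_card]
      refine Fintype.card_lt_of_surjective_not_injective
        (ConnectedComponent.map (Hom.ofLE hle)) ?_ ?_
      · intro κ
        induction κ using ConnectedComponent.ind with
        | h v => exact ⟨(G.deleteEdges (↑(insert e B) : Set (Sym2 V))).connectedComponentMk v, rfl⟩
      · intro hinj
        induction e using Sym2.ind with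
        | h u v =>
          have hadj : (G.deleteEdges (B : Set (Sym2 V))).Adj u v := by
            rw [deleteEdges_adj]
            exact ⟨heG.1, he⟩
          have h1 : (G.deleteEdges (↑(insert s(u, v) B) : Set (Sym2 V))).connectedComponentMk u =
              (G.deleteEdges (↑(insert s(u, v) B) : Set (Sym2 V))).connectedComponentMk v := by
            apply hinj
            show (G.deleteEdges (B : Set (Sym2 V))).connectedComponentMk u =
              (G.deleteEdges (B : Set (Sym2 V))).connectedComponentMk v
            exact ConnectedComponent.eq.2 hadj.reachable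
          have h2 := ConnectedComponent.eq.1 h1
          have h3 : G.deleteEdges (↑(insert s(u, v) B) : Set (Sym2 V)) ≤
              G \ fromEdgeSet {s(u, v)} := by
            intro a b hab
            rw [deleteEdges_adj] at hab
            rw [sdiff_adj, fromEdgeSet_adj]
            refine ⟨hab.1, fun h => hab.2 ?_⟩
            rw [Finset.coe_insert]
            exact Or.inl h.1
          obtain ⟨w, C, hC, hCe⟩ := adj_and_reachable_delete_edges_iff_exists_cycle.1
            ⟨heG.1, h2.mono h3⟩
          exact heG.2 ⟨w, C, hC, hCe⟩
    omega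

theorem card_bridges_lt [Finite V] [Nonempty V] (G : SimpleGraph V) :
    (G.edgeSet \ (cyc G).edgeSet).ncard < Nat.card (cyc G).ConnectedComponent := by
  classical
  have hfin : (G.edgeSet \ (cyc G).edgeSet).Finite := Set.toFinite _
  have h1 := b5_step (G := G) hfin.toFinset (by simp)
  have h2 : G.deleteEdges (hfin.toFinset : Set (Sym2 V)) = cyc G := by
    rw [Set.Finite.coe_toFinset]
    ext u v
    rw [deleteEdges_adj]
    constructor
    · rintro ⟨h1, h2⟩
      by_contra h3
      exact h2 ⟨h1, h3⟩
    · intro h
      exact ⟨cyc_le G h, fun h' => h'.2 h⟩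
  rw [h2, ← Set.ncard_eq_toFinset_card _ hfin] at h1
  have h3 : 0 < Nat.card G.ConnectedComponent := Nat.card_pos
  omega

theorem sum_bdeg [Finite V] (G : SimpleGraph V) [Fintype (cyc G).ConnectedComponent] :
    ∑ κ : (cyc G).ConnectedComponent, bdeg G κ = 2 * (G.edgeSet \ (cyc G).edgeSet).ncard := by
  classical
  have := Fintype.ofFinite V
  set H : SimpleGraph V := G \ cyc G with hH
  set D : Finset (V × V) := Finset.univ.filter (fun d => H.Adj d.1 d.2) with hD
  have h1 : ∀ κ : (cyc G).ConnectedComponent, bdeg G κ =
      (D.filter (fun d => (cyc G).connectedComponentMk d.1 = κ)).card := by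
    intro κ
    unfold bdeg
    rw [← Set.ncard_coe_finset]
    congr 1
    ext d
    simp only [Set.mem_ofPred_eq, Finset.coe_filter, hD, Finset.mem_filter, Finset.mem_univ,
      true_and, hH, sdiff_adj, ConnectedComponent.mem_supp_iff]
    tauto
  have h2 : ∑ κ : (cyc G).ConnectedComponent, bdeg G κ = D.card := by
    rw [Finset.card_eq_sum_card_fiberwise (f := fun d => (cyc G).connectedComponentMk d.1)
      (t := Finset.univ) (fun _ _ => Finset.mem_coe.2 (Finset.mem_univ _))]
    exact Finset.sum_congr rfl fun κ _ => h1 κ
  have h3 : D.card = Fintype.card H.Dart := by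
    rw [← Finset.card_univ]
    symm
    refine Finset.card_bij (fun d _ => d.toProd) ?_ ?_ ?_
    · intro d _
      rw [hD, Finset.mem_filter]
      exact ⟨Finset.mem_univ _, d.adj⟩
    · intro d _ d' _ h
      exact Dart.ext _ _ h
    · intro d hd
      rw [hD, Finset.mem_filter] at hd
      exact ⟨⟨d, hd.2⟩, Finset.mem_univ _, rfl⟩
  have h4 : (G.edgeSet \ (cyc G).edgeSet).ncard = H.edgeFinset.card := by
    rw [← Set.ncard_coe_finset, coe_edgeFinset, hH, edgeSet_sdiff]
  have h5 : ∀ (i1 i2 : Fintype H.edgeSet), (@edgeFinset V H i1).card = (@edgeFinset V H i2).card :=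
    fun i1 i2 => by rw [Subsingleton.elim i1 i2]
  rw [h2, h3, h4, H.dart_card_eq_twice_card_edges]
  exact congrArg _ (h5 _ _)

end Pool.Agent.H40.CK
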